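import Pool.Agent.Helper19K9.Fb.FS
import Mathlib

/-!
From counts in the fibres to almost all points.
-/

set_option autoImplicit false
set_option linter.all false
set_option maxHeartbeats 4000000

namespace Pool.Agent.Helper19K9.Fb

open MeasureTheory

/-- the rational number `x.1 / x.2` is within `A ht x ^ (-2 + δ)` of `ξ` -/
def near (A δ : ℝ) (ξ : ℝ) (x : ℤ × ℤ) : Prop :=
  x.2 ≠ 0 ∧ |ξ - (x.1 : ℝ) / x.2| ≤ A * (ht x : ℝ) ^ (-2 + δ)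

/-- the pairs in question with `2 ^ k ≤ ht x < 2 ^ (k + 1)`, `2 ^ l ≤ ht y < 2 ^ (l + 1)` -/
def Ekl (Y : ℤ × ℤ → Prop) (Λ : ℝ) (Bad : ℤ × ℤ → ℤ × ℤ → Prop) (k l : ℕ) :
    Set ((ℤ × ℤ) × (ℤ × ℤ)) :=
  {q | IsCoprime q.1.1 q.1.2 ∧ IsCoprime q.2.1 q.2.2 ∧ Y q.2 ∧ (ht q.2 : ℝ) ≤ (ht q.1 : ℝ) ^ Λ ∧
    Bad q.1 q.2 ∧ Nat.log 2 (ht q.1) = k ∧ Nat.log 2 (ht q.2) = l}

lemma log_bd {x : ℤ × ℤ} (hx : IsCoprime x.1 x.2) {k : ℕ} (h : Nat.log 2 (ht x) = k) :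
    2 ^ k ≤ ht x ∧ ht x ≤ 2 ^ (k + 1) := by
  have h1 := ht_pos hx
  constructor
  · rw [← h]; exact Nat.pow_log_le_self 2 (by omega)
  · rw [← h]; exact (Nat.lt_pow_succ_log_self (by norm_num) _).le

lemma Ekl_sub (Y : ℤ × ℤ → Prop) (Λ : ℝ) (Bad : ℤ × ℤ → ℤ × ℤ → Prop) (k l : ℕ) :
    Ekl Y Λ Bad k l ⊆ ((bx (2 ^ (k + 1))) ×ˢ (bx (2 ^ (l + 1))) : Finset ((ℤ × ℤ) × (ℤ × ℤ))) := by
  rintro q ⟨h1, h2, -, -, -, h3, h4⟩
  rw [Finset.mem_coe, Finset.mem_product, mem_bx, mem_bx]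
  exact ⟨(log_bd h1 h3).2, (log_bd h2 h4).2⟩

lemma Ekl_fin (Y : ℤ × ℤ → Prop) (Λ : ℝ) (Bad : ℤ × ℤ → ℤ × ℤ → Prop) (k l : ℕ) :
    (Ekl Y Λ Bad k l).Finite := (Finset.finite_toSet _).subset (Ekl_sub Y Λ Bad k l)

theorem Ekl_card {Y : ℤ × ℤ → Prop} {Λ : ℝ} (hΛ : 0 < Λ) {Bad : ℤ × ℤ → ℤ × ℤ → Prop} {c C : ℝ}
    (hC : 0 < C) (h : ∀ B : ℕ, 1 ≤ B → ∀ y : ℤ × ℤ, IsCoprime y.1 y.2 → Y y →
      (ht y : ℝ) ≤ (B : ℝ) ^ Λ → ((fset B (fun x => Bad x y)).ncard : ℝ) ≤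
        C * (B : ℝ) ^ ((2 : ℝ) - c)) (k l : ℕ) :
    (((Ekl_fin Y Λ Bad k l).toFinset.card : ℕ) : ℝ) ≤
      (9 * ((2 : ℝ) ^ (l + 1)) ^ (2 : ℝ)) * (C * ((2 : ℝ) ^ (k + 1)) ^ ((2 : ℝ) - c)) := by
  classical
  set E := (Ekl_fin Y Λ Bad k l).toFinset with hE
  rw [Finset.card_eq_sum_card_image (fun q => q.2) E]
  push_cast
  have hy : ∀ y ∈ E.image (fun q => q.2), (((E.filter fun q => q.2 = y).card : ℕ) : ℝ) ≤
      C * ((2 : ℝ) ^ (k + 1)) ^ ((2 : ℝ) - c) := by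
    intro y hy
    rw [Finset.mem_image] at hy
    obtain ⟨q, hq, hqy⟩ := hy
    rw [hE, Set.Finite.mem_toFinset] at hq
    obtain ⟨h1, h2, h3, h4, h5, h6, h7⟩ := hq
    have hb := h (2 ^ (k + 1)) (Nat.one_le_two_pow) y (hqy ▸ h2) (hqy ▸ h3) (by
      rw [← hqy]
      refine h4.trans (Real.rpow_le_rpow (by positivity) ?_ hΛ.le)
      exact_mod_cast (log_bd h1 h6).2)
    push_cast at hb
    refine le_trans ?_ hb
    have : (E.filter fun q => q.2 = y).card ≤ (fset (2 ^ (k + 1)) (fun x => Bad x y)).ncard := by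
      rw [← Set.ncard_coe_finset]
      refine Set.ncard_le_ncard_of_injOn (fun q => q.1) ?_ ?_ (fset_finite _ _)
      · intro q hq
        rw [Finset.mem_coe, Finset.mem_filter, hE, Set.Finite.mem_toFinset] at hq
        obtain ⟨⟨g1, g2, g3, g4, g5, g6, g7⟩, g8⟩ := hq
        exact ⟨(log_bd g1 g6).2, g1, g8 ▸ g5⟩
      · intro q hq q' hq' hqq
        rw [Finset.mem_coe, Finset.mem_filter] at hq hq'
        exact Prod.ext hqq (hq.2.trans hq'.2.symm)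
    exact_mod_cast this
  have hcard : (((E.image (fun q => q.2)).card : ℕ) : ℝ) ≤ 9 * ((2 : ℝ) ^ (l + 1)) ^ (2 : ℝ) := by
    have h1 : (E.image (fun q => q.2)).card ≤ (bx (2 ^ (l + 1))).card := by
      refine Finset.card_le_card fun y hy => ?_
      rw [Finset.mem_image] at hy
      obtain ⟨q, hq, hqy⟩ := hy
      rw [hE, Set.Finite.mem_toFinset] at hq
      rw [← hqy, mem_bx]
      exact (log_bd hq.2.1 hq.2.2.2.2.2.2).2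
    have h2 := card_bx (2 ^ (l + 1)) Nat.one_le_two_pow
    push_cast at h2
    refine le_trans ?_ h2
    exact_mod_cast h1
  calc ∑ y ∈ E.image (fun q => q.2), (((E.filter fun q => q.2 = y).card : ℕ) : ℝ)
      ≤ ∑ y ∈ E.image (fun q => q.2), C * ((2 : ℝ) ^ (k + 1)) ^ ((2 : ℝ) - c) :=
        Finset.sum_le_sum hy
    _ = ((E.image (fun q => q.2)).card : ℝ) * (C * ((2 : ℝ) ^ (k + 1)) ^ ((2 : ℝ) - c)) := by
        rw [Finset.sum_const, nsmul_eq_mul]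
    _ ≤ _ := mul_le_mul_of_nonneg_right hcard (by positivity)

/-- the ball around the rational number -/
noncomputable def ball (A δ : ℝ) (x : ℤ × ℤ) : Set ℝ :=
  Metric.closedBall ((x.1 : ℝ) / x.2) (A * (ht x : ℝ) ^ (-2 + δ))

lemma ball_vol {A δ : ℝ} (hA : 0 < A) (hδ : δ ≤ 2) {x : ℤ × ℤ} (hx : IsCoprime x.1 x.2) {k : ℕ}
    (h : Nat.log 2 (ht x) = k) :
    volume (ball A δ x) ≤ ENNReal.ofReal (2 * A * ((2 : ℝ) ^ k) ^ (-2 + δ)) := by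
  unfold ball
  rw [Real.volume_closedBall, mul_assoc 2 A]
  refine ENNReal.ofReal_le_ofReal (mul_le_mul_of_nonneg_left ?_ (by norm_num))
  refine mul_le_mul_of_nonneg_left ?_ hA.le
  refine Real.rpow_le_rpow_of_nonpos (by positivity) ?_ (by linarith)
  exact_mod_cast (log_bd hx h).1

/-- **Counts in the fibres give finiteness for almost all points.** -/
theorem borel {Y : ℤ × ℤ → Prop} {Λ : ℝ} (hΛ : 0 < Λ) {Bad : ℤ × ℤ → ℤ × ℤ → Prop} {c C : ℝ}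
    (hc : 0 < c) (hC : 0 < C) (h : ∀ B : ℕ, 1 ≤ B → ∀ y : ℤ × ℤ, IsCoprime y.1 y.2 → Y y →
      (ht y : ℝ) ≤ (B : ℝ) ^ Λ → ((fset B (fun x => Bad x y)).ncard : ℝ) ≤
        C * (B : ℝ) ^ ((2 : ℝ) - c)) {δ : ℝ} (hδ : 0 < δ) (hδ2 : δ ≤ 2)
    (hδc : δ * (2 * (1 + Λ)) ≤ c) {a : ℝ} (ha : 0 < a) :
    ∀ᵐ P : ℝ × ℝ, {q : (ℤ × ℤ) × (ℤ × ℤ) | IsCoprime q.1.1 q.1.2 ∧ IsCoprime q.2.1 q.2.2 ∧
      Y q.2 ∧ (ht q.2 : ℝ) ≤ (ht q.1 : ℝ) ^ Λ ∧ Bad q.1 q.2 ∧ near a δ P.1 q.1 ∧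
      near a δ P.2 q.2}.Finite := by
  classical
  set θ : ℝ := δ with hθ
  set A : ℕ × ℕ → Set (ℝ × ℝ) := fun i => ⋃ q ∈ (Ekl_fin Y Λ Bad i.1 i.2).toFinset,
    (ball a δ q.1) ×ˢ (ball a δ q.2) with hA
  set K : ℝ := 9 * 2 ^ (2 : ℝ) * (C * 2 ^ ((2 : ℝ) - c)) * (4 * a ^ 2) * 2 ^ (Λ * (δ + θ)) with hK
  have hK0 : 0 < K := by positivity
  have hvol : ∀ i : ℕ × ℕ, volume (A i) ≤
      ENNReal.ofReal (K * (((2 : ℝ) ^ (-θ)) ^ i.1 * ((2 : ℝ) ^ (-θ)) ^ i.2)) := by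
    rintro ⟨k, l⟩
    by_cases hne : (Ekl_fin Y Λ Bad k l).toFinset = ∅
    · have h0 : A (k, l) = ∅ := by
        show (⋃ q ∈ (Ekl_fin Y Λ Bad k l).toFinset, (ball a δ q.1) ×ˢ (ball a δ q.2)) = ∅
        rw [hne]; simp
      rw [h0, measure_empty]
      exact zero_le
    obtain ⟨q₀, hq₀⟩ := Finset.nonempty_iff_ne_empty.2 hne
    rw [Set.Finite.mem_toFinset] at hq₀
    have hkl : (2 : ℝ) ^ l ≤ ((2 : ℝ) ^ (k + 1)) ^ Λ := by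
      have h1 : (2 : ℝ) ^ l ≤ ht q₀.2 := by exact_mod_cast (log_bd hq₀.2.1 hq₀.2.2.2.2.2.2).1
      have h2 : (ht q₀.1 : ℝ) ≤ 2 ^ (k + 1) := by
        exact_mod_cast (log_bd hq₀.1 hq₀.2.2.2.2.2.1).2
      exact h1.trans (hq₀.2.2.2.1.trans (Real.rpow_le_rpow (by positivity) h2 hΛ.le))
    have step1 : volume (A (k, l)) ≤ ∑ q ∈ (Ekl_fin Y Λ Bad k l).toFinset,
        ENNReal.ofReal (2 * a * ((2 : ℝ) ^ k) ^ (-2 + δ)) *
          ENNReal.ofReal (2 * a * ((2 : ℝ) ^ l) ^ (-2 + δ)) := by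
      refine (measure_biUnion_finset_le _ _).trans (Finset.sum_le_sum fun q hq => ?_)
      rw [Set.Finite.mem_toFinset] at hq
      rw [Measure.volume_eq_prod, Measure.prod_prod]
      exact mul_le_mul' (ball_vol ha hδ2 hq.1 hq.2.2.2.2.2.1)
        (ball_vol ha hδ2 hq.2.1 hq.2.2.2.2.2.2)
    refine step1.trans ?_
    rw [Finset.sum_const, nsmul_eq_mul, ← ENNReal.ofReal_mul (by positivity),
      ← ENNReal.ofReal_natCast, ← ENNReal.ofReal_mul (by positivity)]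
    refine ENNReal.ofReal_le_ofReal ?_
    have hcard := Ekl_card hΛ hC h k l
    refine (mul_le_mul_of_nonneg_right hcard (by positivity)).trans ?_
    -- everything as a power of two
    have two : (0 : ℝ) < 2 := by norm_num
    have e1 : ∀ (n : ℕ) (t : ℝ), ((2 : ℝ) ^ n) ^ t = 2 ^ ((n : ℝ) * t) := by
      intro n t
      rw [← Real.rpow_natCast 2 n, ← Real.rpow_mul two.le]
    have e2 : ∀ (n : ℕ), ((2 : ℝ) ^ (-θ)) ^ n = 2 ^ (-θ * n) := by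
      intro n
      rw [← Real.rpow_natCast, ← Real.rpow_mul two.le]
    have hkl' : (l : ℝ) ≤ (k + 1) * Λ := by
      rw [e1, ← Real.rpow_natCast] at hkl
      have := (Real.rpow_le_rpow_left_iff (by norm_num : (1 : ℝ) < 2)).1 hkl
      push_cast at this
      exact this
    rw [e1, e1, e1, e1, e2, e2, hK]
    have lhs : 9 * (2 : ℝ) ^ (((l + 1 : ℕ) : ℝ) * 2) * (C * 2 ^ (((k + 1 : ℕ) : ℝ) * (2 - c))) *
        (2 * a * 2 ^ ((k : ℝ) * (-2 + δ)) * (2 * a * 2 ^ ((l : ℝ) * (-2 + δ)))) =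
        9 * 2 ^ (2 : ℝ) * (C * 2 ^ ((2 : ℝ) - c)) * (4 * a ^ 2) *
          2 ^ ((k : ℝ) * (δ - c) + l * δ) := by
      have g1 : (2 : ℝ) ^ (((l + 1 : ℕ) : ℝ) * 2) = 2 ^ ((l : ℝ) * 2) * 2 ^ (2 : ℝ) := by
        rw [← Real.rpow_add two]; congr 1; push_cast; ring
      have g2 : (2 : ℝ) ^ (((k + 1 : ℕ) : ℝ) * (2 - c)) =
          2 ^ ((k : ℝ) * (2 - c)) * 2 ^ ((2 : ℝ) - c) := by
        rw [← Real.rpow_add two]; congr 1; push_cast; ring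
      have g3 : (2 : ℝ) ^ ((k : ℝ) * (δ - c) + l * δ) =
          2 ^ ((l : ℝ) * 2) * 2 ^ ((k : ℝ) * (2 - c)) * 2 ^ ((k : ℝ) * (-2 + δ)) *
            2 ^ ((l : ℝ) * (-2 + δ)) := by
        rw [← Real.rpow_add two, ← Real.rpow_add two, ← Real.rpow_add two]; congr 1; ring
      rw [g1, g2, g3]; ring
    rw [lhs]
    have rhs : 9 * (2 : ℝ) ^ (2 : ℝ) * (C * 2 ^ ((2 : ℝ) - c)) * (4 * a ^ 2) *
        2 ^ (Λ * (δ + θ)) * (2 ^ (-θ * (k : ℝ)) * 2 ^ (-θ * (l : ℝ))) =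
        9 * 2 ^ (2 : ℝ) * (C * 2 ^ ((2 : ℝ) - c)) * (4 * a ^ 2) *
          2 ^ (Λ * (δ + θ) + (-θ * (k : ℝ)) + (-θ * (l : ℝ))) := by
      rw [Real.rpow_add two, Real.rpow_add two]; ring
    rw [rhs]
    refine mul_le_mul_of_nonneg_left ?_ (by positivity)
    refine Real.rpow_le_rpow_of_exponent_le (by norm_num) ?_
    have hk0 : (0 : ℝ) ≤ k := by positivity
    have h1 : (l : ℝ) * (2 * δ) ≤ (k + 1) * Λ * (2 * δ) :=
      mul_le_mul_of_nonneg_right hkl' (by linarith)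
    have h2 : (k : ℝ) * (δ * (2 * (1 + Λ))) ≤ k * c := mul_le_mul_of_nonneg_left hδc hk0
    rw [hθ]
    nlinarith
  have hsum : ∑' i, volume (A i) ≠ ⊤ := by
    have hr0 : 0 ≤ (2 : ℝ) ^ (-θ) := by positivity
    have hr1 : (2 : ℝ) ^ (-θ) < 1 := Real.rpow_lt_one_of_one_lt_of_neg (by norm_num) (by linarith)
    have hg := summable_geometric_of_lt_one hr0 hr1
    have hs : Summable fun i : ℕ × ℕ => K * (((2 : ℝ) ^ (-θ)) ^ i.1 * ((2 : ℝ) ^ (-θ)) ^ i.2) :=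
      (hg.mul_of_nonneg hg (fun _ => by positivity) (fun _ => by positivity)).mul_left K
    exact ne_top_of_le_ne_top hs.tsum_ofReal_ne_top (ENNReal.tsum_le_tsum hvol)
  filter_upwards [ae_finite_setOfPred_mem hsum] with P hP
  refine (hP.biUnion (fun i _ => Ekl_fin Y Λ Bad i.1 i.2)).subset ?_
  rintro q ⟨h1, h2, h3, h4, h5, h6, h7⟩
  rw [Set.mem_iUnion₂]
  have hq : q ∈ Ekl Y Λ Bad (Nat.log 2 (ht q.1)) (Nat.log 2 (ht q.2)) :=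
    ⟨h1, h2, h3, h4, h5, rfl, rfl⟩
  refine ⟨(Nat.log 2 (ht q.1), Nat.log 2 (ht q.2)), ?_, hq⟩
  show P ∈ A _
  rw [hA]
  simp only [Set.mem_iUnion, exists_prop]
  refine ⟨q, ?_, ?_, ?_⟩
  · rw [Set.Finite.mem_toFinset]; exact hq
  · rw [ball, Metric.mem_closedBall, Real.dist_eq]; exact h6.2
  · rw [ball, Metric.mem_closedBall, Real.dist_eq]; exact h7.2

end Pool.Agent.Helper19K9.Fb
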