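import Pool.Agent.Helper19K9.Fb.Swap

/-!
The truncated inequality at all but finitely many pairs of good approximations of almost all points.
-/

set_option autoImplicit false
set_option linter.all false
set_option maxHeartbeats 4000000

namespace Pool.Agent.Helper19K9.Fb

open MvPolynomial Pool.Agent.TH910.Voj Pool.Agent.Helper19K9.Sq Pool.Agent.H813R3.Voj MeasureTheory

/-- the violation of the inequality -/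
def Viol {ℓ : ℕ} (F : Fin ℓ → MvPolynomial (Fin 4) ℤ) (S : Finset ℕ) (q₁ q₂ : ℝ)
    (x y : ℤ × ℤ) : Prop :=
  (∃ j, val (F j) x y = 0) ∨
    ∑ p ∈ (∏ j, val (F j) x y).natAbs.primeFactors \ S, Real.log (p : ℝ) <
      q₁ * Real.log (ht x) + q₂ * Real.log (ht y)

lemma near_mono {A A' δ δ' : ℝ} (hA : 0 < A') (hAA : A ≤ A') (h : δ ≤ δ') {ξ : ℝ} {x : ℤ × ℤ}
    (hx : IsCoprime x.1 x.2) (hn : near A δ ξ x) : near A' δ' ξ x := by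
  refine ⟨hn.1, hn.2.trans ?_⟩
  refine (mul_le_mul_of_nonneg_right hAA (by positivity)).trans ?_
  refine mul_le_mul_of_nonneg_left ?_ hA.le
  refine Real.rpow_le_rpow_of_exponent_le ?_ (by linarith)
  exact_mod_cast ht_pos hx

theorem ae_one {ℓ : ℕ} (F : Fin ℓ → MvPolynomial (Fin 4) ℤ) (a b : Fin ℓ → ℕ)
    (hbi : ∀ j, Bi (F j) (a j) (b j)) (hirr : ∀ j, Irreducible (toQ (F j)))
    (hdist : ∀ i j, i ≠ j → ¬ Associated (toQ (F i)) (toQ (F j))) (S : Finset ℕ)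
    (Λ : ℝ) (hΛ : 0 < Λ) (κ₁ κ₂ : ℝ)
    (hκ : ∀ s : ℝ, 0 ≤ s → s ≤ Λ → ((∑ j, (a j : ℝ)) - κ₁) + ((∑ j, (b j : ℝ)) - κ₂) * s ≤
      ∑ j, gain (a j) (b j) s) :
    ∃ Z : Set (ℤ × ℤ), Z.Finite ∧ ∀ ε : ℝ, 0 < ε → ∃ δ : ℝ, 0 < δ ∧ ∀ A : ℝ, 0 < A → ∀ᵐ P : ℝ × ℝ,
      {q : (ℤ × ℤ) × (ℤ × ℤ) | IsCoprime q.1.1 q.1.2 ∧ IsCoprime q.2.1 q.2.2 ∧
        q.2 ∉ Z ∧ (ht q.2 : ℝ) ≤ (ht q.1 : ℝ) ^ Λ ∧
        Viol F S ((∑ j, (a j : ℝ)) - κ₁ - ε) ((∑ j, (b j : ℝ)) - κ₂ - ε) q.1 q.2 ∧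
        near A δ P.1 q.1 ∧ near A δ P.2 q.2}.Finite := by
  obtain ⟨Z, hZ, h⟩ := main_fib F a b hbi hirr hdist S Λ hΛ κ₁ κ₂ hκ
  refine ⟨Z, hZ, fun ε hε => ?_⟩
  obtain ⟨c, hc, C, hC, h⟩ := h ε hε
  have h1Λ : 0 < 2 * (1 + Λ) := by linarith
  refine ⟨min 2 (c / (2 * (1 + Λ))), lt_min (by norm_num) (by positivity), fun A hA => ?_⟩
  refine borel (Y := fun y => y ∉ Z) hΛ hc hC (fun B hB y hy hyZ hyB => ?_)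
    (lt_min (by norm_num) (by positivity)) (min_le_left _ _) ?_ hA
  · exact h B hB y ⟨hy, hyZ⟩ hyB
  · calc min 2 (c / (2 * (1 + Λ))) * (2 * (1 + Λ)) ≤ c / (2 * (1 + Λ)) * (2 * (1 + Λ)) :=
        mul_le_mul_of_nonneg_right (min_le_right _ _) h1Λ.le
      _ = c := div_mul_cancel₀ c h1Λ.ne'

theorem main_ae {ℓ : ℕ} (F : Fin ℓ → MvPolynomial (Fin 4) ℤ) (a b : Fin ℓ → ℕ)
    (hbi : ∀ j, Bi (F j) (a j) (b j)) (hirr : ∀ j, Irreducible (toQ (F j)))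
    (hdist : ∀ i j, i ≠ j → ¬ Associated (toQ (F i)) (toQ (F j))) (S : Finset ℕ)
    (Λ : ℝ) (hΛ : 0 < Λ) (κ₁ κ₂ : ℝ)
    (hκ : ∀ s : ℝ, 0 ≤ s → s ≤ Λ → ((∑ j, (a j : ℝ)) - κ₁) + ((∑ j, (b j : ℝ)) - κ₂) * s ≤
      ∑ j, gain (a j) (b j) s)
    (hκ' : ∀ s : ℝ, 0 ≤ s → s ≤ 1 / Λ → ((∑ j, (a j : ℝ)) - κ₁) * s + ((∑ j, (b j : ℝ)) - κ₂) ≤
      ∑ j, gain (b j) (a j) s) :
    ∃ Z₁ Z₂ : Set (ℤ × ℤ), Z₁.Finite ∧ Z₂.Finite ∧ ∃ δ : ℝ → ℝ, (∀ ε, 0 < ε → 0 < δ ε) ∧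
      ∀ᵐ P : ℝ × ℝ, ∀ ε A : ℝ, 0 < ε →
      {q : (ℤ × ℤ) × (ℤ × ℤ) | IsCoprime q.1.1 q.1.2 ∧ IsCoprime q.2.1 q.2.2 ∧
        q.1 ∉ Z₁ ∧ q.2 ∉ Z₂ ∧
        Viol F S ((∑ j, (a j : ℝ)) - κ₁ - ε) ((∑ j, (b j : ℝ)) - κ₂ - ε) q.1 q.2 ∧
        near A (δ ε) P.1 q.1 ∧ near A (δ ε) P.2 q.2}.Finite := by
  obtain ⟨Z₂, hZ₂, h2⟩ := ae_one F a b hbi hirr hdist S Λ hΛ κ₁ κ₂ hκ
  obtain ⟨Z₁, hZ₁, h1⟩ := ae_one (fun j => swp (F j)) b a (fun j => swp_bi (hbi j))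
    (fun j => swp_irr (hirr j)) (fun i j hij => swp_assoc (hdist i j hij)) S (1 / Λ)
    (by positivity) κ₂ κ₁ (fun s hs hs' => by
      have := hκ' s hs hs'
      linarith)
  refine ⟨Z₁, Z₂, hZ₁, hZ₂, ?_⟩
  -- one `ε`
  have key : ∀ ε : ℝ, 0 < ε → ∃ δ : ℝ, 0 < δ ∧ ∀ A : ℝ, 0 < A → ∀ᵐ P : ℝ × ℝ,
      {q : (ℤ × ℤ) × (ℤ × ℤ) | IsCoprime q.1.1 q.1.2 ∧ IsCoprime q.2.1 q.2.2 ∧
        q.1 ∉ Z₁ ∧ q.2 ∉ Z₂ ∧
        Viol F S ((∑ j, (a j : ℝ)) - κ₁ - ε) ((∑ j, (b j : ℝ)) - κ₂ - ε) q.1 q.2 ∧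
        near A δ P.1 q.1 ∧ near A δ P.2 q.2}.Finite := by
    intro ε hε
    obtain ⟨δ₂, hδ₂, g2⟩ := h2 ε hε
    obtain ⟨δ₁, hδ₁, g1⟩ := h1 ε hε
    refine ⟨min δ₁ δ₂, lt_min hδ₁ hδ₂, fun A hA => ?_⟩
    have g1 := g1 A hA
    have g2 := g2 A hA
    have hsw : Measure.map (Prod.swap : ℝ × ℝ → ℝ × ℝ) (volume : Measure (ℝ × ℝ)) = volume := by
      rw [Measure.volume_eq_prod]
      exact (Measure.measurePreserving_swap).map_eq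
    have g1' := (Measure.measurePreserving_swap (μ := (volume : Measure ℝ))
      (ν := (volume : Measure ℝ))).quasiMeasurePreserving.ae g1
    filter_upwards [g2, g1'] with P hP2 hP1
    have hP1' := hP1.image (Prod.swap : (ℤ × ℤ) × (ℤ × ℤ) → (ℤ × ℤ) × (ℤ × ℤ))
    refine (hP2.union hP1').subset ?_
    rintro q ⟨e1, e2, e3, e4, e5, e6, e7⟩
    by_cases hq : (ht q.2 : ℝ) ≤ (ht q.1 : ℝ) ^ Λ
    · exact Or.inl ⟨e1, e2, e4, hq, e5, near_mono hA le_rfl (min_le_right _ _) e1 e6,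
        near_mono hA le_rfl (min_le_right _ _) e2 e7⟩
    · refine Or.inr ⟨q.swap, ⟨e2, e1, e3, ?_, ?_, near_mono hA le_rfl (min_le_left _ _) e2 e7,
        near_mono hA le_rfl (min_le_left _ _) e1 e6⟩, Prod.swap_swap q⟩
      · have hx1 : (1 : ℝ) ≤ ht q.1 := by exact_mod_cast ht_pos e1
        push Not at hq
        have h3 : ((ht q.1 : ℝ) ^ Λ) ^ (1 / Λ) ≤ (ht q.2 : ℝ) ^ (1 / Λ) :=
          Real.rpow_le_rpow (by positivity) hq.le (by positivity)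
        rw [← Real.rpow_mul (by linarith), mul_one_div_cancel hΛ.ne', Real.rpow_one] at h3
        exact h3
      · unfold Viol at e5 ⊢
        simp only [Prod.fst_swap, Prod.snd_swap, swp_val]
        rcases e5 with h5 | h5
        · exact Or.inl h5
        · refine Or.inr ?_
          linarith
  choose! δ hδ hae using key
  refine ⟨fun ε => δ (1 / ((⌈1 / ε⌉₊ : ℝ) + 1)), fun ε hε => hδ _ (by positivity), ?_⟩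
  have hall : ∀ᵐ P : ℝ × ℝ, ∀ n m : ℕ,
      {q : (ℤ × ℤ) × (ℤ × ℤ) | IsCoprime q.1.1 q.1.2 ∧ IsCoprime q.2.1 q.2.2 ∧
        q.1 ∉ Z₁ ∧ q.2 ∉ Z₂ ∧
        Viol F S ((∑ j, (a j : ℝ)) - κ₁ - 1 / ((n : ℝ) + 1))
          ((∑ j, (b j : ℝ)) - κ₂ - 1 / ((n : ℝ) + 1)) q.1 q.2 ∧
        near ((m : ℝ) + 1) (δ (1 / ((n : ℝ) + 1))) P.1 q.1 ∧
        near ((m : ℝ) + 1) (δ (1 / ((n : ℝ) + 1))) P.2 q.2}.Finite :=
    ae_all_iff.2 fun n => ae_all_iff.2 fun m => hae _ (by positivity) _ (by positivity)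
  filter_upwards [hall] with P hP ε A hε
  refine (hP ⌈1 / ε⌉₊ ⌈A⌉₊).subset ?_
  rintro q ⟨e1, e2, e3, e4, e5, e6, e7⟩
  have hA1 : A ≤ (⌈A⌉₊ : ℝ) + 1 := (Nat.le_ceil A).trans (by linarith)
  refine ⟨e1, e2, e3, e4, ?_, near_mono (by positivity) hA1 le_rfl e1 e6,
    near_mono (by positivity) hA1 le_rfl e2 e7⟩
  have hle : 1 / ((⌈1 / ε⌉₊ : ℝ) + 1) ≤ ε := by
    rw [div_le_iff₀ (by positivity)]
    have h1 : 1 / ε ≤ ⌈1 / ε⌉₊ := Nat.le_ceil _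
    have h2 : ε * (1 / ε) ≤ ε * ⌈1 / ε⌉₊ := mul_le_mul_of_nonneg_left h1 hε.le
    rw [mul_one_div_cancel hε.ne'] at h2
    nlinarith
  rcases e5 with h5 | h5
  · exact Or.inl h5
  · refine Or.inr (h5.trans_le ?_)
    have hx := nonneg_of_htlog e1
    have hy := nonneg_of_htlog e2
    nlinarith

end Pool.Agent.Helper19K9.Fb
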