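import Pool.Agent.Helper19K9.Fb.Elim
import Pool.Agent.Helper19K9.Sq.Rd

/-!
Elimination in the charts of the second line; the prime divisors of two values.
-/

set_option autoImplicit false
set_option linter.all false
set_option maxHeartbeats 4000000

namespace Pool.Agent.Helper19K9.Fb

open MvPolynomial Pool.Agent.TH910.Voj Pool.Agent.Helper19K9.Sq

lemma scale4 {k : Type*} [CommRing k] {F : MvPolynomial (Fin 4) ℤ} {a b : ℕ} (h : Bi F a b)
    (c d u v y z : k) :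
    aeval ![c * u, c * v, d * y, d * z] F = c ^ a * d ^ b * aeval ![u, v, y, z] F := by
  rw [aeval_def, aeval_def, eval₂_eq', eval₂_eq', Finset.mul_sum]
  refine Finset.sum_congr rfl fun e he => ?_
  obtain ⟨h1, h2⟩ := h.exps (mem_support_iff.mp he)
  simp only [Fin.prod_univ_four, Matrix.cons_val_zero, Matrix.cons_val_one,
    Matrix.cons_val]
  rw [← h1, ← h2]
  ring

theorem chart_elim {F G : MvPolynomial (Fin 4) ℤ} {a b a' b' : ℕ} (hF : Bi F a b)
    (hG : Bi G a' b') (hirr : Irreducible (toQ F)) (h0 : pderiv 0 F ≠ 0)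
    (hnd : ¬ toQ F ∣ toQ G) :
    ∃ ρ : Polynomial ℤ, ρ ≠ 0 ∧ ∀ (k : Type) [Field k] (x t : k),
      aeval ![x, 1, 1, t] F = 0 → aeval ![x, 1, 1, t] G = 0 → Polynomial.aeval t ρ = 0 := by
  obtain ⟨r, U, V, hr, hrUV⟩ := elim0 F G hirr h0 hnd
  have h1 : (X 0 * X 1 * r : MvPolynomial (Fin 3) ℤ) ≠ 0 :=
    mul_ne_zero (mul_ne_zero (X_ne_zero _) (X_ne_zero _)) hr
  obtain ⟨z, hz⟩ : ∃ z : Fin 3 → ℤ, eval z (X 0 * X 1 * r : MvPolynomial (Fin 3) ℤ) ≠ 0 := by
    by_contra hcon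
    push Not at hcon
    apply h1
    refine MvPolynomial.funext fun z => ?_
    rw [hcon z, map_zero]
  rw [map_mul, map_mul, eval_X, eval_X] at hz
  have hz0 : z 0 ≠ 0 := left_ne_zero_of_mul (left_ne_zero_of_mul hz)
  have hz1 : z 1 ≠ 0 := right_ne_zero_of_mul (left_ne_zero_of_mul hz)
  have hzr : eval z r ≠ 0 := right_ne_zero_of_mul hz
  set ρ : Polynomial ℤ := aeval (![Polynomial.C (z 0), Polynomial.C (z 1),
    Polynomial.C (z 1) * Polynomial.X] : Fin 3 → Polynomial ℤ) r with hρ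
  have hρt : ∀ (k : Type) [Field k] (t : k), Polynomial.aeval t ρ =
      aeval (![(z 0 : k), (z 1 : k), (z 1 : k) * t] : Fin 3 → k) r := by
    intro k _ t
    rw [hρ]
    have h2 : ((Polynomial.aeval t : Polynomial ℤ →ₐ[ℤ] k).comp
        (aeval (![Polynomial.C (z 0), Polynomial.C (z 1),
          Polynomial.C (z 1) * Polynomial.X] : Fin 3 → Polynomial ℤ))) =
        aeval (![(z 0 : k), (z 1 : k), (z 1 : k) * t] : Fin 3 → k) := by
      refine MvPolynomial.algHom_ext fun i => ?_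
      fin_cases i <;> simp
    exact DFunLike.congr_fun h2 r
  refine ⟨ρ, ?_, ?_⟩
  · intro h0'
    have h2 := hρt ℚ ((z 2 : ℚ) / z 1)
    rw [h0', map_zero] at h2
    have hz1' : (z 1 : ℚ) ≠ 0 := by exact_mod_cast hz1
    rw [mul_div_cancel₀ _ hz1'] at h2
    have h3 : (![(z 0 : ℚ), (z 1 : ℚ), (z 2 : ℚ)] : Fin 3 → ℚ) = fun i => ((z i : ℤ) : ℚ) := by
      funext i
      fin_cases i <;> rfl
    rw [h3] at h2
    have h4 : aeval (fun i => ((z i : ℤ) : ℚ)) r = ((eval z r : ℤ) : ℚ) := by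
      have := MvPolynomial.aeval_algebraMap_apply (R := ℤ) (A := ℤ) (B := ℚ) z r
      have h5 : (fun i => ((z i : ℤ) : ℚ)) = (algebraMap ℤ ℚ ∘ z) := rfl
      rw [h5, this]
      rfl
    rw [h4] at h2
    exact hzr (by exact_mod_cast h2.symm)
  · intro k _ x t hFx hGx
    rw [hρt]
    have h2 : aeval ![(z 0 : k) * x, (z 0 : k) * 1, (z 1 : k) * 1, (z 1 : k) * t]
        (rename Fin.succ r : MvPolynomial (Fin 4) ℤ) = 0 := by
      rw [hrUV, map_add, map_mul, map_mul, scale4 hF, scale4 hG, hFx, hGx]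
      ring
    rw [aeval_rename] at h2
    rw [← h2]
    congr 1
    congr 1
    funext i
    fin_cases i
    · show (z 0 : k) = (z 0 : k) * 1
      rw [mul_one]
    · show (z 1 : k) = (z 1 : k) * 1
      rw [mul_one]
    · rfl

/-! ### homogenised values -/

/-- the value of the homogenisation of `ρ (y₁ / y₀)` -/
noncomputable def hz (ρ : Polynomial ℤ) (y : ℤ × ℤ) : ℤ :=
  MvPolynomial.eval ![y.2, y.1] (ρ.homogenize ρ.natDegree)

lemma hz_cast {k : Type} [Field k] (ρ : Polynomial ℤ) (y : ℤ × ℤ) (hy : ((y.1 : ℤ) : k) ≠ 0) :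
    ((hz ρ y : ℤ) : k) = Polynomial.aeval (((y.2 : ℤ) : k) / ((y.1 : ℤ) : k)) ρ *
      ((y.1 : ℤ) : k) ^ ρ.natDegree := by
  unfold hz
  have h1 : ((MvPolynomial.eval ![y.2, y.1] (ρ.homogenize ρ.natDegree) : ℤ) : k) =
      MvPolynomial.eval ![((y.2 : ℤ) : k), ((y.1 : ℤ) : k)]
        (MvPolynomial.map (Int.castRingHom k) (ρ.homogenize ρ.natDegree)) := by
    rw [MvPolynomial.eval_map]
    have h2 := MvPolynomial.eval₂_comp_left (Int.castRingHom k) (RingHom.id ℤ) ![y.2, y.1]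
      (ρ.homogenize ρ.natDegree)
    have h3 : (⇑(Int.castRingHom k) ∘ ![y.2, y.1] : Fin 2 → k) =
        ![((y.2 : ℤ) : k), ((y.1 : ℤ) : k)] := by
      funext i
      fin_cases i <;> simp
    rw [h3] at h2
    exact h2
  rw [h1, ← Polynomial.homogenize_map, Polynomial.eval_homogenize (Polynomial.natDegree_map_le) _
    (by simpa using hy)]
  simp [Polynomial.aeval_def, Polynomial.eval_map]

lemma hz_bound (ρ : Polynomial ℤ) : ∃ C K : ℕ, ∀ y : ℤ × ℤ, IsCoprime y.1 y.2 →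
    (hz ρ y).natAbs ≤ C * ht y ^ K := by
  obtain ⟨c, hc, h⟩ := exists_eval_bound (ρ.homogenize ρ.natDegree) le_rfl
  refine ⟨c, _, fun y hy => h (ht y) (ht_pos hy) _ ?_⟩
  rw [mem_box]
  have := (ht_le (x := y) (B := ht y)).1 le_rfl
  intro i
  fin_cases i
  · exact this.2
  · exact this.1

lemma finite_ratio (q : ℚ) : {y : ℤ × ℤ | IsCoprime y.1 y.2 ∧ (y.2 : ℚ) = q * y.1}.Finite := by
  refine Set.Finite.subset (Set.toFinite {((q.den : ℤ), q.num), -((q.den : ℤ), q.num)}) ?_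
  rintro y ⟨h1, h2⟩
  have h3 : IsCoprime (q.den : ℤ) q.num := by
    rw [Int.isCoprime_iff_gcd_eq_one, Int.gcd_comm]
    simpa [Int.gcd] using q.reduced
  have h4 : y.1 * q.num = y.2 * (q.den : ℤ) := by
    have h5 : (q.den : ℚ) ≠ 0 := by exact_mod_cast q.den_nz
    have h6 : (y.2 : ℚ) * q.den = q.num * y.1 := by
      rw [h2, mul_right_comm, Rat.mul_den_eq_num]
    have h7 : y.2 * (q.den : ℤ) = q.num * y.1 := by exact_mod_cast h6
    linarith
  rcases eq_or_neg (x := y) (v := ((q.den : ℤ), q.num)) h1 h3 h4 with h | h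
  · exact Or.inl h
  · exact Or.inr h

lemma finite_fst : {y : ℤ × ℤ | IsCoprime y.1 y.2 ∧ y.1 = 0}.Finite := by
  refine Set.Finite.subset (Set.toFinite {((0 : ℤ), (1 : ℤ)), -((0 : ℤ), (1 : ℤ))}) ?_
  rintro y ⟨h1, h2⟩
  rcases eq_or_neg (x := y) (v := ((0 : ℤ), (1 : ℤ))) h1 (isCoprime_zero_left.2 isUnit_one) (by
    rw [h2]; simp) with h | h
  · exact Or.inl h
  · exact Or.inr h

lemma finite_hz (ρ : Polynomial ℤ) (hρ : ρ ≠ 0) :
    {y : ℤ × ℤ | IsCoprime y.1 y.2 ∧ hz ρ y = 0}.Finite := by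
  classical
  set R := (ρ.map (Int.castRingHom ℚ)).roots.toFinset with hR
  have hρQ : ρ.map (Int.castRingHom ℚ) ≠ 0 :=
    (Polynomial.map_ne_zero_iff Int.cast_injective).2 hρ
  refine Set.Finite.subset (finite_fst.union (R.finite_toSet.biUnion fun q _ => finite_ratio q)) ?_
  rintro y ⟨h1, h2⟩
  by_cases h0 : y.1 = 0
  · exact Or.inl ⟨h1, h0⟩
  · right
    have h0' : ((y.1 : ℤ) : ℚ) ≠ 0 := by exact_mod_cast h0
    have h3 := hz_cast (k := ℚ) ρ y h0'
    rw [h2, Int.cast_zero] at h3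
    rcases mul_eq_zero.1 h3.symm with h4 | h4
    · rw [Set.mem_iUnion₂]
      refine ⟨(y.2 : ℚ) / y.1, ?_, h1, ?_⟩
      · rw [Finset.mem_coe, hR, Multiset.mem_toFinset, Polynomial.mem_roots hρQ, Polynomial.IsRoot,
          Polynomial.eval_map]
        exact h4
      · rw [div_mul_cancel₀ _ h0']
    · exact absurd h4 (pow_ne_zero _ h0')

end Pool.Agent.Helper19K9.Fb
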