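import Pool.Agent.Helper19K9.Fb.Proj

/-!
Rare values in the fibres: large divisors with given primes, small values, powerful divisors.
-/

set_option autoImplicit false
set_option linter.all false
set_option maxHeartbeats 4000000

namespace Pool.Agent.Helper19K9.Fb

open MvPolynomial Pool.Agent.TH910.Voj Pool.Agent.Helper19K9.Sq Pool.Agent.H813R3.Voj

/-! ### integers composed of given primes -/

noncomputable def fpow (δ : ℝ) : ℕ →* ℝ where
  toFun n := (n : ℝ) ^ (-δ)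
  map_one' := by simp
  map_mul' m n := by
    rw [Nat.cast_mul, Real.mul_rpow (Nat.cast_nonneg _) (Nat.cast_nonneg _)]

theorem smooth_card {δ : ℝ} (hδ : 0 < δ) : ∃ C : ℝ, 0 < C ∧ ∀ R : ℤ, R ≠ 0 → ∀ W : ℕ, 1 ≤ W →
    ∀ T : Finset ℕ, (∀ w ∈ T, 1 ≤ w ∧ w ≤ W ∧ ∀ p : ℕ, p.Prime → p ∣ w → (p : ℤ) ∣ R) →
      (T.card : ℝ) ≤ C * (W : ℝ) ^ δ * (R.natAbs : ℝ) ^ δ := by
  classical
  set K : ℝ := (1 - (2 : ℝ) ^ (-δ))⁻¹ with hK
  have h2lt : (2 : ℝ) ^ (-δ) < 1 := two_rpow_lt hδ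
  have hK0 : 0 < K := inv_pos.mpr (by linarith)
  obtain ⟨C, hC, hω⟩ := pow_omega ⌈K⌉₊ hδ
  refine ⟨C, hC, fun R hR W hW T hT => ?_⟩
  have hf : ∀ {p : ℕ}, p.Prime → ‖fpow δ p‖ < 1 := by
    intro p hp
    show ‖(p : ℝ) ^ (-δ)‖ < 1
    rw [Real.norm_of_nonneg (by positivity)]
    exact (prime_rpow_le hδ hp).trans_lt h2lt
  set s := R.natAbs.primeFactors with hs
  obtain ⟨hS1, hS2⟩ :=
    EulerProduct.summable_and_hasSum_factoredNumbers_prod_filter_prime_geometric hf s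
  have hmem : ∀ w ∈ T, w ∈ Nat.factoredNumbers s := by
    intro w hw
    obtain ⟨h1, h2, h3⟩ := hT w hw
    rw [Nat.mem_factoredNumbers']
    intro p hp hpw
    rw [hs, Nat.mem_primeFactors]
    exact ⟨hp, Int.natCast_dvd.1 (h3 p hp hpw), Int.natAbs_ne_zero.2 hR⟩
  have h1 : ∑ w ∈ T, fpow δ w ≤ ∑' m : Nat.factoredNumbers s, fpow δ m := by
    have h2 : ∑ w ∈ T, fpow δ w = ∑ m ∈ T.subtype (· ∈ Nat.factoredNumbers s), fpow δ (m : ℕ) := by
      rw [Finset.sum_subtype_of_mem]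
      exact hmem
    rw [h2]
    refine hS1.of_norm.sum_le_tsum _ (fun m _ => ?_)
    show (0 : ℝ) ≤ ((m : ℕ) : ℝ) ^ (-δ)
    positivity
  rw [hS2.tsum_eq] at h1
  have h2 : ∏ p ∈ s with p.Prime, (1 - fpow δ p)⁻¹ ≤ (⌈K⌉₊ : ℝ) ^ s.card := by
    have h3 : ∏ p ∈ s with p.Prime, (1 - fpow δ p)⁻¹ ≤ ∏ p ∈ s with p.Prime, (⌈K⌉₊ : ℝ) := by
      refine Finset.prod_le_prod (fun p hp => ?_) fun p hp => ?_
      · have hp' := (Finset.mem_filter.1 hp).2
        have h4 : (p : ℝ) ^ (-δ) ≤ (2 : ℝ) ^ (-δ) := prime_rpow_le hδ hp'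
        have : 0 < 1 - fpow δ p := by
          show 0 < 1 - (p : ℝ) ^ (-δ)
          linarith
        positivity
      · have hp' := (Finset.mem_filter.1 hp).2
        have h4 : (p : ℝ) ^ (-δ) ≤ (2 : ℝ) ^ (-δ) := prime_rpow_le hδ hp'
        refine le_trans ?_ (Nat.le_ceil K)
        rw [hK]
        refine inv_anti₀ (by linarith) ?_
        show 1 - (2 : ℝ) ^ (-δ) ≤ 1 - (p : ℝ) ^ (-δ)
        linarith
    refine h3.trans (le_of_eq ?_)
    rw [Finset.prod_const, Finset.filter_true_of_mem]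
    intro p hp
    exact Nat.prime_of_mem_primeFactors hp
  have h3 : (T.card : ℝ) * (W : ℝ) ^ (-δ) ≤ ∑ w ∈ T, fpow δ w := by
    rw [← nsmul_eq_mul, ← Finset.sum_const]
    refine Finset.sum_le_sum fun w hw => ?_
    obtain ⟨h1, h2, -⟩ := hT w hw
    show (W : ℝ) ^ (-δ) ≤ (w : ℝ) ^ (-δ)
    exact Real.rpow_le_rpow_of_nonpos (by exact_mod_cast h1) (by exact_mod_cast h2) (by linarith)
  have h4 := hω R.natAbs (Int.natAbs_pos.2 hR)
  rw [← hs] at h4
  push_cast at h4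
  have h5 : (T.card : ℝ) * (W : ℝ) ^ (-δ) ≤ C * (R.natAbs : ℝ) ^ δ :=
    h3.trans (h1.trans (h2.trans h4))
  have hW0 : (0 : ℝ) < W := by exact_mod_cast hW
  have h6 : (W : ℝ) ^ (-δ) * (W : ℝ) ^ δ = 1 := by
    rw [← Real.rpow_add hW0]; simp
  calc (T.card : ℝ) = (T.card : ℝ) * (W : ℝ) ^ (-δ) * (W : ℝ) ^ δ := by
        rw [mul_assoc, h6, mul_one]
    _ ≤ (C * (R.natAbs : ℝ) ^ δ) * (W : ℝ) ^ δ := mul_le_mul_of_nonneg_right h5 (by positivity)
    _ = _ := by ring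

/-! ### the value as a binary form -/

lemma val_form {F : MvPolynomial (Fin 4) ℤ} {a b : ℕ} (hF : Bi F a b) (x y : ℤ × ℤ) :
    val F x y = bf a (fun i => (fy F y.1 y.2).coeff i) x := by
  classical
  have h2 : fy F y.1 y.2 = ∑ d ∈ F.support, fy (monomial d (coeff d F)) y.1 y.2 := by
    conv_lhs => rw [F.as_sum]
    unfold fy
    rw [map_sum]
  unfold bf val
  rw [eval_eq']
  simp only [h2, Polynomial.finsetSum_coeff, Finset.sum_mul]
  rw [Finset.sum_comm]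
  refine Finset.sum_congr rfl fun d hd => ?_
  obtain ⟨k1, k2⟩ := hF.exps (mem_support_iff.1 hd)
  rw [Finset.sum_eq_single_of_mem (d 0) (by rw [Finset.mem_range]; omega)]
  · rw [fy_monomial, Polynomial.coeff_C_mul, Polynomial.coeff_X_pow, if_pos rfl, mul_one]
    simp only [Fin.prod_univ_four, Matrix.cons_val_zero, Matrix.cons_val_one, Matrix.cons_val]
    rw [show a - d 0 = d 1 by omega]
    ring
  · intro i _ hi
    rw [fy_monomial, Polynomial.coeff_C_mul, Polynomial.coeff_X_pow, if_neg hi, mul_zero, zero_mul]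

lemma val_le {F : MvPolynomial (Fin 4) ℤ} {a b : ℕ} (hF : Bi F a b) :
    ∃ c : ℕ, 1 ≤ c ∧ ∀ x y : ℤ × ℤ, (val F x y).natAbs ≤ c * ht x ^ a * ht y ^ b := by
  classical
  refine ⟨∑ d ∈ F.support, (coeff d F).natAbs + 1, by omega, fun x y => ?_⟩
  unfold val
  rw [eval_eq']
  refine (Int.natAbs_sum_le _ _).trans ?_
  rw [add_mul, add_mul, Finset.sum_mul, Finset.sum_mul]
  refine (Finset.sum_le_sum fun d hd => ?_).trans (Nat.le_add_right _ _)
  obtain ⟨k1, k2⟩ := hF.exps (mem_support_iff.1 hd)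
  simp only [Fin.prod_univ_four, Matrix.cons_val_zero, Matrix.cons_val_one, Matrix.cons_val]
  rw [Int.natAbs_mul, mul_assoc (coeff d F).natAbs]
  refine Nat.mul_le_mul_left _ ?_
  rw [Int.natAbs_mul, Int.natAbs_mul, Int.natAbs_mul, Int.natAbs_pow, Int.natAbs_pow,
    Int.natAbs_pow, Int.natAbs_pow, ← k1, ← k2, pow_add, pow_add, mul_assoc (_ * _)]
  exact Nat.mul_le_mul (Nat.mul_le_mul (Nat.pow_le_pow_left (le_max_left _ _) _)
    (Nat.pow_le_pow_left (le_max_right _ _) _)) (Nat.mul_le_mul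
    (Nat.pow_le_pow_left (le_max_left _ _) _) (Nat.pow_le_pow_left (le_max_right _ _) _))

lemma fset_card_le (B : ℕ) (P : ℤ × ℤ → Prop) (T : Finset ℕ) (X : ℕ → Finset (ℤ × ℤ))
    (h : ∀ x, ht x ≤ B → IsCoprime x.1 x.2 → P x → ∃ s ∈ T, x ∈ X s) :
    ((fset B P).ncard : ℝ) ≤ ∑ s ∈ T, ((X s).card : ℝ) := by
  classical
  have hsub : fset B P ⊆ ((T.biUnion X : Finset (ℤ × ℤ)) : Set (ℤ × ℤ)) := by
    rintro x ⟨h1, h2, h3⟩
    rw [Finset.mem_coe, Finset.mem_biUnion]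
    exact h x h1 h2 h3
  have h2 := Set.ncard_le_ncard hsub (Finset.finite_toSet _)
  rw [Set.ncard_coe_finset] at h2
  exact_mod_cast h2.trans Finset.card_biUnion_le

/-- **Values with a large divisor composed of given primes.** -/
theorem FS_part {F : MvPolynomial (Fin 4) ℤ} {a b : ℕ} (hF : Bi F a b)
    (hirr : Irreducible (toQ F)) (h0 : pderiv 0 F ≠ 0) (R : ℤ × ℤ → ℤ) (hR : IsRes R) (Λ : ℝ)
    (hΛ : 0 ≤ Λ) {η : ℝ} (hη : 0 < η) (hη1 : η ≤ 1) :
    FS (fun y => IsCoprime y.1 y.2 ∧ R y ≠ 0) Λ (fun B y x => val F x y ≠ 0 ∧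
      ∃ w : ℕ, (w : ℤ) ∣ val F x y ∧ (∀ p : ℕ, p.Prime → p ∣ w → (p : ℤ) ∣ R y) ∧
        (B : ℝ) ^ η < w) := by
  classical
  obtain ⟨N, hN, hcon⟩ := content hF hirr h0
  obtain ⟨cF, hcF1, hcF⟩ := val_le hF
  obtain ⟨-, CR, KR, hCR⟩ := hR
  set E : ℕ := (a + 1) * (a + 1) with hE
  have hE1 : (1 : ℝ) ≤ E := by
    have : 1 ≤ E := by rw [hE]; nlinarith
    exact_mod_cast this
  have hE0 : (0 : ℝ) < E := by linarith
  set e : ℝ := η / (2 * E) with he
  have he0 : 0 < e := by positivity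
  have he1 : e ≤ 1 := by
    rw [he, div_le_one (by positivity)]
    linarith
  set Q : ℝ := a + Λ * b + Λ * KR + 1 with hQ
  have hQ0 : 0 < Q := by rw [hQ]; positivity
  set δ : ℝ := e / (2 * Q) with hδ
  have hδ0 : 0 < δ := by positivity
  obtain ⟨C₁, hC₁, hsm⟩ := smooth_card hδ0
  set B₀ : ℕ := ⌈((N.natAbs : ℝ) + 1) ^ (2 / η)⌉₊ with hB₀
  have main : FS (fun y => IsCoprime y.1 y.2 ∧ R y ≠ 0) Λ (fun B y x => B₀ ≤ B ∧ val F x y ≠ 0 ∧
      ∃ w : ℕ, (w : ℤ) ∣ val F x y ∧ (∀ p : ℕ, p.Prime → p ∣ w → (p : ℤ) ∣ R y) ∧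
        (B : ℝ) ^ η < w) := by
    refine ⟨e / 2, by positivity, (C₁ * (cF : ℝ) ^ δ * (CR : ℝ) ^ δ) * (24 * a) + 1, by positivity,
      fun B hB y hy hyB => ?_⟩
    have hB1 : (1 : ℝ) ≤ B := by exact_mod_cast hB
    have hBpos : (0 : ℝ) < B := by linarith
    by_cases hBB : B₀ ≤ B
    swap
    · have : fset B (fun x => B₀ ≤ B ∧ val F x y ≠ 0 ∧
          ∃ w : ℕ, (w : ℤ) ∣ val F x y ∧ (∀ p : ℕ, p.Prime → p ∣ w → (p : ℤ) ∣ R y) ∧
            (B : ℝ) ^ η < w) = ∅ := by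
        ext x
        simp only [fset, Set.mem_ofPred_eq, Set.mem_empty_iff_false, iff_false]
        rintro ⟨-, -, h, -⟩
        exact hBB h
      rw [this, Set.ncard_empty, Nat.cast_zero]
      positivity
    have hNB : (N.natAbs : ℝ) < (B : ℝ) ^ (η / 2) := by
      have h1 : ((N.natAbs : ℝ) + 1) ^ (2 / η) ≤ B := Nat.ceil_le.1 hBB
      have h2 : (((N.natAbs : ℝ) + 1) ^ (2 / η)) ^ (η / 2) ≤ (B : ℝ) ^ (η / 2) :=
        Real.rpow_le_rpow (by positivity) h1 (by positivity)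
      rw [← Real.rpow_mul (by positivity), show 2 / η * (η / 2) = 1 by field_simp,
        Real.rpow_one] at h2
      linarith
    have hty : 1 ≤ ht y := ht_pos hy.1
    have htyR : (1 : ℝ) ≤ ht y := by exact_mod_cast hty
    set W : ℕ := cF * B ^ a * ht y ^ b with hW
    have hW1 : 1 ≤ W := Nat.mul_pos (Nat.mul_pos hcF1 (pow_pos hB _)) (pow_pos hty _)
    set T := (Finset.Icc 1 W).filter fun w : ℕ => (B : ℝ) ^ η < w ∧
      ∀ p : ℕ, p.Prime → p ∣ w → (p : ℤ) ∣ R y with hT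
    let X : ℕ → Finset (ℤ × ℤ) := fun w => (bx B).filter fun x =>
      IsCoprime x.1 x.2 ∧ (w : ℤ) ∣ val F x y
    have h1 := fset_card_le B (fun x => B₀ ≤ B ∧ val F x y ≠ 0 ∧
      ∃ w : ℕ, (w : ℤ) ∣ val F x y ∧ (∀ p : ℕ, p.Prime → p ∣ w → (p : ℤ) ∣ R y) ∧
        (B : ℝ) ^ η < w) T X (by
      rintro x hx hco ⟨-, hv0, w, hw1, hw2, hw3⟩
      have hw0 : w ≠ 0 := by
        rintro rfl
        rw [Nat.cast_zero, zero_dvd_iff] at hw1
        exact hv0 hw1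
      refine ⟨w, ?_, ?_⟩
      · rw [hT, Finset.mem_filter, Finset.mem_Icc]
        refine ⟨⟨Nat.pos_of_ne_zero hw0, ?_⟩, hw3, hw2⟩
        have h2 : w ≤ (val F x y).natAbs :=
          Nat.le_of_dvd (Int.natAbs_pos.2 hv0) (Int.natCast_dvd.1 hw1)
        refine h2.trans ((hcF x y).trans ?_)
        rw [hW]
        exact Nat.mul_le_mul_right _ (Nat.mul_le_mul_left _ (Nat.pow_le_pow_left hx _))
      · rw [Finset.mem_filter, mem_bx]
        exact ⟨hx, hco, hw1⟩)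
    refine h1.trans ?_
    -- the number of `w`
    have h2 : (T.card : ℝ) ≤ C₁ * (cF : ℝ) ^ δ * (CR : ℝ) ^ δ * (B : ℝ) ^ (e / 2) := by
      have h3 := hsm (R y) hy.2 W hW1 T (by
        intro w hw
        rw [hT, Finset.mem_filter, Finset.mem_Icc] at hw
        exact ⟨hw.1.1, hw.1.2, hw.2.2⟩)
      refine h3.trans ?_
      have hyb : ∀ k : ℕ, (ht y : ℝ) ^ k ≤ (B : ℝ) ^ (Λ * k) := by
        intro k
        rw [Real.rpow_mul hBpos.le, Real.rpow_natCast]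
        exact pow_le_pow_left₀ (by positivity) hyB _
      have h4 : (W : ℝ) ^ δ ≤ (cF : ℝ) ^ δ * (B : ℝ) ^ ((a + Λ * b) * δ) := by
        rw [Real.rpow_mul hBpos.le, ← Real.mul_rpow (by positivity) (by positivity)]
        refine Real.rpow_le_rpow (Nat.cast_nonneg _) ?_ hδ0.le
        rw [hW]
        push_cast
        rw [mul_assoc]
        refine mul_le_mul_of_nonneg_left ?_ (by positivity)
        rw [Real.rpow_add hBpos, Real.rpow_natCast]
        exact mul_le_mul_of_nonneg_left (hyb b) (by positivity)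
      have h5 : ((R y).natAbs : ℝ) ^ δ ≤ (CR : ℝ) ^ δ * (B : ℝ) ^ ((Λ * KR) * δ) := by
        rw [Real.rpow_mul hBpos.le, ← Real.mul_rpow (by positivity) (by positivity)]
        refine Real.rpow_le_rpow (Nat.cast_nonneg _) ?_ hδ0.le
        have h6 : ((R y).natAbs : ℝ) ≤ CR * (ht y : ℝ) ^ KR := by exact_mod_cast hCR y hy.1
        exact h6.trans (mul_le_mul_of_nonneg_left (hyb KR) (by positivity))
      calc C₁ * (W : ℝ) ^ δ * ((R y).natAbs : ℝ) ^ δ ≤
            C₁ * ((cF : ℝ) ^ δ * (B : ℝ) ^ ((a + Λ * b) * δ)) *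
              ((CR : ℝ) ^ δ * (B : ℝ) ^ ((Λ * KR) * δ)) :=
            mul_le_mul (mul_le_mul_of_nonneg_left h4 hC₁.le) h5 (by positivity) (by positivity)
        _ = C₁ * (cF : ℝ) ^ δ * (CR : ℝ) ^ δ * ((B : ℝ) ^ ((a + Λ * b) * δ) *
              (B : ℝ) ^ ((Λ * KR) * δ)) := by ring
        _ ≤ _ := by
            refine mul_le_mul_of_nonneg_left ?_ (by positivity)
            rw [← Real.rpow_add hBpos]
            refine Real.rpow_le_rpow_of_exponent_le hB1 ?_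
            have h7 : (a + Λ * b) * δ + (Λ * KR) * δ ≤ Q * δ := by
              rw [hQ]; nlinarith
            refine h7.trans (le_of_eq ?_)
            rw [hδ]
            field_simp
    -- the points for each `w`
    set l : ℕ := ⌊(B : ℝ) ^ e⌋₊ with hl
    obtain ⟨q1, q2, q3⟩ := rpow_floor hB1 he0.le
    have hl0 : (0 : ℝ) < l := by exact_mod_cast q1
    have h3 : ∀ w ∈ T, ((X w).card : ℝ) ≤ 24 * a * (B : ℝ) ^ (2 - e) := by
      intro w hw
      rw [hT, Finset.mem_filter, Finset.mem_Icc] at hw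
      obtain ⟨u, hu⟩ := hcon y hy.1
      have hlt : N.natAbs * l ^ E < w := by
        have h4 : ((N.natAbs * l ^ E : ℕ) : ℝ) < w := by
          refine lt_of_le_of_lt ?_ hw.2.1
          push_cast
          have h5 : (l : ℝ) ^ E ≤ (B : ℝ) ^ (η / 2) := by
            calc (l : ℝ) ^ E ≤ ((B : ℝ) ^ e) ^ E := pow_le_pow_left₀ hl0.le q2 _
              _ = (B : ℝ) ^ (η / 2) := by
                  rw [← Real.rpow_natCast, ← Real.rpow_mul hBpos.le, he]
                  congr 1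
                  field_simp
          calc ((N.natAbs : ℝ)) * (l : ℝ) ^ E ≤ (B : ℝ) ^ (η / 2) * (B : ℝ) ^ (η / 2) :=
                mul_le_mul hNB.le h5 (by positivity) (by positivity)
            _ = (B : ℝ) ^ η := by rw [← Real.rpow_add hBpos]; congr 1; ring
        exact_mod_cast h4
      have h6 := proj_card a (fun i => (fy F y.1 y.2).coeff i) u N hN hu w l q1 hlt B hB (X w) (by
        intro x hx
        rw [Finset.mem_filter, mem_bx] at hx
        refine ⟨hx.1, hx.2.1, ?_⟩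
        rw [← val_form hF]
        exact hx.2.2)
      refine h6.trans ?_
      have h7 : (B : ℝ) ^ 2 / l ≤ 2 * (B : ℝ) ^ (2 - e) := by
        rw [div_le_iff₀ hl0]
        have h8 : (B : ℝ) ^ 2 = (B : ℝ) ^ (2 - e) * (B : ℝ) ^ e := by
          rw [← Real.rpow_add hBpos, ← Real.rpow_natCast]
          congr 1
          push_cast
          ring
        rw [h8]
        have h9 : 0 ≤ (B : ℝ) ^ (2 - e) := by positivity
        nlinarith
      have h8 : (1 : ℝ) ≤ (B : ℝ) ^ (2 - e) := Real.one_le_rpow hB1 (by linarith)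
      have h9 : (0 : ℝ) ≤ 8 * a := by positivity
      calc 8 * (a : ℝ) * ((B : ℝ) ^ 2 / l + 1) ≤ 8 * a * (3 * (B : ℝ) ^ (2 - e)) :=
            mul_le_mul_of_nonneg_left (by linarith) h9
        _ = _ := by ring
    calc ∑ w ∈ T, ((X w).card : ℝ) ≤ ∑ w ∈ T, 24 * (a : ℝ) * (B : ℝ) ^ (2 - e) :=
          Finset.sum_le_sum h3
      _ = T.card * (24 * (a : ℝ) * (B : ℝ) ^ (2 - e)) := by rw [Finset.sum_const, nsmul_eq_mul]
      _ ≤ (C₁ * (cF : ℝ) ^ δ * (CR : ℝ) ^ δ * (B : ℝ) ^ (e / 2)) *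
            (24 * (a : ℝ) * (B : ℝ) ^ (2 - e)) := mul_le_mul_of_nonneg_right h2 (by positivity)
      _ = (C₁ * (cF : ℝ) ^ δ * (CR : ℝ) ^ δ) * (24 * a) *
            ((B : ℝ) ^ (e / 2) * (B : ℝ) ^ (2 - e)) := by ring
      _ = (C₁ * (cF : ℝ) ^ δ * (CR : ℝ) ^ δ) * (24 * a) * (B : ℝ) ^ ((2 : ℝ) - e / 2) := by
          rw [← Real.rpow_add hBpos]
          congr 2
          ring
      _ ≤ _ := by
          refine mul_le_mul_of_nonneg_right ?_ (by positivity)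
          linarith
  refine main.of_eventually B₀ ?_
  intro B y x hBB hB hy hyB hx hco h
  exact ⟨hBB, h⟩

end Pool.Agent.Helper19K9.Fb
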