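import Pool.Agent.Helper19K9.Fb.Prime

/-!
The content and the size of the binary form `F (·, y)`.
-/

set_option autoImplicit false
set_option linter.all false
set_option maxHeartbeats 4000000

namespace Pool.Agent.Helper19K9.Fb

open MvPolynomial Pool.Agent.TH910.Voj Pool.Agent.Helper19K9.Sq

/-- bihomogenisation -/
noncomputable def Hm (a b : ℕ) (g : Polynomial (Polynomial ℚ)) : MvPolynomial (Fin 4) ℚ :=
  ∑ i ∈ Finset.range (a + 1), X 0 ^ i * X 1 ^ (a - i) *
    rename ![3, 2] ((g.coeff i).homogenize b)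

lemma Hm_add (a b : ℕ) (g h : Polynomial (Polynomial ℚ)) : Hm a b (g + h) = Hm a b g + Hm a b h := by
  unfold Hm
  rw [← Finset.sum_add_distrib]
  refine Finset.sum_congr rfl fun i _ => ?_
  rw [Polynomial.coeff_add, Polynomial.homogenize_add, map_add, mul_add]

lemma Hm_zero (a b : ℕ) : Hm a b 0 = 0 := by
  unfold Hm
  refine Finset.sum_eq_zero fun i _ => ?_
  rw [Polynomial.coeff_zero, Polynomial.homogenize_zero, map_zero, mul_zero]

lemma Hm_sum {ι : Type*} (a b : ℕ) (s : Finset ι) (g : ι → Polynomial (Polynomial ℚ)) :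
    Hm a b (∑ i ∈ s, g i) = ∑ i ∈ s, Hm a b (g i) := by
  classical
  induction s using Finset.induction_on with
  | empty => rw [Finset.sum_empty, Finset.sum_empty, Hm_zero]
  | insert i s hi ih => rw [Finset.sum_insert hi, Finset.sum_insert hi, Hm_add, ih]

/-- the chart -/
noncomputable def ch {R : Type*} [CommRing R] (F : MvPolynomial (Fin 4) R) :
    Polynomial (Polynomial R) :=
  aeval (![Polynomial.X, 1, 1, Polynomial.C Polynomial.X] : Fin 4 → Polynomial (Polynomial R)) F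

lemma ch_monomial {R : Type*} [CommRing R] (d : Fin 4 →₀ ℕ) (c : R) :
    ch (monomial d c) = Polynomial.C (Polynomial.C c * Polynomial.X ^ d 3) *
      Polynomial.X ^ d 0 := by
  unfold ch
  rw [aeval_monomial, Finsupp.prod_fintype _ _ (fun i => pow_zero _)]
  simp only [Fin.prod_univ_four, Matrix.cons_val_zero, Matrix.cons_val_one, Matrix.cons_val,
    one_pow, mul_one]
  rw [Polynomial.C_mul, Polynomial.C_pow]
  have : (algebraMap R (Polynomial (Polynomial R))) c = Polynomial.C (Polynomial.C c) := rfl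
  rw [this]
  ring

lemma Hm_ch {F : MvPolynomial (Fin 4) ℚ} {a b : ℕ}
    (h : ∀ d, coeff d F ≠ 0 → d 0 + d 1 = a ∧ d 2 + d 3 = b) : Hm a b (ch F) = F := by
  classical
  have h1 : ch F = ∑ d ∈ F.support, ch (monomial d (coeff d F)) := by
    conv_lhs => rw [F.as_sum]
    unfold ch
    rw [map_sum]
  rw [h1, Hm_sum]
  conv_rhs => rw [F.as_sum]
  refine Finset.sum_congr rfl fun d hd => ?_
  obtain ⟨k1, k2⟩ := h d (mem_support_iff.1 hd)
  rw [ch_monomial]
  unfold Hm
  rw [Finset.sum_eq_single_of_mem (d 0) (by rw [Finset.mem_range]; omega)]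
  · rw [Polynomial.coeff_C_mul, Polynomial.coeff_X_pow, if_pos rfl, mul_one,
      Polynomial.homogenize_C_mul, Polynomial.homogenize_X_pow (by omega), map_mul, map_mul,
      map_pow, map_pow, rename_X, rename_X, rename_C]
    rw [monomial_eq, Finsupp.prod_fintype _ _ (fun i => pow_zero _)]
    simp only [Fin.prod_univ_four, Matrix.cons_val_zero, Matrix.cons_val_one]
    rw [show a - d 0 = d 1 by omega, show b - d 3 = d 2 by omega]
    ring
  · intro i _ hi
    rw [Polynomial.coeff_C_mul, Polynomial.coeff_X_pow, if_neg hi, mul_zero,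
      Polynomial.homogenize_zero, map_zero, mul_zero]

lemma ch_coeff_natDegree {R : Type*} [CommRing R] {F : MvPolynomial (Fin 4) R} {a b : ℕ}
    (h : ∀ d, coeff d F ≠ 0 → d 0 + d 1 = a ∧ d 2 + d 3 = b) (i : ℕ) :
    ((ch F).coeff i).natDegree ≤ b := by
  classical
  have h1 : ch F = ∑ d ∈ F.support, ch (monomial d (coeff d F)) := by
    conv_lhs => rw [F.as_sum]
    unfold ch
    rw [map_sum]
  rw [h1, Polynomial.finsetSum_coeff]
  refine Polynomial.natDegree_sum_le_of_forall_le _ _ fun d hd => ?_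
  obtain ⟨k1, k2⟩ := h d (mem_support_iff.1 hd)
  rw [ch_monomial, Polynomial.coeff_C_mul, Polynomial.coeff_X_pow]
  split_ifs
  · rw [mul_one]
    exact (Polynomial.natDegree_C_mul_X_pow_le _ _).trans (by omega)
  · rw [mul_zero, Polynomial.natDegree_zero]
    exact Nat.zero_le _

lemma Hm_C_mul (a b : ℕ) (c : Polynomial ℚ) (hc : c ≠ 0) (h : Polynomial (Polynomial ℚ))
    (hb : ∀ i, ((Polynomial.C c * h).coeff i).natDegree ≤ b) :
    Hm a b (Polynomial.C c * h) = rename ![3, 2] (c.homogenize c.natDegree) *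
      Hm a (b - c.natDegree) h := by
  unfold Hm
  rw [Finset.mul_sum]
  refine Finset.sum_congr rfl fun i _ => ?_
  by_cases hi : h.coeff i = 0
  · rw [Polynomial.coeff_C_mul, hi, mul_zero, Polynomial.homogenize_zero,
      Polynomial.homogenize_zero, map_zero]
    ring
  · have h1 := hb i
    rw [Polynomial.coeff_C_mul, Polynomial.natDegree_mul hc hi] at h1
    have h2 : b = c.natDegree + (b - c.natDegree) := by omega
    rw [Polynomial.coeff_C_mul]
    conv_lhs => rw [h2]
    rw [Polynomial.homogenize_mul _ _ le_rfl (by omega), map_mul]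
    ring

lemma toQ_exps {F : MvPolynomial (Fin 4) ℤ} {a b : ℕ} (hF : Bi F a b) :
    ∀ d, coeff d (toQ F) ≠ 0 → d 0 + d 1 = a ∧ d 2 + d 3 = b := by
  intro d hd
  rw [toQ, coeff_map] at hd
  exact hF.exps (by rintro h; rw [h] at hd; simp at hd)

lemma ch_primitive {F : MvPolynomial (Fin 4) ℤ} {a b : ℕ} (hF : Bi F a b)
    (hirr : Irreducible (toQ F)) (h0 : pderiv 0 F ≠ 0) (c : Polynomial ℚ)
    (hc : Polynomial.C c ∣ ch (toQ F)) : IsUnit c := by
  obtain ⟨h, hh⟩ := hc
  have hF0 : toQ F ≠ 0 := hirr.ne_zero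
  have hch0 : ch (toQ F) ≠ 0 := by
    intro h1
    have h2 := Hm_ch (toQ_exps hF)
    rw [h1, Hm_zero] at h2
    exact hF0 h2.symm
  have hc0 : c ≠ 0 := by
    rintro rfl
    rw [map_zero, zero_mul] at hh
    exact hch0 hh
  by_contra hnu
  have hm : 0 < c.natDegree := by
    rw [Nat.pos_iff_ne_zero]
    intro h1
    apply hnu
    rw [Polynomial.eq_C_of_natDegree_eq_zero h1] at hc0 ⊢
    rw [Ne, Polynomial.C_eq_zero] at hc0
    exact (isUnit_iff_ne_zero.2 hc0).map Polynomial.C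
  have h2 : toQ F = rename ![3, 2] (c.homogenize c.natDegree) *
      Hm a (b - c.natDegree) h := by
    rw [← Hm_C_mul a b c hc0 h (fun i => by
      rw [← hh]; exact ch_coeff_natDegree (toQ_exps hF) i), ← hh, Hm_ch (toQ_exps hF)]
  have hinj : Function.Injective (![3, 2] : Fin 2 → Fin 4) := by decide
  rcases hirr.isUnit_or_isUnit h2 with h3 | h3
  · rw [MvPolynomial.isUnit_iff_eq_C_of_isReduced] at h3
    obtain ⟨r, hr, hr2⟩ := h3
    have h4 : (rename ![3, 2] (c.homogenize c.natDegree) : MvPolynomial (Fin 4) ℚ).IsHomogeneous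
        c.natDegree := (Polynomial.isHomogeneous_homogenize c).rename_isHomogeneous
    have h5 : (rename ![3, 2] (c.homogenize c.natDegree) : MvPolynomial (Fin 4) ℚ) ≠ 0 := by
      intro h6
      rw [h6, zero_mul] at h2
      exact hF0 h2
    have h6 := h4.totalDegree h5
    rw [hr2, totalDegree_C] at h6
    omega
  · rw [MvPolynomial.isUnit_iff_eq_C_of_isReduced] at h3
    obtain ⟨r, hr, hr2⟩ := h3
    apply h0
    apply toQ_injective
    rw [map_zero]
    have h4 : toQ (pderiv 0 F) = pderiv 0 (toQ F) := by rw [toQ, pderiv_map]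
    have h5 : pderiv 0 (rename ![3, 2] (c.homogenize c.natDegree) : MvPolynomial (Fin 4) ℚ) = 0 := by
      apply pderiv_eq_zero_of_notMem_vars
      intro hmem
      have h6 := vars_rename _ _ hmem
      rw [Finset.mem_image] at h6
      obtain ⟨i, -, hi⟩ := h6
      fin_cases i
      · exact absurd hi (by decide)
      · exact absurd hi (by decide)
    rw [h4, h2, hr2, pderiv_mul, pderiv_C, h5]
    simp

lemma bezout {F : MvPolynomial (Fin 4) ℤ} {a b : ℕ} (hF : Bi F a b)
    (hirr : Irreducible (toQ F)) (h0 : pderiv 0 F ≠ 0) :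
    ∃ u : Fin (a + 1) → Polynomial ℚ, ∑ i, u i * (ch (toQ F)).coeff i = 1 := by
  classical
  have hdeg : ∀ i, a < i → (ch (toQ F)).coeff i = 0 := by
    intro i hi
    have h1 : ch (toQ F) = ∑ d ∈ (toQ F).support, ch (monomial d (coeff d (toQ F))) := by
      conv_lhs => rw [(toQ F).as_sum]
      unfold ch
      rw [map_sum]
    rw [h1, Polynomial.finsetSum_coeff]
    refine Finset.sum_eq_zero fun d hd => ?_
    obtain ⟨k1, k2⟩ := toQ_exps hF d (mem_support_iff.1 hd)
    rw [ch_monomial, Polynomial.coeff_C_mul, Polynomial.coeff_X_pow, if_neg (by omega), mul_zero]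
  set I : Ideal (Polynomial ℚ) := Ideal.span (Set.range fun i : Fin (a + 1) =>
    (ch (toQ F)).coeff i) with hI
  have hdvd : ∀ i : ℕ, Submodule.IsPrincipal.generator I ∣ (ch (toQ F)).coeff i := by
    intro i
    by_cases hi : i < a + 1
    · have h1 : (ch (toQ F)).coeff i ∈ I := Ideal.subset_span ⟨⟨i, hi⟩, rfl⟩
      exact (Submodule.IsPrincipal.mem_iff_generator_dvd I).1 h1
    · rw [hdeg i (by omega)]
      exact dvd_zero _
  have hunit : IsUnit (Submodule.IsPrincipal.generator I) :=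
    ch_primitive hF hirr h0 _ ((Polynomial.C_dvd_iff_dvd_coeff _ _).2 hdvd)
  have htop : I = ⊤ := by
    rw [← Ideal.span_singleton_generator I, Ideal.span_singleton_eq_top]
    exact hunit
  have h1 : (1 : Polynomial ℚ) ∈ I := by rw [htop]; trivial
  rw [hI, Ideal.mem_span_range_iff_exists_fun] at h1
  exact h1

lemma exists_clear {n : ℕ} (u : Fin n → Polynomial ℚ) :
    ∃ N : ℤ, N ≠ 0 ∧ ∃ v : Fin n → Polynomial ℤ, ∀ i,
      (v i).map (Int.castRingHom ℚ) = Polynomial.C (N : ℚ) * u i := by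
  classical
  have h1 : ∀ i, ∃ N : ℤ, N ≠ 0 ∧ ∃ v : Polynomial ℤ,
      v.map (Int.castRingHom ℚ) = Polynomial.C (N : ℚ) * u i := by
    intro i
    obtain ⟨b, hb⟩ := IsLocalization.integerNormalization_map_to_map (nonZeroDivisors ℤ) (u i)
    refine ⟨b, nonZeroDivisors.coe_ne_zero b, _, hb.trans ?_⟩
    rw [Algebra.smul_def, Polynomial.algebraMap_apply]
    rfl
  choose N hN v hv using h1
  refine ⟨∏ i, N i, Finset.prod_ne_zero_iff.2 fun i _ => hN i,
    fun i => Polynomial.C (∏ j ∈ Finset.univ.erase i, N j) * v i, fun i => ?_⟩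
  rw [Polynomial.map_mul, Polynomial.map_C, hv, ← mul_assoc, ← Polynomial.C_mul]
  congr 2
  rw [eq_intCast, ← Int.cast_mul, Finset.prod_erase_mul _ _ (Finset.mem_univ i)]

lemma ch_toQ (F : MvPolynomial (Fin 4) ℤ) (i : ℕ) :
    ((ch F).coeff i).map (Int.castRingHom ℚ) = (ch (toQ F)).coeff i := by
  have h1 : (ch F).map (Polynomial.mapRingHom (Int.castRingHom ℚ)) = ch (toQ F) := by
    induction F using MvPolynomial.induction_on with
    | C c =>
      simp [ch, toQ]
    | add p q hp hq =>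
      have e1 : ch (p + q) = ch p + ch q := by unfold ch; rw [map_add]
      have e2 : ch (toQ (p + q)) = ch (toQ p) + ch (toQ q) := by
        unfold ch; rw [map_add, map_add]
      rw [e1, e2, Polynomial.map_add, hp, hq]
    | mul_X p j hp =>
      have e1 : ch (p * X j) = ch p * ch (X j) := by unfold ch; rw [map_mul]
      have e2 : ch (toQ (p * X j)) = ch (toQ p) * ch (toQ (X j)) := by
        unfold ch; rw [map_mul, map_mul]
      rw [e1, e2, Polynomial.map_mul, hp]
      congr 1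
      unfold ch
      fin_cases j <;> simp [toQ]
  rw [← h1, Polynomial.coeff_map]
  rfl

lemma fy_monomial (y : ℤ × ℤ) (d : Fin 4 →₀ ℕ) (c : ℤ) :
    fy (monomial d c) y.1 y.2 = Polynomial.C (c * (y.1 ^ d 2 * y.2 ^ d 3)) *
      Polynomial.X ^ d 0 := by
  unfold fy
  rw [aeval_monomial, Finsupp.prod_fintype _ _ (fun i => pow_zero _)]
  simp only [Fin.prod_univ_four, Matrix.cons_val_zero, Matrix.cons_val_one, Matrix.cons_val,
    one_pow, mul_one]
  rw [Polynomial.C_mul, Polynomial.C_mul, Polynomial.C_pow, Polynomial.C_pow]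
  have : (algebraMap ℤ (Polynomial ℤ)) c = Polynomial.C c := rfl
  rw [this]
  ring

lemma fy_coeff {F : MvPolynomial (Fin 4) ℤ} {a b : ℕ} (hF : Bi F a b) (y : ℤ × ℤ) (i : ℕ) :
    (fy F y.1 y.2).coeff i = MvPolynomial.eval ![y.2, y.1] (((ch F).coeff i).homogenize b) := by
  classical
  have h1 : ch F = ∑ d ∈ F.support, ch (monomial d (coeff d F)) := by
    conv_lhs => rw [F.as_sum]
    unfold ch
    rw [map_sum]
  have h2 : fy F y.1 y.2 = ∑ d ∈ F.support, fy (monomial d (coeff d F)) y.1 y.2 := by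
    conv_lhs => rw [F.as_sum]
    unfold fy
    rw [map_sum]
  rw [h1, h2, Polynomial.finsetSum_coeff, Polynomial.finsetSum_coeff,
    Polynomial.homogenize_finsetSum, map_sum]
  refine Finset.sum_congr rfl fun d hd => ?_
  obtain ⟨k1, k2⟩ := hF.exps (mem_support_iff.1 hd)
  rw [ch_monomial, fy_monomial, Polynomial.coeff_C_mul, Polynomial.coeff_C_mul,
    Polynomial.coeff_X_pow, Polynomial.coeff_X_pow]
  split_ifs
  · rw [mul_one, mul_one, Polynomial.homogenize_C_mul, Polynomial.homogenize_X_pow (by omega)]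
    simp only [map_mul, map_pow, eval_C, eval_X, Matrix.cons_val_zero, Matrix.cons_val_one]
    rw [show b - d 3 = d 2 by omega]
    ring
  · rw [mul_zero, mul_zero]
    simp

/-- the identity in the first chart -/
lemma content_chart {F : MvPolynomial (Fin 4) ℤ} {a b : ℕ} (hF : Bi F a b)
    (hirr : Irreducible (toQ F)) (h0 : pderiv 0 F ≠ 0) :
    ∃ (N : ℤ) (k M : ℕ), N ≠ 0 ∧ ∀ y : ℤ × ℤ, IsCoprime y.1 y.2 → ∃ u : ℕ → ℤ,
      (∀ i, (u i).natAbs ≤ M * ht y ^ k) ∧
      ∑ i ∈ Finset.range (a + 1), u i * (fy F y.1 y.2).coeff i = N * y.1 ^ (k + b) := by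
  classical
  obtain ⟨u, hu⟩ := bezout hF hirr h0
  obtain ⟨N, hN, v, hv⟩ := exists_clear u
  have hvN : ∑ i : Fin (a + 1), v i * (ch F).coeff i = Polynomial.C N := by
    apply Polynomial.map_injective (Int.castRingHom ℚ) Int.cast_injective
    rw [Polynomial.map_sum, Polynomial.map_C]
    have h1 : ∀ i : Fin (a + 1), (v i * (ch F).coeff i).map (Int.castRingHom ℚ) =
        Polynomial.C (N : ℚ) * (u i * (ch (toQ F)).coeff i) := by
      intro i
      rw [Polynomial.map_mul, hv, ch_toQ]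
      ring
    rw [Finset.sum_congr rfl fun i _ => h1 i, ← Finset.mul_sum, hu, mul_one]
    rfl
  set k := ∑ i, (v i).natDegree with hk
  have hki : ∀ i, (v i).natDegree ≤ k := fun i =>
    Finset.single_le_sum (f := fun i => (v i).natDegree) (fun _ _ => Nat.zero_le _)
      (Finset.mem_univ i)
  have hb : ∀ i : Fin (a + 1), ∃ c : ℕ, 1 ≤ c ∧ ∀ B : ℕ, 1 ≤ B → ∀ x ∈ box 2 B,
      (eval x ((v i).homogenize k)).natAbs ≤ c * B ^ k :=
    fun i => exists_eval_bound _ (Polynomial.isHomogeneous_homogenize _).totalDegree_le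
  choose c hc1 hc using hb
  refine ⟨N, k, ∑ i, c i, hN, fun y hy => ?_⟩
  refine ⟨fun i => if h : i < a + 1 then eval ![y.2, y.1] ((v ⟨i, h⟩).homogenize k) else 0, ?_, ?_⟩
  · intro i
    dsimp only
    split_ifs with h
    · refine (hc ⟨i, h⟩ (ht y) (ht_pos hy) _ ?_).trans (Nat.mul_le_mul_right _
        (Finset.single_le_sum (f := c) (fun _ _ => Nat.zero_le _) (Finset.mem_univ _)))
      rw [mem_box]
      have := (ht_le (x := y) (B := ht y)).1 le_rfl
      intro j
      fin_cases j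
      · exact this.2
      · exact this.1
    · simp
  · rw [← Fin.sum_univ_eq_sum_range (fun i => (if h : i < a + 1 then
      eval ![y.2, y.1] ((v ⟨i, h⟩).homogenize k) else 0) * (fy F y.1 y.2).coeff i) (a + 1)]
    have h1 : ∀ i : Fin (a + 1), (if h : (i : ℕ) < a + 1 then
        eval ![y.2, y.1] ((v ⟨i, h⟩).homogenize k) else 0) * (fy F y.1 y.2).coeff i =
        eval ![y.2, y.1] ((v i * (ch F).coeff i).homogenize (k + b)) := by
      intro i
      rw [dif_pos i.2, Polynomial.homogenize_mul _ _ (hki i)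
        (ch_coeff_natDegree (fun d hd => hF.exps hd) i), map_mul, fy_coeff hF]
    rw [Finset.sum_congr rfl fun i _ => h1 i, ← map_sum, ← Polynomial.homogenize_finsetSum, hvN,
      Polynomial.homogenize_C]
    simp

lemma fy_sw (F : MvPolynomial (Fin 4) ℤ) (y₀ y₁ : ℤ) : fy (sw F) y₁ y₀ = fy F y₀ y₁ := by
  unfold fy
  exact sw_aeval F _ _ _ _

/-- **The content of `F (·, y)` is bounded.** -/
theorem content {F : MvPolynomial (Fin 4) ℤ} {a b : ℕ} (hF : Bi F a b)
    (hirr : Irreducible (toQ F)) (h0 : pderiv 0 F ≠ 0) :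
    ∃ N : ℤ, N ≠ 0 ∧ ∀ y : ℤ × ℤ, IsCoprime y.1 y.2 → ∃ u : ℕ → ℤ,
      ∑ i ∈ Finset.range (a + 1), u i * (fy F y.1 y.2).coeff i = N := by
  obtain ⟨N, k, M, hN, h⟩ := content_chart hF hirr h0
  obtain ⟨N', k', M', hN', h'⟩ := content_chart (sw_bi hF) (sw_irr hirr) (sw_pderiv_ne h0)
  refine ⟨N * N', mul_ne_zero hN hN', fun y hy => ?_⟩
  obtain ⟨u, -, hu⟩ := h y hy
  obtain ⟨u', -, hu'⟩ := h' (y.2, y.1) hy.symm
  obtain ⟨s, t, hst⟩ : IsCoprime (y.1 ^ (k + b)) (y.2 ^ (k' + b)) := hy.pow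
  simp only [fy_sw] at hu'
  refine ⟨fun i => N' * s * u i + N * t * u' i, ?_⟩
  have h1 : ∑ i ∈ Finset.range (a + 1), (N' * s * u i + N * t * u' i) *
      (fy F y.1 y.2).coeff i = N' * s * ∑ i ∈ Finset.range (a + 1), u i * (fy F y.1 y.2).coeff i +
        N * t * ∑ i ∈ Finset.range (a + 1), u' i * (fy F y.1 y.2).coeff i := by
    rw [Finset.mul_sum, Finset.mul_sum, ← Finset.sum_add_distrib]
    refine Finset.sum_congr rfl fun i _ => ?_
    ring
  rw [h1, hu, hu']
  linear_combination N * N' * hst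

/-- **The form `F (·, y)` is large.** -/
theorem form_large {F : MvPolynomial (Fin 4) ℤ} {a b : ℕ} (hF : Bi F a b)
    (hirr : Irreducible (toQ F)) (h0 : pderiv 0 F ≠ 0) :
    ∃ M : ℕ, 1 ≤ M ∧ ∀ y : ℤ × ℤ, IsCoprime y.1 y.2 → ∃ i ≤ a,
      ht y ^ b ≤ M * ((fy F y.1 y.2).coeff i).natAbs := by
  classical
  have key : ∀ (G : MvPolynomial (Fin 4) ℤ), Bi G a b → Irreducible (toQ G) → pderiv 0 G ≠ 0 →
      ∃ M : ℕ, 1 ≤ M ∧ ∀ y : ℤ × ℤ, IsCoprime y.1 y.2 → ht y = y.1.natAbs → ∃ i ≤ a,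
        ht y ^ b ≤ M * ((fy G y.1 y.2).coeff i).natAbs := by
    intro G hG hirr h0
    obtain ⟨N, k, M, hN, h⟩ := content_chart hG hirr h0
    refine ⟨(a + 1) * M + 1, by omega, fun y hy hht => ?_⟩
    obtain ⟨u, hu1, hu2⟩ := h y hy
    by_contra hcon
    push Not at hcon
    have h1 : (N * y.1 ^ (k + b)).natAbs ≤ ∑ i ∈ Finset.range (a + 1),
        (M * ht y ^ k) * ((fy G y.1 y.2).coeff i).natAbs := by
      rw [← hu2]
      refine (Int.natAbs_sum_le _ _).trans (Finset.sum_le_sum fun i _ => ?_)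
      rw [Int.natAbs_mul]
      exact Nat.mul_le_mul_right _ (hu1 i)
    have hy1 : 1 ≤ ht y := ht_pos hy
    have h2 : ∀ i ∈ Finset.range (a + 1), ((a + 1) * M + 1) * ((M * ht y ^ k) *
        ((fy G y.1 y.2).coeff i).natAbs) ≤ M * ht y ^ k * ht y ^ b := by
      intro i hi
      rw [Finset.mem_range] at hi
      have h3 := (hcon i (by omega)).le
      calc ((a + 1) * M + 1) * ((M * ht y ^ k) * ((fy G y.1 y.2).coeff i).natAbs) =
            (M * ht y ^ k) * (((a + 1) * M + 1) * ((fy G y.1 y.2).coeff i).natAbs) := by ring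
        _ ≤ _ := Nat.mul_le_mul_left _ h3
    have h4 : ((a + 1) * M + 1) * (N * y.1 ^ (k + b)).natAbs ≤
        (a + 1) * (M * ht y ^ k * ht y ^ b) := by
      refine (Nat.mul_le_mul_left _ h1).trans ?_
      rw [Finset.mul_sum]
      refine (Finset.sum_le_sum h2).trans (le_of_eq ?_)
      rw [Finset.sum_const, Finset.card_range, smul_eq_mul]
    have h5 : ht y ^ (k + b) ≤ (N * y.1 ^ (k + b)).natAbs := by
      rw [Int.natAbs_mul, Int.natAbs_pow, ← hht]
      exact Nat.le_mul_of_pos_left _ (Int.natAbs_pos.2 hN)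
    have h6 : 1 ≤ ht y ^ (k + b) := Nat.one_le_pow _ _ hy1
    have h7 : ((a + 1) * M + 1) * ht y ^ (k + b) ≤ (a + 1) * (M * ht y ^ k * ht y ^ b) :=
      (Nat.mul_le_mul_left _ h5).trans h4
    have h8 : (a + 1) * (M * ht y ^ k * ht y ^ b) = (a + 1) * M * ht y ^ (k + b) := by
      rw [pow_add]; ring
    rw [h8] at h7
    nlinarith
  obtain ⟨M, hM1, hM⟩ := key F hF hirr h0
  obtain ⟨M', hM'1, hM'⟩ := key (sw F) (sw_bi hF) (sw_irr hirr) (sw_pderiv_ne h0)
  refine ⟨M + M', by omega, fun y hy => ?_⟩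
  rcases le_total y.2.natAbs y.1.natAbs with hle | hle
  · obtain ⟨i, hi, h⟩ := hM y hy (max_eq_left hle)
    exact ⟨i, hi, h.trans (Nat.mul_le_mul_right _ (by omega))⟩
  · have e : ht (y.2, y.1) = ht y := by unfold ht; exact max_comm _ _
    obtain ⟨i, hi, h⟩ := hM' (y.2, y.1) hy.symm (max_eq_left hle)
    simp only [fy_sw] at h
    rw [e] at h
    exact ⟨i, hi, h.trans (Nat.mul_le_mul_right _ (by omega))⟩

end Pool.Agent.Helper19K9.Fb
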