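import Pool.Agent.Helper19K9.Fb.FS

/-!
Elimination of the variable `X_0` from an irreducible form and another one.
-/

set_option autoImplicit false
set_option linter.all false
set_option maxHeartbeats 4000000

namespace Pool.Agent.Helper19K9.Fb

open MvPolynomial Pool.Agent.TH910.Voj Pool.Agent.Helper19K9.Sq

lemma natDegree_ne {F : MvPolynomial (Fin 4) ℤ} (h0 : pderiv 0 F ≠ 0) :
    (finSuccEquiv ℚ 3 (toQ F)).natDegree ≠ 0 := by
  rw [natDegree_finSuccEquiv]
  intro hdeg
  apply h0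
  apply toQ_injective
  rw [map_zero]
  have h1 : toQ (pderiv 0 F) = pderiv 0 (toQ F) := by rw [toQ, pderiv_map]
  rw [h1]
  apply pderiv_eq_zero_of_notMem_vars
  intro hmem
  rw [mem_vars] at hmem
  obtain ⟨d, hd, hd0⟩ := hmem
  have h2 := monomial_le_degreeOf 0 hd
  rw [hdeg] at h2
  rw [Finsupp.mem_support_iff] at hd0
  omega

lemma fse_rename (q : MvPolynomial (Fin 3) ℚ) :
    finSuccEquiv ℚ 3 (rename Fin.succ q) = Polynomial.C q := by
  induction q using MvPolynomial.induction_on with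
  | C c =>
    rw [rename_C]
    rw [finSuccEquiv_apply]
    simp
  | add p q hp hq => rw [map_add, map_add, hp, hq, map_add]
  | mul_X p j hp =>
    rw [map_mul, map_mul, hp, rename_X]
    have h1 : finSuccEquiv ℚ 3 (X (Fin.succ j)) = Polynomial.C (X j) := finSuccEquiv_X_succ
    rw [h1, map_mul]

theorem elim0 (F G : MvPolynomial (Fin 4) ℤ) (hF : Irreducible (toQ F)) (h0 : pderiv 0 F ≠ 0)
    (hG : ¬ toQ F ∣ toQ G) :
    ∃ (r : MvPolynomial (Fin 3) ℤ) (U V : MvPolynomial (Fin 4) ℤ),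
      r ≠ 0 ∧ rename Fin.succ r = U * F + V * G := by
  classical
  set e := finSuccEquiv ℚ 3 with he
  set f := e (toQ F) with hf
  set g := e (toQ G) with hg
  have hfirr : Irreducible f := (MulEquiv.irreducible_iff e).2 hF
  have hdeg : f.natDegree ≠ 0 := natDegree_ne h0
  have hprim : f.IsPrimitive := hfirr.isPrimitive hdeg
  set L := FractionRing (MvPolynomial (Fin 3) ℚ) with hL
  set φ := algebraMap (MvPolynomial (Fin 3) ℚ) L with hφ
  have hφinj : Function.Injective φ := IsFractionRing.injective _ _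
  have hmapinj : Function.Injective (Polynomial.map φ) := Polynomial.map_injective φ hφinj
  have hfL : Irreducible (f.map φ) :=
    (hprim.irreducible_iff_irreducible_map_fraction_map (K := L)).1 hfirr
  have hnd : ¬ f ∣ g := by
    rintro ⟨h, hh⟩
    apply hG
    refine ⟨e.symm h, ?_⟩
    apply e.injective
    rw [map_mul, AlgEquiv.apply_symm_apply]
    exact hh
  have hndL : ¬ f.map φ ∣ g.map φ := by
    rintro ⟨h, hh⟩
    obtain ⟨b, hb⟩ := IsLocalization.integerNormalization_map_to_map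
      (nonZeroDivisors (MvPolynomial (Fin 3) ℚ)) h
    set h' := IsLocalization.integerNormalization (nonZeroDivisors (MvPolynomial (Fin 3) ℚ)) h
    have hb0 : (b : MvPolynomial (Fin 3) ℚ) ≠ 0 := nonZeroDivisors.coe_ne_zero b
    have h1 : Polynomial.C (b : MvPolynomial (Fin 3) ℚ) * g = f * h' := by
      apply hmapinj
      rw [Polynomial.map_mul, Polynomial.map_mul, Polynomial.map_C, hb, hh, Algebra.smul_def,
        Polynomial.algebraMap_apply]
      show Polynomial.C (φ b) * (f.map φ * h) = f.map φ * (Polynomial.C (φ b) * h)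
      ring
    have h2 : f ∣ Polynomial.C (b : MvPolynomial (Fin 3) ℚ) * g := ⟨h', h1⟩
    rcases hfirr.prime.dvd_or_dvd h2 with h3 | h3
    · have h4 := Polynomial.natDegree_le_of_dvd h3 (by
        rw [Ne, Polynomial.C_eq_zero]; exact hb0)
      rw [Polynomial.natDegree_C] at h4
      omega
    · exact hnd h3
  obtain ⟨u, v, huv⟩ := (hfL.coprime_iff_not_dvd).2 hndL
  obtain ⟨b, hb⟩ := IsLocalization.integerNormalization_map_to_map
      (nonZeroDivisors (MvPolynomial (Fin 3) ℚ)) u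
  set u' := IsLocalization.integerNormalization (nonZeroDivisors (MvPolynomial (Fin 3) ℚ)) u
  obtain ⟨c, hc⟩ := IsLocalization.integerNormalization_map_to_map
      (nonZeroDivisors (MvPolynomial (Fin 3) ℚ)) v
  set v' := IsLocalization.integerNormalization (nonZeroDivisors (MvPolynomial (Fin 3) ℚ)) v
  have hb0 : (b : MvPolynomial (Fin 3) ℚ) ≠ 0 := nonZeroDivisors.coe_ne_zero b
  have hc0 : (c : MvPolynomial (Fin 3) ℚ) ≠ 0 := nonZeroDivisors.coe_ne_zero c
  set r₀ : MvPolynomial (Fin 3) ℚ := b * c with hr₀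
  have hr₀0 : r₀ ≠ 0 := mul_ne_zero hb0 hc0
  have key : Polynomial.C r₀ = (Polynomial.C (c : MvPolynomial (Fin 3) ℚ) * u') * f +
      (Polynomial.C (b : MvPolynomial (Fin 3) ℚ) * v') * g := by
    apply hmapinj
    rw [Polynomial.map_add, Polynomial.map_mul, Polynomial.map_mul, Polynomial.map_mul,
      Polynomial.map_mul, Polynomial.map_C, Polynomial.map_C, Polynomial.map_C, hb, hc,
      Algebra.smul_def, Algebra.smul_def, Polynomial.algebraMap_apply, Polynomial.algebraMap_apply,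
      hr₀, map_mul]
    show Polynomial.C (φ b * φ c) = Polynomial.C (φ c) * (Polynomial.C (φ b) * u) * f.map φ +
      Polynomial.C (φ b) * (Polynomial.C (φ c) * v) * g.map φ
    have h1 : Polynomial.C (φ b * φ c) = Polynomial.C (φ b * φ c) * (u * f.map φ + v * g.map φ) := by
      rw [huv, mul_one]
    rw [h1, Polynomial.C_mul]
    ring
  -- back to four variables
  have hsymm : e.symm (Polynomial.C r₀) = rename Fin.succ r₀ := by
    rw [AlgEquiv.symm_apply_eq]
    exact (fse_rename r₀).symm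
  obtain ⟨N₁, hN₁, U₁, hU₁⟩ := exists_int_mul_eq_toQ (e.symm (Polynomial.C (c : MvPolynomial (Fin 3) ℚ) * u'))
  obtain ⟨N₂, hN₂, V₁, hV₁⟩ := exists_int_mul_eq_toQ (e.symm (Polynomial.C (b : MvPolynomial (Fin 3) ℚ) * v'))
  obtain ⟨N₃, hN₃, r₁, hr₁⟩ := exists_int_mul_eq_toQ r₀
  have key2 : rename Fin.succ r₀ = e.symm (Polynomial.C (c : MvPolynomial (Fin 3) ℚ) * u') * toQ F +
      e.symm (Polynomial.C (b : MvPolynomial (Fin 3) ℚ) * v') * toQ G := by
    rw [← hsymm, key, map_add, map_mul, map_mul e.symm _ g, hf, hg, AlgEquiv.symm_apply_apply,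
      AlgEquiv.symm_apply_apply]
  refine ⟨C (N₁ * N₂) * r₁, C (N₂ * N₃) * U₁, C (N₁ * N₃) * V₁, ?_, ?_⟩
  · refine mul_ne_zero (by rw [Ne, C_eq_zero]; exact mul_ne_zero hN₁ hN₂) ?_
    rintro rfl
    rw [map_zero] at hr₁
    rcases mul_eq_zero.1 hr₁.symm with h | h
    · rw [C_eq_zero] at h
      exact hN₃ (by exact_mod_cast h)
    · exact hr₀0 h
  · apply toQ_injective
    have e1 : toQ (rename Fin.succ (C (N₁ * N₂) * r₁)) = C ((N₁ * N₂ : ℤ) : ℚ) *
        rename Fin.succ (C (N₃ : ℚ) * r₀) := by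
      rw [← hr₁, toQ, map_rename, map_mul, map_C, map_mul, rename_C]
      rfl
    have e2 : toQ (C (N₂ * N₃) * U₁ * F + C (N₁ * N₃) * V₁ * G) =
        C ((N₂ * N₃ : ℤ) : ℚ) * toQ U₁ * toQ F + C ((N₁ * N₃ : ℤ) : ℚ) * toQ V₁ * toQ G := by
      have g1 : ∀ z : ℤ, toQ (C z : MvPolynomial (Fin 4) ℤ) = C (z : ℚ) := fun z => by
        rw [toQ, map_C, eq_intCast]
      rw [map_add, map_mul toQ (C (N₂ * N₃) * U₁) F, map_mul toQ (C (N₂ * N₃)) U₁,
        map_mul toQ (C (N₁ * N₃) * V₁) G, map_mul toQ (C (N₁ * N₃)) V₁, g1, g1]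
    rw [e1, map_mul, rename_C, key2, e2, hU₁, hV₁]
    simp only [Int.cast_mul, C_mul]
    ring

end Pool.Agent.Helper19K9.Fb
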