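import Pool.Agent.Helper19K9.Sq.Pw

/-!
Properties of pairs `(x, y)` that are rare in every fibre.
-/

set_option autoImplicit false
set_option linter.all false
set_option maxHeartbeats 4000000

namespace Pool.Agent.Helper19K9.Fb

/-- the height of a pair of integers -/
def ht (y : ℤ × ℤ) : ℕ := max y.1.natAbs y.2.natAbs

/-- the coprime pairs in the box of size `B` with the property `P` -/
def fset (B : ℕ) (P : ℤ × ℤ → Prop) : Set (ℤ × ℤ) :=
  {x | ht x ≤ B ∧ IsCoprime x.1 x.2 ∧ P x}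

lemma ht_le {x : ℤ × ℤ} {B : ℕ} : ht x ≤ B ↔ |x.1| ≤ B ∧ |x.2| ≤ B := by
  unfold ht
  rw [max_le_iff, Int.abs_eq_natAbs, Int.abs_eq_natAbs]
  norm_cast

lemma ht_pos {x : ℤ × ℤ} (hx : IsCoprime x.1 x.2) : 1 ≤ ht x := by
  unfold ht
  by_contra hcon
  have h1 : x.1.natAbs = 0 := by
    have := le_max_left x.1.natAbs x.2.natAbs
    omega
  have h2 : x.2.natAbs = 0 := by
    have := le_max_right x.1.natAbs x.2.natAbs
    omega
  rw [Int.natAbs_eq_zero] at h1 h2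
  rw [h1, h2] at hx
  obtain ⟨a, b, hab⟩ := hx
  simp at hab

noncomputable def bx (B : ℕ) : Finset (ℤ × ℤ) :=
  Finset.Icc (-(B : ℤ)) B ×ˢ Finset.Icc (-(B : ℤ)) B

lemma mem_bx {x : ℤ × ℤ} {B : ℕ} : x ∈ bx B ↔ ht x ≤ B := by
  unfold bx
  rw [Finset.mem_product, Finset.mem_Icc, Finset.mem_Icc, ← abs_le, ← abs_le, ht_le]

lemma card_bx (B : ℕ) (hB : 1 ≤ B) : ((bx B).card : ℝ) ≤ 9 * (B : ℝ) ^ (2 : ℝ) := by
  unfold bx
  rw [Finset.card_product, Pool.Agent.TH910.Voj.card_Icc_int]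
  have : (1 : ℝ) ≤ B := by exact_mod_cast hB
  push_cast
  rw [show (B : ℝ) ^ (2 : ℝ) = (B : ℝ) ^ 2 by rw [← Real.rpow_natCast]; norm_num]
  nlinarith

lemma fset_finite (B : ℕ) (P : ℤ × ℤ → Prop) : (fset B P).Finite :=
  (bx B).finite_toSet.subset fun _ hx => mem_bx.2 hx.1

lemma fset_mono {B : ℕ} {P Q : ℤ × ℤ → Prop}
    (h : ∀ x, ht x ≤ B → IsCoprime x.1 x.2 → P x → Q x) : (fset B P).ncard ≤ (fset B Q).ncard :=
  Set.ncard_le_ncard (fun x hx => ⟨hx.1, hx.2.1, h x hx.1 hx.2.1 hx.2.2⟩) (fset_finite B Q)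

/-- A property is rare in every fibre over the points with `Y`, with power saving, uniformly for
the points of height at most `B ^ Λ`. -/
def FS (Y : ℤ × ℤ → Prop) (Λ : ℝ) (bad : ℕ → ℤ × ℤ → ℤ × ℤ → Prop) : Prop :=
  ∃ c : ℝ, 0 < c ∧ ∃ C : ℝ, 0 < C ∧ ∀ B : ℕ, 1 ≤ B → ∀ y : ℤ × ℤ, Y y →
    (ht y : ℝ) ≤ (B : ℝ) ^ Λ → ((fset B (bad B y)).ncard : ℝ) ≤ C * (B : ℝ) ^ ((2 : ℝ) - c)

variable {Y : ℤ × ℤ → Prop} {Λ : ℝ} {P Q : ℕ → ℤ × ℤ → ℤ × ℤ → Prop}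

/-- It suffices to consider large `B`. -/
lemma FS.of_eventually (h : FS Y Λ Q) (B₀ : ℕ)
    (hPQ : ∀ (B : ℕ) (y x : ℤ × ℤ), B₀ ≤ B → 1 ≤ B → Y y → (ht y : ℝ) ≤ (B : ℝ) ^ Λ → ht x ≤ B →
      IsCoprime x.1 x.2 → P B y x → Q B y x) : FS Y Λ P := by
  obtain ⟨c, hc, C, hC, h⟩ := h
  refine ⟨c, hc, C + 9 * (B₀ + 1 : ℝ) ^ c, by positivity, fun B hB y hy hyB => ?_⟩
  have hB1 : (1 : ℝ) ≤ B := by exact_mod_cast hB
  have hB0 : (0 : ℝ) < B := by linarith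
  have hpos : 0 ≤ (B : ℝ) ^ ((2 : ℝ) - c) := by positivity
  by_cases hBB : B₀ ≤ B
  · have h1 : ((fset B (P B y)).ncard : ℝ) ≤ (fset B (Q B y)).ncard := by
      exact_mod_cast fset_mono fun x h1 h2 h3 => hPQ B y x hBB hB hy hyB h1 h2 h3
    refine h1.trans ((h B hB y hy hyB).trans (mul_le_mul_of_nonneg_right ?_ hpos))
    have : 0 ≤ 9 * (B₀ + 1 : ℝ) ^ c := by positivity
    linarith
  · have h1 : ((fset B (P B y)).ncard : ℝ) ≤ (bx B).card := by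
      rw [← Set.ncard_coe_finset]
      exact_mod_cast Set.ncard_le_ncard (s := fset B (P B y)) (t := ((bx B : Finset (ℤ × ℤ)) : Set (ℤ × ℤ)))
        (fun x hx => mem_bx.2 hx.1) (bx B).finite_toSet
    refine h1.trans ((card_bx B hB).trans ?_)
    have h2 : (B : ℝ) ^ (2 : ℝ) = (B : ℝ) ^ c * (B : ℝ) ^ ((2 : ℝ) - c) := by
      rw [← Real.rpow_add hB0]; congr 1; ring
    have h3 : (B : ℝ) ^ c ≤ (B₀ + 1 : ℝ) ^ c := by
      refine Real.rpow_le_rpow hB0.le ?_ hc.le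
      have : B ≤ B₀ := by omega
      have : (B : ℝ) ≤ B₀ := by exact_mod_cast this
      linarith
    rw [h2, ← mul_assoc]
    refine mul_le_mul_of_nonneg_right ?_ hpos
    linarith [mul_le_mul_of_nonneg_left h3 (by norm_num : (0 : ℝ) ≤ 9)]

lemma FS.mono (h : FS Y Λ Q)
    (hPQ : ∀ (B : ℕ) (y x : ℤ × ℤ), 1 ≤ B → Y y → (ht y : ℝ) ≤ (B : ℝ) ^ Λ → ht x ≤ B →
      IsCoprime x.1 x.2 → P B y x → Q B y x) : FS Y Λ P := by
  obtain ⟨c, hc, C, hC, h⟩ := h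
  refine ⟨c, hc, C, hC, fun B hB y hy hyB => le_trans ?_ (h B hB y hy hyB)⟩
  exact_mod_cast fset_mono fun x h1 h2 h3 => hPQ B y x hB hy hyB h1 h2 h3

lemma FS.or (hP : FS Y Λ P) (hQ : FS Y Λ Q) : FS Y Λ (fun B y x => P B y x ∨ Q B y x) := by
  obtain ⟨c, hc, C, hC, h⟩ := hP
  obtain ⟨c', hc', C', hC', h'⟩ := hQ
  refine ⟨min c c', lt_min hc hc', C + C', by positivity, fun B hB y hy hyB => ?_⟩
  have hB1 : (1 : ℝ) ≤ B := by exact_mod_cast hB
  have h1 : ((fset B fun x => P B y x ∨ Q B y x).ncard : ℝ) ≤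
      (fset B (P B y)).ncard + (fset B (Q B y)).ncard := by
    have h2 : (fset B fun x => P B y x ∨ Q B y x) = fset B (P B y) ∪ fset B (Q B y) := by
      ext x; simp only [fset, Set.mem_ofPred_eq, Set.mem_union]; tauto
    rw [h2]
    exact_mod_cast Set.ncard_union_le _ _
  refine h1.trans ?_
  rw [add_mul]
  refine add_le_add ((h B hB y hy hyB).trans ?_) ((h' B hB y hy hyB).trans ?_)
  · refine mul_le_mul_of_nonneg_left (Real.rpow_le_rpow_of_exponent_le hB1 ?_) hC.le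
    linarith [min_le_left c c']
  · refine mul_le_mul_of_nonneg_left (Real.rpow_le_rpow_of_exponent_le hB1 ?_) hC'.le
    linarith [min_le_right c c']

lemma FS.false : FS Y Λ (fun _ _ _ => False) := by
  refine ⟨1, one_pos, 1, one_pos, fun B hB y hy hyB => ?_⟩
  have : fset B (fun _ => False) = ∅ := by
    ext x; simp [fset]
  rw [this, Set.ncard_empty, Nat.cast_zero]
  positivity

lemma FS.exists_fin {q : ℕ} {P : Fin q → ℕ → ℤ × ℤ → ℤ × ℤ → Prop}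
    (h : ∀ j, FS Y Λ (P j)) : FS Y Λ (fun B y x => ∃ j, P j B y x) := by
  classical
  have key : ∀ s : Finset (Fin q), FS Y Λ (fun B y x => ∃ j ∈ s, P j B y x) := by
    intro s
    induction s using Finset.induction_on with
    | empty => exact FS.false.mono (by simp)
    | insert a s _ ih =>
      refine ((h a).or ih).mono ?_
      rintro B y x - - - - - ⟨j, hj, hjx⟩
      rcases Finset.mem_insert.mp hj with rfl | hj
      · exact Or.inl hjx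
      · exact Or.inr ⟨j, hj, hjx⟩
  refine (key Finset.univ).mono ?_
  rintro B y x - - - - - ⟨j, hj⟩
  exact ⟨j, Finset.mem_univ j, hj⟩

/-- weaker conditions on `y` -/
lemma FS.anti {Y' : ℤ × ℤ → Prop} {Λ' : ℝ} (h : FS Y Λ P) (hY : ∀ y, Y' y → Y y) (hΛ : Λ' ≤ Λ) :
    FS Y' Λ' P := by
  obtain ⟨c, hc, C, hC, h⟩ := h
  refine ⟨c, hc, C, hC, fun B hB y hy hyB => h B hB y (hY y hy) (hyB.trans ?_)⟩
  have hB1 : (1 : ℝ) ≤ B := by exact_mod_cast hB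
  exact Real.rpow_le_rpow_of_exponent_le hB1 hΛ

end Pool.Agent.Helper19K9.Fb
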