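import Pool.Agent.Helper19K9.Fb.Rad

/-!
The general case, by exchanging the coordinates of `x`; common divisors of two values.
-/

set_option autoImplicit false
set_option linter.all false
set_option maxHeartbeats 4000000

namespace Pool.Agent.Helper19K9.Fb

open MvPolynomial Pool.Agent.TH910.Voj Pool.Agent.Helper19K9.Sq Pool.Agent.H813R3.Voj

lemma FS.swap {Y : ℤ × ℤ → Prop} {Λ : ℝ} {P : ℕ → ℤ × ℤ → ℤ × ℤ → Prop} (h : FS Y Λ P) :
    FS Y Λ (fun B y x => P B y (x.2, x.1)) := by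
  obtain ⟨c, hc, C, hC, h⟩ := h
  refine ⟨c, hc, C, hC, fun B hB y hy hyB => le_trans ?_ (h B hB y hy hyB)⟩
  have h1 : (fset B fun x => P B y (x.2, x.1)).ncard ≤ (fset B (P B y)).ncard := by
    refine Set.ncard_le_ncard_of_injOn (fun x : ℤ × ℤ => (x.2, x.1)) ?_ ?_ (fset_finite B _)
    · rintro x ⟨h1, h2, h3⟩
      refine ⟨?_, h2.symm, h3⟩
      unfold ht at h1 ⊢
      rw [max_comm]
      exact h1
    · intro x _ z _ hxz
      have : (x.2, x.1) = (z.2, z.1) := hxz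
      rw [Prod.mk.injEq] at this
      exact Prod.ext this.2 this.1
  exact_mod_cast h1

/-- exchange of the coordinates of `x` -/
noncomputable def sx (F : MvPolynomial (Fin 4) ℤ) : MvPolynomial (Fin 4) ℤ :=
  rename (Equiv.swap (0 : Fin 4) 1) F

lemma sx_val (F : MvPolynomial (Fin 4) ℤ) (x y : ℤ × ℤ) :
    val (sx F) (x.2, x.1) y = val F x y := by
  unfold sx val
  rw [eval_rename]
  congr 1
  congr 1
  funext i
  fin_cases i <;> rfl

lemma sx_bi {F : MvPolynomial (Fin 4) ℤ} {a b : ℕ} (h : Bi F a b) : Bi (sx F) a b := by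
  refine Bi.of_exps fun d hd => ?_
  obtain ⟨u, hu, hu2⟩ := exps_rename _ hd
  obtain ⟨w1, w2⟩ := h.exps hu
  have e0 := hu2 0
  have e1 := hu2 1
  have e2 := hu2 2
  have e3 := hu2 3
  have f0 : (Equiv.swap (0 : Fin 4) 1) 0 = 1 := by decide
  have f1 : (Equiv.swap (0 : Fin 4) 1) 1 = 0 := by decide
  have f2 : (Equiv.swap (0 : Fin 4) 1) 2 = 2 := by decide
  have f3 : (Equiv.swap (0 : Fin 4) 1) 3 = 3 := by decide
  rw [f0] at e0
  rw [f1] at e1
  rw [f2] at e2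
  rw [f3] at e3
  omega

lemma sx_irr {F : MvPolynomial (Fin 4) ℤ} (h : Irreducible (toQ F)) : Irreducible (toQ (sx F)) :=
  irr_rename h _

lemma sx_pderiv {F : MvPolynomial (Fin 4) ℤ} (h : pderiv 1 F ≠ 0) : pderiv 0 (sx F) ≠ 0 := by
  have h3 := pderiv_rename (R := ℤ) (Equiv.swap (0 : Fin 4) 1).injective 1 F
  have f1 : (Equiv.swap (0 : Fin 4) 1) 1 = 0 := by decide
  rw [f1] at h3
  unfold sx
  rw [h3]
  intro h0
  exact h (rename_injective _ (Equiv.swap (0 : Fin 4) 1).injective (h0.trans (map_zero _).symm))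

lemma sx_dvd {F G : MvPolynomial (Fin 4) ℤ} (h : ¬ toQ F ∣ toQ G) : ¬ toQ (sx F) ∣ toQ (sx G) := by
  intro hd
  apply h
  have h1 : ∀ H : MvPolynomial (Fin 4) ℤ, toQ (sx H) =
      renameEquiv ℚ (Equiv.swap (0 : Fin 4) 1) (toQ H) := by
    intro H
    unfold sx
    rw [toQ, map_rename]
    rfl
  rw [h1, h1] at hd
  exact (map_dvd_iff (renameEquiv ℚ (Equiv.swap (0 : Fin 4) 1))).1 hd

lemma exists_pderiv {F : MvPolynomial (Fin 4) ℤ} {a b : ℕ} (hF : Bi F a b) (ha : 1 ≤ a)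
    (hirr : Irreducible (toQ F)) : pderiv 0 F ≠ 0 ∨ pderiv 1 F ≠ 0 := by
  by_contra hcon
  push Not at hcon
  have h1 := hF.1.sum_weight_X_mul_pderiv
  rw [Fin.sum_univ_four] at h1
  simp only [hcon.1, hcon.2, mul_zero, smul_zero, Matrix.cons_val_zero, Matrix.cons_val_one,
    Matrix.cons_val, zero_smul, add_zero] at h1
  have h2 : ((a : ℕ) : MvPolynomial (Fin 4) ℤ) * F = 0 := by
    rw [← nsmul_eq_mul]
    exact h1.symm
  rcases mul_eq_zero.1 h2 with h4 | h4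
  · rw [Nat.cast_eq_zero] at h4
    omega
  · exact hirr.ne_zero (by rw [h4, map_zero])

/-- **The radical of the value is large in every fibre.** -/
theorem fs_rad {F : MvPolynomial (Fin 4) ℤ} {a b : ℕ} (h : Bi F a b) (ha : 1 ≤ a)
    (hirr : Irreducible (toQ F)) :
    ∃ R : ℤ × ℤ → ℤ, IsRes R ∧ ∀ (Λ : ℝ), 0 ≤ Λ → ∀ (m : ℕ), 1 ≤ m →
      ((a : ℝ) + Λ * b < 2 * (m + 1)) → ∀ ε : ℝ, 0 < ε →
      FS (fun y => IsCoprime y.1 y.2 ∧ R y ≠ 0) Λ (fun B y x =>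
        (rd (val F x y).natAbs : ℝ) ^ m < (ht y : ℝ) ^ b * (B : ℝ) ^ ((a : ℝ) - ε)) := by
  obtain ⟨a, rfl⟩ : ∃ a', a = a' + 1 := ⟨a - 1, by omega⟩
  push_cast
  rcases exists_pderiv h ha hirr with h0 | h0
  · exact FS_rad h hirr h0
  · obtain ⟨R, hR, hR2⟩ := FS_rad (sx_bi h) (sx_irr hirr) (sx_pderiv h0)
    refine ⟨R, hR, fun Λ hΛ m hm1 hm ε hε => ?_⟩
    refine (hR2 Λ hΛ m hm1 hm ε hε).swap.mono ?_
    intro B y x _ _ _ _ _ h1
    show (rd (val (sx F) (x.2, x.1) y).natAbs : ℝ) ^ m < _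
    rw [sx_val]
    exact h1

/-- **Zeros are rare in every fibre.** -/
theorem fs_zero {F : MvPolynomial (Fin 4) ℤ} {a b : ℕ} (h : Bi F a b) (ha : 1 ≤ a)
    (hirr : Irreducible (toQ F)) (Λ : ℝ) :
    FS (fun y => IsCoprime y.1 y.2) Λ (fun B y x => val F x y = 0) := by
  have key : ∀ G : MvPolynomial (Fin 4) ℤ, Bi G a b → Irreducible (toQ G) → pderiv 0 G ≠ 0 →
      FS (fun y => IsCoprime y.1 y.2) Λ (fun B y x => val G x y = 0) := by
    intro G hG hGi hG0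
    have haR : (1 : ℝ) ≤ a := by exact_mod_cast ha
    refine (FS_small hG ha hGi hG0 Λ one_pos haR).mono ?_
    intro B y x hB hy hyB hx hco h1
    rw [h1, Int.natAbs_zero, Nat.cast_zero]
    positivity
  rcases exists_pderiv h ha hirr with h0 | h0
  · exact key F h hirr h0
  · refine (key (sx F) (sx_bi h) (sx_irr hirr) (sx_pderiv h0)).swap.mono ?_
    intro B y x _ _ _ _ _ h1
    show val (sx F) (x.2, x.1) y = 0
    rw [sx_val]
    exact h1

lemma rd_primes {w p : ℕ} (hp : p.Prime) (h : p ∣ rd w) : p ∣ w := by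
  unfold rd at h
  rw [hp.prime.dvd_finsetProd_iff] at h
  obtain ⟨q, hq, hpq⟩ := h
  rw [(Nat.prime_dvd_prime_iff_eq hp (Nat.prime_of_mem_primeFactors hq)).1 hpq]
  exact Nat.dvd_of_mem_primeFactors hq

/-- **Common divisors are small in every fibre.** -/
theorem fs_gcd {F G : MvPolynomial (Fin 4) ℤ} {a b a' b' : ℕ} (h : Bi F a b) (hG : Bi G a' b')
    (ha : 1 ≤ a) (hirr : Irreducible (toQ F)) (hnd : ¬ toQ F ∣ toQ G) :
    ∃ R : ℤ × ℤ → ℤ, IsRes R ∧ ∀ (Λ : ℝ), 0 ≤ Λ → ∀ η : ℝ, 0 < η → η ≤ 1 →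
      FS (fun y => IsCoprime y.1 y.2 ∧ R y ≠ 0) Λ (fun B y x => val F x y ≠ 0 ∧
        (B : ℝ) ^ η < rd (Int.gcd (val F x y) (val G x y))) := by
  have key : ∀ F' G' : MvPolynomial (Fin 4) ℤ, Bi F' a b → Bi G' a' b' → Irreducible (toQ F') →
      pderiv 0 F' ≠ 0 → ¬ toQ F' ∣ toQ G' →
      ∃ R : ℤ × ℤ → ℤ, IsRes R ∧ ∀ (Λ : ℝ), 0 ≤ Λ → ∀ η : ℝ, 0 < η → η ≤ 1 →
      FS (fun y => IsCoprime y.1 y.2 ∧ R y ≠ 0) Λ (fun B y x => val F' x y ≠ 0 ∧
        (B : ℝ) ^ η < rd (Int.gcd (val F' x y) (val G' x y))) := by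
    intro F' G' hF' hG' hirr' h0' hnd'
    obtain ⟨R, hR, hRp⟩ := prime_elim hF' hG' hirr' h0' hnd'
    refine ⟨R, hR, fun Λ hΛ η hη hη1 => ?_⟩
    refine (FS_part hF' hirr' h0' R hR Λ hΛ hη hη1).mono ?_
    rintro B y x hB ⟨hyc, hyR⟩ hyB hx hco ⟨h1, h2⟩
    refine ⟨h1, _, ?_, ?_, h2⟩
    · exact (Int.natCast_dvd_natCast.2 (rd_dvd _)).trans (Int.gcd_dvd_left _ _)
    · intro p hp hpr
      have h3 := Int.natCast_dvd_natCast.2 (rd_primes hp hpr)
      exact hRp p hp x y hco hyc (h3.trans (Int.gcd_dvd_left _ _))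
        (h3.trans (Int.gcd_dvd_right _ _))
  rcases exists_pderiv h ha hirr with h0 | h0
  · exact key F G h hG hirr h0 hnd
  · obtain ⟨R, hR, hR2⟩ := key (sx F) (sx G) (sx_bi h) (sx_bi hG) (sx_irr hirr) (sx_pderiv h0)
      (sx_dvd hnd)
    refine ⟨R, hR, fun Λ hΛ η hη hη1 => ?_⟩
    refine (hR2 Λ hΛ η hη hη1).swap.mono ?_
    intro B y x _ _ _ _ _ h1
    show val (sx F) (x.2, x.1) y ≠ 0 ∧
      (B : ℝ) ^ η < rd (Int.gcd (val (sx F) (x.2, x.1) y) (val (sx G) (x.2, x.1) y))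
    rw [sx_val, sx_val]
    exact h1

/-- points of small height are rare -/
lemma fs_height (Y : ℤ × ℤ → Prop) (Λ : ℝ) {η : ℝ} (hη : 0 < η) (hη1 : η ≤ 1) :
    FS Y Λ (fun B y x => (ht x : ℝ) ≤ (B : ℝ) ^ (1 - η)) := by
  refine ⟨2 * η, by positivity, 9, by norm_num, fun B hB y hy hyB => ?_⟩
  have hB1 : (1 : ℝ) ≤ B := by exact_mod_cast hB
  have hBpos : (0 : ℝ) < B := by linarith
  obtain ⟨q1, q2, q3⟩ := rpow_floor hB1 (show 0 ≤ 1 - η by linarith)
  set u : ℕ := ⌊(B : ℝ) ^ (1 - η)⌋₊ with hu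
  have h1 : (fset B fun x => (ht x : ℝ) ≤ (B : ℝ) ^ (1 - η)).ncard ≤ (bx u).card := by
    rw [← Set.ncard_coe_finset]
    refine Set.ncard_le_ncard ?_ (Finset.finite_toSet _)
    rintro x ⟨h1, h2, h3⟩
    rw [Finset.mem_coe, mem_bx]
    exact Nat.le_floor h3
  have h2 : ((fset B fun x => (ht x : ℝ) ≤ (B : ℝ) ^ (1 - η)).ncard : ℝ) ≤ (bx u).card := by
    exact_mod_cast h1
  refine h2.trans ((card_bx u q1).trans ?_)
  refine mul_le_mul_of_nonneg_left ?_ (by norm_num)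
  calc ((u : ℕ) : ℝ) ^ (2 : ℝ) ≤ ((B : ℝ) ^ (1 - η)) ^ (2 : ℝ) :=
        Real.rpow_le_rpow (Nat.cast_nonneg _) q2 (by norm_num)
    _ = _ := by
        rw [← Real.rpow_mul hBpos.le]
        congr 1
        ring

/-- a restriction of the height of `y` -/
lemma FS.restrict {Y : ℤ × ℤ → Prop} {Λ Λ' : ℝ} {P : ℕ → ℤ × ℤ → ℤ × ℤ → Prop}
    (h : FS Y Λ' P) : FS Y Λ (fun B y x => (ht y : ℝ) ≤ (B : ℝ) ^ Λ' ∧ P B y x) := by
  obtain ⟨c, hc, C, hC, h⟩ := h
  refine ⟨c, hc, C, hC, fun B hB y hy hyB => ?_⟩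
  by_cases hh : (ht y : ℝ) ≤ (B : ℝ) ^ Λ'
  · refine le_trans ?_ (h B hB y hy hh)
    exact_mod_cast fset_mono (P := fun x => (ht y : ℝ) ≤ (B : ℝ) ^ Λ' ∧ P B y x) (Q := P B y)
      (fun x _ _ h3 => h3.2)
  · have : (fset B fun x => (ht y : ℝ) ≤ (B : ℝ) ^ Λ' ∧ P B y x) = ∅ := by
      ext x
      simp only [fset, Set.mem_ofPred_eq, Set.mem_empty_iff_false, iff_false]
      rintro ⟨-, -, h, -⟩
      exact hh h
    rw [this, Set.ncard_empty, Nat.cast_zero]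
    positivity

/-! ### fibres of the second projection among the components -/

lemma lead_ne' {F : MvPolynomial (Fin 4) ℤ} {a b : ℕ} (hF : Bi F a b)
    (hex : ∃ d, coeff d F ≠ 0 ∧ d 1 = 0) :
    aeval (![1, 0, 1, Polynomial.X] : Fin 4 → Polynomial ℤ) F ≠ 0 := by
  classical
  obtain ⟨d, hd, hd1⟩ := hex
  intro hcon
  have h1 := congrArg (fun q => Polynomial.coeff q (d 3)) hcon
  simp only [Polynomial.coeff_zero] at h1
  rw [aeval_def, eval₂_eq', Polynomial.finsetSum_coeff,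
    Finset.sum_eq_single_of_mem d (mem_support_iff.2 hd)] at h1
  · simp only [Fin.prod_univ_four, Matrix.cons_val_zero, Matrix.cons_val_one, Matrix.cons_val,
      hd1, pow_zero, one_pow, one_mul, mul_one] at h1
    apply hd
    have h2 : (algebraMap ℤ (Polynomial ℤ)) (coeff d F) = Polynomial.C (coeff d F) := rfl
    rw [h2, Polynomial.coeff_C_mul, Polynomial.coeff_X_pow, if_pos rfl, mul_one] at h1
    exact h1
  · intro e he hne
    simp only [Fin.prod_univ_four, Matrix.cons_val_zero, Matrix.cons_val_one, Matrix.cons_val,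
      one_pow, one_mul, mul_one]
    have h2 : (algebraMap ℤ (Polynomial ℤ)) (coeff e F) = Polynomial.C (coeff e F) := rfl
    rw [h2, Polynomial.coeff_C_mul]
    by_cases he1 : e 1 = 0
    · rw [he1, pow_zero, one_mul, Polynomial.coeff_X_pow, if_neg, mul_zero]
      intro h3
      apply hne
      obtain ⟨k1, k2⟩ := hF.exps (mem_support_iff.mp he)
      obtain ⟨l1, l2⟩ := hF.exps hd
      ext i
      fin_cases i
      · show e 0 = d 0
        omega
      · show e 1 = d 1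
        omega
      · show e 2 = d 2
        omega
      · show e 3 = d 3
        omega
    · rw [zero_pow he1, zero_mul, Polynomial.coeff_zero, mul_zero]

lemma finite_fibre {F : MvPolynomial (Fin 4) ℤ} {b : ℕ} (hF : Bi F 0 b)
    (hirr : Irreducible (toQ F)) :
    {y : ℤ × ℤ | IsCoprime y.1 y.2 ∧ ∃ x : ℤ × ℤ, val F x y = 0}.Finite := by
  have hex : ∃ d, coeff d F ≠ 0 ∧ d 1 = 0 := by
    have hF0 : F ≠ 0 := by
      rintro rfl
      exact hirr.ne_zero (map_zero _)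
    obtain ⟨d, hd⟩ := MvPolynomial.ne_zero_iff.1 hF0
    exact ⟨d, hd, by have := (hF.exps hd).1; omega⟩
  refine (finite_root _ (lead_ne' hF hex)).subset ?_
  rintro y ⟨h1, x, h2⟩
  refine ⟨h1, ?_⟩
  by_cases hy : y.1 = 0
  · exact Or.inl hy
  right
  have hy' : ((y.1 : ℤ) : ℚ) ≠ 0 := by exact_mod_cast hy
  have hindep : ∀ x : ℤ × ℤ, val F x y = val F (1, 0) y := by
    intro x
    unfold val
    rw [eval_eq', eval_eq']
    refine Finset.sum_congr rfl fun d hd => ?_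
    obtain ⟨k1, -⟩ := hF.exps (mem_support_iff.mp hd)
    have e0 : d 0 = 0 := by omega
    have e1 : d 1 = 0 := by omega
    simp only [Fin.prod_univ_four, Matrix.cons_val_zero, Matrix.cons_val_one, Matrix.cons_val,
      e0, e1, pow_zero]
  rw [hindep] at h2
  have h3 := val_cast (k := ℚ) F (1, 0) y
  rw [h2, Int.cast_zero] at h3
  have h4 := scale4 hF (1 : ℚ) (y.1 : ℚ) 1 0 1 ((y.2 : ℚ) / y.1)
  rw [mul_div_cancel₀ _ hy', one_mul, mul_zero, mul_one] at h4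
  simp only [Int.cast_one, Int.cast_zero] at h3
  rw [← h3] at h4
  have h5 : Polynomial.aeval ((y.2 : ℚ) / y.1)
      (aeval (![1, 0, 1, Polynomial.X] : Fin 4 → Polynomial ℤ) F) =
      aeval ![1, 0, 1, (y.2 : ℚ) / y.1] F := by
    have h6 : ((Polynomial.aeval ((y.2 : ℚ) / y.1) : Polynomial ℤ →ₐ[ℤ] ℚ).comp
        (aeval (![1, 0, 1, Polynomial.X] : Fin 4 → Polynomial ℤ))) =
        aeval ![1, 0, 1, (y.2 : ℚ) / y.1] := by
      refine MvPolynomial.algHom_ext fun i => ?_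
      fin_cases i <;> simp
    exact DFunLike.congr_fun h6 F
  rw [h5]
  rcases mul_eq_zero.1 h4.symm with h7 | h7
  · rcases mul_eq_zero.1 h7 with h8 | h8
    · simp at h8
    · exact absurd h8 (pow_ne_zero _ hy')
  · exact h7

end Pool.Agent.Helper19K9.Fb
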