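import Pool.Agent.Helper19K9.Fb.Chart

/-!
The common prime divisors of two values divide a form in `y`.
-/

set_option autoImplicit false
set_option linter.all false
set_option maxHeartbeats 4000000

namespace Pool.Agent.Helper19K9.Fb

open MvPolynomial Pool.Agent.TH910.Voj Pool.Agent.Helper19K9.Sq

/-- the value at a pair of points -/
noncomputable def val (F : MvPolynomial (Fin 4) ℤ) (x y : ℤ × ℤ) : ℤ :=
  eval ![x.1, x.2, y.1, y.2] F

lemma val_cast {k : Type*} [CommRing k] (F : MvPolynomial (Fin 4) ℤ) (x y : ℤ × ℤ) :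
    ((val F x y : ℤ) : k) = aeval ![(x.1 : k), (x.2 : k), (y.1 : k), (y.2 : k)] F := by
  unfold val
  have h2 := MvPolynomial.eval₂_comp_left (Int.castRingHom k) (RingHom.id ℤ)
    ![x.1, x.2, y.1, y.2] F
  have h3 : (⇑(Int.castRingHom k) ∘ ![x.1, x.2, y.1, y.2] : Fin 4 → k) =
      ![(x.1 : k), (x.2 : k), (y.1 : k), (y.2 : k)] := by
    funext i
    fin_cases i <;> simp
  rw [h3] at h2
  exact h2

/-- exchange of the coordinates of `y` -/
noncomputable def sw (F : MvPolynomial (Fin 4) ℤ) : MvPolynomial (Fin 4) ℤ :=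
  rename (Equiv.swap (2 : Fin 4) 3) F

lemma sw_aeval {k : Type*} [CommRing k] (F : MvPolynomial (Fin 4) ℤ) (u v w z : k) :
    aeval ![u, v, w, z] (sw F) = aeval ![u, v, z, w] F := by
  unfold sw
  rw [aeval_rename]
  congr 1
  congr 1
  funext i
  fin_cases i <;> rfl

lemma sw_val (F : MvPolynomial (Fin 4) ℤ) (x y : ℤ × ℤ) :
    val (sw F) x (y.2, y.1) = val F x y := by
  have h1 := val_cast (k := ℤ) (sw F) x (y.2, y.1)
  have h2 := val_cast (k := ℤ) F x y
  rw [sw_aeval] at h1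
  simp only [Int.cast_id] at h1 h2
  rw [h1, h2]

lemma sw_bi {F : MvPolynomial (Fin 4) ℤ} {a b : ℕ} (h : Bi F a b) : Bi (sw F) a b := by
  refine Bi.of_exps fun d hd => ?_
  obtain ⟨u, hu, hu2⟩ := exps_rename _ hd
  obtain ⟨w1, w2⟩ := h.exps hu
  have e0 := hu2 0
  have e1 := hu2 1
  have e2 := hu2 2
  have e3 := hu2 3
  have f0 : (Equiv.swap (2 : Fin 4) 3) 0 = 0 := by decide
  have f1 : (Equiv.swap (2 : Fin 4) 3) 1 = 1 := by decide
  have f2 : (Equiv.swap (2 : Fin 4) 3) 2 = 3 := by decide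
  have f3 : (Equiv.swap (2 : Fin 4) 3) 3 = 2 := by decide
  rw [f0] at e0
  rw [f1] at e1
  rw [f2] at e2
  rw [f3] at e3
  omega

lemma sw_irr {F : MvPolynomial (Fin 4) ℤ} (h : Irreducible (toQ F)) : Irreducible (toQ (sw F)) :=
  irr_rename h _

lemma sw_pderiv (F : MvPolynomial (Fin 4) ℤ) : pderiv 0 (sw F) = sw (pderiv 0 F) := by
  have h3 := pderiv_rename (R := ℤ) (Equiv.swap (2 : Fin 4) 3).injective 0 F
  have f0 : (Equiv.swap (2 : Fin 4) 3) 0 = 0 := by decide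
  rw [f0] at h3
  exact h3

lemma sw_inj {F G : MvPolynomial (Fin 4) ℤ} (h : sw F = sw G) : F = G :=
  rename_injective _ (Equiv.swap (2 : Fin 4) 3).injective h

lemma sw_pderiv_ne {F : MvPolynomial (Fin 4) ℤ} (h : pderiv 0 F ≠ 0) : pderiv 0 (sw F) ≠ 0 := by
  rw [sw_pderiv]
  intro h0
  exact h (sw_inj (h0.trans (map_zero (rename _)).symm))

lemma sw_dvd {F G : MvPolynomial (Fin 4) ℤ} (h : ¬ toQ F ∣ toQ G) : ¬ toQ (sw F) ∣ toQ (sw G) := by
  intro hd
  apply h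
  have h1 : ∀ H : MvPolynomial (Fin 4) ℤ, toQ (sw H) =
      renameEquiv ℚ (Equiv.swap (2 : Fin 4) 3) (toQ H) := by
    intro H
    unfold sw
    rw [toQ, map_rename]
    rfl
  rw [h1, h1] at hd
  exact (map_dvd_iff (renameEquiv ℚ (Equiv.swap (2 : Fin 4) 3))).1 hd

/-! ### the leading coefficient -/

lemma exists_lead {F : MvPolynomial (Fin 4) ℤ} (hirr : Irreducible (toQ F))
    (h0 : pderiv 0 F ≠ 0) : ∃ d, coeff d F ≠ 0 ∧ d 1 = 0 := by
  by_contra hcon
  push Not at hcon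
  have h1 : (X 1 : MvPolynomial (Fin 4) ℤ) ∣ F := by
    rw [X_dvd_iff_modMonomial_eq_zero]
    refine MvPolynomial.ext _ _ fun d => ?_
    by_cases hd : Finsupp.single 1 1 ≤ d
    · rw [coeff_modMonomial_of_le _ hd, coeff_zero]
    · rw [coeff_modMonomial_of_not_le _ hd, coeff_zero]
      by_contra hne
      apply hcon d hne
      by_contra h1
      apply hd
      intro i
      by_cases hi : i = 1
      · subst hi
        simp
        omega
      · rw [Finsupp.single_apply, if_neg (Ne.symm hi)]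
        exact Nat.zero_le _
  obtain ⟨H, hH⟩ := h1
  have h2 : toQ F = X 1 * toQ H := by
    rw [hH, map_mul]
    congr 1
    simp [toQ]
  rcases hirr.isUnit_or_isUnit h2 with h3 | h3
  · exact (MvPolynomial.X_prime (R := ℚ) (i := (1 : Fin 4))).not_isUnit h3
  · rw [MvPolynomial.isUnit_iff_eq_C_of_isReduced] at h3
    obtain ⟨r, hr, hr2⟩ := h3
    apply h0
    apply toQ_injective
    rw [map_zero]
    have h4 : toQ (pderiv 0 F) = pderiv 0 (toQ F) := by rw [toQ, pderiv_map]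
    rw [h4, h2, hr2, pderiv_mul, pderiv_C, pderiv_X]
    simp

lemma lead_ne {F : MvPolynomial (Fin 4) ℤ} {a b : ℕ} (hF : Bi F a b)
    (hirr : Irreducible (toQ F)) (h0 : pderiv 0 F ≠ 0) :
    aeval (![1, 0, 1, Polynomial.X] : Fin 4 → Polynomial ℤ) F ≠ 0 := by
  classical
  obtain ⟨d, hd, hd1⟩ := exists_lead hirr h0
  intro hcon
  have h1 := congrArg (fun q => Polynomial.coeff q (d 3)) hcon
  simp only [Polynomial.coeff_zero] at h1
  rw [aeval_def, eval₂_eq', Polynomial.finsetSum_coeff,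
    Finset.sum_eq_single_of_mem d (mem_support_iff.2 hd)] at h1
  · simp only [Fin.prod_univ_four, Matrix.cons_val_zero, Matrix.cons_val_one, Matrix.cons_val,
      hd1, pow_zero, one_pow, one_mul, mul_one] at h1
    apply hd
    have h2 : (algebraMap ℤ (Polynomial ℤ)) (coeff d F) = Polynomial.C (coeff d F) := rfl
    rw [h2, Polynomial.coeff_C_mul, Polynomial.coeff_X_pow, if_pos rfl, mul_one] at h1
    exact h1
  · intro e he hne
    simp only [Fin.prod_univ_four, Matrix.cons_val_zero, Matrix.cons_val_one, Matrix.cons_val,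
      one_pow, one_mul, mul_one]
    have h2 : (algebraMap ℤ (Polynomial ℤ)) (coeff e F) = Polynomial.C (coeff e F) := rfl
    rw [h2, Polynomial.coeff_C_mul]
    by_cases he1 : e 1 = 0
    · rw [he1, pow_zero, one_mul, Polynomial.coeff_X_pow, if_neg, mul_zero]
      intro h3
      apply hne
      obtain ⟨k1, k2⟩ := hF.exps (mem_support_iff.mp he)
      obtain ⟨l1, l2⟩ := hF.exps hd
      ext i
      fin_cases i
      · show e 0 = d 0
        omega
      · show e 1 = d 1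
        omega
      · show e 2 = d 2
        omega
      · show e 3 = d 3
        omega
    · rw [zero_pow he1, zero_mul, Polynomial.coeff_zero, mul_zero]

lemma finite_root (ρ : Polynomial ℤ) (hρ : ρ ≠ 0) :
    {y : ℤ × ℤ | IsCoprime y.1 y.2 ∧ (y.1 = 0 ∨
      Polynomial.aeval ((y.2 : ℚ) / y.1) ρ = 0)}.Finite := by
  classical
  set R := (ρ.map (Int.castRingHom ℚ)).roots.toFinset with hR
  have hρQ : ρ.map (Int.castRingHom ℚ) ≠ 0 :=
    (Polynomial.map_ne_zero_iff Int.cast_injective).2 hρ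
  refine Set.Finite.subset (finite_fst.union (R.finite_toSet.biUnion fun q _ => finite_ratio q)) ?_
  rintro y ⟨h1, h2⟩
  by_cases h0 : y.1 = 0
  · exact Or.inl ⟨h1, h0⟩
  · right
    have h0' : ((y.1 : ℤ) : ℚ) ≠ 0 := by exact_mod_cast h0
    have h4 := h2.resolve_left h0
    rw [Set.mem_iUnion₂]
    refine ⟨(y.2 : ℚ) / y.1, ?_, h1, ?_⟩
    · rw [Finset.mem_coe, hR, Multiset.mem_toFinset, Polynomial.mem_roots hρQ, Polynomial.IsRoot,
        Polynomial.eval_map]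
      exact h4
    · rw [div_mul_cancel₀ _ h0']

lemma finite_lead {F : MvPolynomial (Fin 4) ℤ} {a b : ℕ} (hF : Bi F a b)
    (hirr : Irreducible (toQ F)) (h0 : pderiv 0 F ≠ 0) :
    {y : ℤ × ℤ | IsCoprime y.1 y.2 ∧ val F (1, 0) y = 0}.Finite := by
  refine (finite_root _ (lead_ne hF hirr h0)).subset ?_
  rintro y ⟨h1, h2⟩
  refine ⟨h1, ?_⟩
  by_cases hy : y.1 = 0
  · exact Or.inl hy
  right
  have hy' : ((y.1 : ℤ) : ℚ) ≠ 0 := by exact_mod_cast hy
  have h3 := val_cast (k := ℚ) F (1, 0) y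
  rw [h2, Int.cast_zero] at h3
  have h4 := scale4 hF (1 : ℚ) (y.1 : ℚ) 1 0 1 ((y.2 : ℚ) / y.1)
  rw [mul_div_cancel₀ _ hy', one_mul, mul_zero, mul_one] at h4
  simp only [Int.cast_one, Int.cast_zero] at h3
  rw [← h3] at h4
  have h5 : Polynomial.aeval ((y.2 : ℚ) / y.1)
      (aeval (![1, 0, 1, Polynomial.X] : Fin 4 → Polynomial ℤ) F) =
      aeval ![1, 0, 1, (y.2 : ℚ) / y.1] F := by
    have h6 : ((Polynomial.aeval ((y.2 : ℚ) / y.1) : Polynomial ℤ →ₐ[ℤ] ℚ).comp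
        (aeval (![1, 0, 1, Polynomial.X] : Fin 4 → Polynomial ℤ))) =
        aeval ![1, 0, 1, (y.2 : ℚ) / y.1] := by
      refine MvPolynomial.algHom_ext fun i => ?_
      fin_cases i <;> simp
    exact DFunLike.congr_fun h6 F
  rw [h5]
  rcases mul_eq_zero.1 h4.symm with h7 | h7
  · rcases mul_eq_zero.1 h7 with h8 | h8
    · simp at h8
    · exact absurd h8 (pow_ne_zero _ hy')
  · exact h7

lemma val_bound (F : MvPolynomial (Fin 4) ℤ) : ∃ C K : ℕ, ∀ x y : ℤ × ℤ, IsCoprime y.1 y.2 →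
    ht x ≤ 1 → (val F x y).natAbs ≤ C * ht y ^ K := by
  obtain ⟨c, hc, h⟩ := exists_eval_bound F le_rfl
  refine ⟨c, _, fun x y hy hx => h (ht y) (ht_pos hy) _ ?_⟩
  rw [mem_box]
  have h1 := (ht_le (x := y) (B := ht y)).1 le_rfl
  have h2 := (ht_le (x := x) (B := ht y)).1 (hx.trans (ht_pos hy))
  intro i
  fin_cases i
  · exact h2.1
  · exact h2.2
  · exact h1.1
  · exact h1.2

/-- the properties of a function that bounds the common prime divisors -/
def IsRes (R : ℤ × ℤ → ℤ) : Prop :=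
  {y : ℤ × ℤ | IsCoprime y.1 y.2 ∧ R y = 0}.Finite ∧
    ∃ C K : ℕ, ∀ y : ℤ × ℤ, IsCoprime y.1 y.2 → (R y).natAbs ≤ C * ht y ^ K

theorem prime_elim {F G : MvPolynomial (Fin 4) ℤ} {a b a' b' : ℕ} (hF : Bi F a b)
    (hG : Bi G a' b') (hirr : Irreducible (toQ F)) (h0 : pderiv 0 F ≠ 0)
    (hnd : ¬ toQ F ∣ toQ G) :
    ∃ R : ℤ × ℤ → ℤ, IsRes R ∧ ∀ p : ℕ, p.Prime → ∀ x y : ℤ × ℤ, IsCoprime x.1 x.2 →
      IsCoprime y.1 y.2 → (p : ℤ) ∣ val F x y → (p : ℤ) ∣ val G x y → (p : ℤ) ∣ R y := by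
  obtain ⟨ρ, hρ0, hρ⟩ := chart_elim hF hG hirr h0 hnd
  obtain ⟨ρ', hρ'0, hρ'⟩ := chart_elim (sw_bi hF) (sw_bi hG) (sw_irr hirr) (sw_pderiv_ne h0)
    (sw_dvd hnd)
  refine ⟨fun y => hz ρ y * hz ρ' (y.2, y.1) * val F (1, 0) y, ⟨?_, ?_⟩, ?_⟩
  · refine Set.Finite.subset (((finite_hz ρ hρ0).union ((finite_hz ρ' hρ'0).preimage
      (Set.injOn_of_injective (f := fun y : ℤ × ℤ => (y.2, y.1)) (fun u v huv => by
        rw [Prod.mk.injEq] at huv
        exact Prod.ext huv.2 huv.1)))).union (finite_lead hF hirr h0)) ?_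
    rintro y ⟨h1, h2⟩
    rcases mul_eq_zero.1 h2 with h3 | h3
    · rcases mul_eq_zero.1 h3 with h4 | h4
      · exact Or.inl (Or.inl ⟨h1, h4⟩)
      · exact Or.inl (Or.inr ⟨h1.symm, h4⟩)
    · exact Or.inr ⟨h1, h3⟩
  · obtain ⟨C₁, K₁, h1⟩ := hz_bound ρ
    obtain ⟨C₂, K₂, h2⟩ := hz_bound ρ'
    obtain ⟨C₃, K₃, h3⟩ := val_bound F
    refine ⟨C₁ * C₂ * C₃, K₁ + K₂ + K₃, fun y hy => ?_⟩
    rw [Int.natAbs_mul, Int.natAbs_mul]
    have e1 := h1 y hy
    have e2 := h2 (y.2, y.1) hy.symm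
    have e3 := h3 (1, 0) y hy (by unfold ht; decide)
    have e4 : ht (y.2, y.1) = ht y := by unfold ht; exact max_comm _ _
    rw [e4] at e2
    calc (hz ρ y).natAbs * (hz ρ' (y.2, y.1)).natAbs * (val F (1, 0) y).natAbs ≤
          (C₁ * ht y ^ K₁) * (C₂ * ht y ^ K₂) * (C₃ * ht y ^ K₃) :=
          Nat.mul_le_mul (Nat.mul_le_mul e1 e2) e3
      _ = _ := by rw [pow_add, pow_add]; ring
  · intro p hp x y hx hy hpF hpG
    haveI : Fact p.Prime := ⟨hp⟩
    have key : ∀ z : ℤ, (p : ℤ) ∣ z ↔ ((z : ℤ) : ZMod p) = 0 := fun z =>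
      (ZMod.intCast_zmod_eq_zero_iff_dvd z p).symm
    rw [key, Int.cast_mul, Int.cast_mul]
    rw [key, val_cast] at hpF hpG
    have hnot : ∀ u v : ℤ, IsCoprime u v → ((u : ℤ) : ZMod p) = 0 → ((v : ℤ) : ZMod p) ≠ 0 := by
      intro u v huv hu hv
      obtain ⟨s, t, hst⟩ := huv
      have := congrArg (fun z : ℤ => (z : ZMod p)) hst
      simp only [Int.cast_add, Int.cast_mul, hu, hv, mul_zero, add_zero, Int.cast_one] at this
      exact zero_ne_one this
    by_cases hx2 : ((x.2 : ℤ) : ZMod p) = 0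
    · -- the leading coefficient
      have hx1 := hnot x.2 x.1 hx.symm hx2
      have h1 := scale4 hF ((x.1 : ℤ) : ZMod p) (1 : ZMod p) 1 0 ((y.1 : ℤ) : ZMod p)
        ((y.2 : ℤ) : ZMod p)
      rw [mul_one, mul_zero, one_mul, one_mul] at h1
      rw [hx2] at hpF
      rw [hpF] at h1
      have h2 : ((val F (1, 0) y : ℤ) : ZMod p) = 0 := by
        rw [val_cast]
        rcases mul_eq_zero.1 h1.symm with h3 | h3
        · rcases mul_eq_zero.1 h3 with h4 | h4
          · exact absurd h4 (pow_ne_zero _ hx1)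
          · simp at h4
        · simpa using h3
      rw [h2, mul_zero]
    by_cases hy1 : ((y.1 : ℤ) : ZMod p) = 0
    · have hy2 := hnot y.1 y.2 hy hy1
      have hval : ∀ (H : MvPolynomial (Fin 4) ℤ) (c d : ℕ), Bi H c d →
          aeval ![((x.1 : ℤ) : ZMod p), ((x.2 : ℤ) : ZMod p), ((y.1 : ℤ) : ZMod p),
            ((y.2 : ℤ) : ZMod p)] H = 0 →
          aeval ![((x.1 : ℤ) : ZMod p) / ((x.2 : ℤ) : ZMod p), 1, 1,
            ((y.1 : ℤ) : ZMod p) / ((y.2 : ℤ) : ZMod p)] (sw H) = 0 := by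
        intro H c d hH h1
        rw [sw_aeval]
        have h2 := scale4 hH ((x.2 : ℤ) : ZMod p) ((y.2 : ℤ) : ZMod p)
          (((x.1 : ℤ) : ZMod p) / ((x.2 : ℤ) : ZMod p)) 1
          (((y.1 : ℤ) : ZMod p) / ((y.2 : ℤ) : ZMod p)) 1
        rw [mul_div_cancel₀ _ hx2, mul_div_cancel₀ _ hy2, mul_one, mul_one, h1] at h2
        rcases mul_eq_zero.1 h2.symm with h3 | h3
        · rcases mul_eq_zero.1 h3 with h4 | h4
          · exact absurd h4 (pow_ne_zero _ hx2)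
          · exact absurd h4 (pow_ne_zero _ hy2)
        · exact h3
      have h1 := hρ' (ZMod p) _ _ (hval F a b hF hpF) (hval G a' b' hG hpG)
      have h2 := hz_cast (k := ZMod p) ρ' (y.2, y.1) hy2
      rw [h1, zero_mul] at h2
      rw [h2, mul_zero, zero_mul]
    · have hval : ∀ (H : MvPolynomial (Fin 4) ℤ) (c d : ℕ), Bi H c d →
          aeval ![((x.1 : ℤ) : ZMod p), ((x.2 : ℤ) : ZMod p), ((y.1 : ℤ) : ZMod p),
            ((y.2 : ℤ) : ZMod p)] H = 0 →
          aeval ![((x.1 : ℤ) : ZMod p) / ((x.2 : ℤ) : ZMod p), 1, 1,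
            ((y.2 : ℤ) : ZMod p) / ((y.1 : ℤ) : ZMod p)] H = 0 := by
        intro H c d hH h1
        have h2 := scale4 hH ((x.2 : ℤ) : ZMod p) ((y.1 : ℤ) : ZMod p)
          (((x.1 : ℤ) : ZMod p) / ((x.2 : ℤ) : ZMod p)) 1 1
          (((y.2 : ℤ) : ZMod p) / ((y.1 : ℤ) : ZMod p))
        rw [mul_div_cancel₀ _ hx2, mul_div_cancel₀ _ hy1, mul_one, mul_one, h1] at h2
        rcases mul_eq_zero.1 h2.symm with h3 | h3
        · rcases mul_eq_zero.1 h3 with h4 | h4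
          · exact absurd h4 (pow_ne_zero _ hx2)
          · exact absurd h4 (pow_ne_zero _ hy1)
        · exact h3
      have h1 := hρ (ZMod p) _ _ (hval F a b hF hpF) (hval G a' b' hG hpG)
      have h2 := hz_cast (k := ZMod p) ρ y hy1
      rw [h1, zero_mul] at h2
      rw [h2, zero_mul, zero_mul]

end Pool.Agent.Helper19K9.Fb
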