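import Pool.Agent.Helper19K9.Fb.Content

/-!
Primitive points at which a binary form is divisible by a large integer.
-/

set_option autoImplicit false
set_option linter.all false
set_option maxHeartbeats 4000000

namespace Pool.Agent.Helper19K9.Fb

open Pool.Agent.TH910.Voj Pool.Agent.Helper19K9.Sq

/-- the value of a binary form -/
def bf (a : ℕ) (c : ℕ → ℤ) (x : ℤ × ℤ) : ℤ :=
  ∑ i ∈ Finset.range (a + 1), c i * (x.1 ^ i * x.2 ^ (a - i))

def wd (x z : ℤ × ℤ) : ℤ := z.1 * x.2 - x.1 * z.2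

lemma pv_dvd (a : ℕ) (c : ℕ → ℤ) (z : Fin (a + 1) → ℤ × ℤ) (d : ℤ)
    (h : ∀ r, d ∣ bf a c (z r)) (j : Fin (a + 1)) :
    d ∣ (∏ r, ∏ s ∈ Finset.Ioi r, wd (z r) (z s)) * c j := by
  classical
  set V := Matrix.projVandermonde (fun r => (z r).1) (fun r => (z r).2) with hV
  have hdet : V.det = ∏ r, ∏ s ∈ Finset.Ioi r, wd (z r) (z s) := by
    rw [hV, Matrix.det_projVandermonde]
    rfl
  have hmul : ∀ r, (V.mulVec (fun i : Fin (a + 1) => c i)) r = bf a c (z r) := by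
    intro r
    unfold bf
    rw [← Fin.sum_univ_eq_sum_range (fun i => c i * ((z r).1 ^ i * (z r).2 ^ (a - i))) (a + 1)]
    show ∑ i : Fin (a + 1), V r i * c i = _
    refine Finset.sum_congr rfl fun i _ => ?_
    rw [hV, Matrix.projVandermonde_apply, mul_comm]
    have : ((Fin.rev i : Fin (a + 1)) : ℕ) = a - i := by
      rw [Fin.val_rev]; omega
    rw [this]
  have h1 : V.adjugate.mulVec (V.mulVec (fun i : Fin (a + 1) => c i)) = V.det • fun i : Fin (a + 1) => c i := by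
    rw [Matrix.mulVec_mulVec, Matrix.adjugate_mul, Matrix.smul_mulVec, Matrix.one_mulVec]
  have h2 := congrFun h1 j
  rw [Pi.smul_apply, smul_eq_mul, hdet] at h2
  rw [← h2]
  show d ∣ ∑ r, V.adjugate j r * (V.mulVec (fun i : Fin (a + 1) => c i)) r
  refine Finset.dvd_sum fun r _ => ?_
  rw [hmul]
  exact (h r).mul_left _

/-- points with close slopes -/
lemma few_close (a : ℕ) (c u : ℕ → ℤ) (N : ℤ) (hN : N ≠ 0)
    (hu : ∑ i ∈ Finset.range (a + 1), u i * c i = N) (d l : ℕ) (hl : 1 ≤ l)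
    (hd : N.natAbs * l ^ ((a + 1) * (a + 1)) < d) (P : Finset (ℤ × ℤ))
    (hP : ∀ x ∈ P, (d : ℤ) ∣ bf a c x) (hne : ∀ x ∈ P, ∀ z ∈ P, x ≠ z → wd x z ≠ 0)
    (hcl : ∀ x ∈ P, ∀ z ∈ P, (wd x z).natAbs ≤ l) : P.card ≤ a := by
  classical
  by_contra hcon
  have h1 : a + 1 ≤ P.card := by omega
  obtain ⟨P', hP'P, hP'⟩ := Finset.exists_subset_card_eq h1
  set e := (P'.equivFinOfCardEq hP').symm with he
  set z : Fin (a + 1) → ℤ × ℤ := fun i => (e i : ℤ × ℤ) with hz
  have hzP : ∀ i, z i ∈ P := fun i => hP'P (e i).2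
  have hzinj : Function.Injective z := Subtype.val_injective.comp e.injective
  set W := ∏ r, ∏ s ∈ Finset.Ioi r, wd (z r) (z s) with hW
  have hW0 : W ≠ 0 := by
    refine Finset.prod_ne_zero_iff.2 fun r _ => Finset.prod_ne_zero_iff.2 fun s hs => ?_
    refine hne _ (hzP r) _ (hzP s) fun h => ?_
    have := hzinj h
    rw [Finset.mem_Ioi] at hs
    omega
  have hdvd : (d : ℤ) ∣ W * N := by
    rw [← hu, Finset.mul_sum]
    refine Finset.dvd_sum fun i hi => ?_
    rw [Finset.mem_range] at hi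
    have := pv_dvd a c z d (fun r => hP _ (hzP r)) ⟨i, hi⟩
    have e1 : W * (u i * c i) = u i * (W * c i) := by ring
    rw [e1]
    exact this.mul_left _
  have h2 : d ≤ (W * N).natAbs :=
    Nat.le_of_dvd (Int.natAbs_pos.2 (mul_ne_zero hW0 hN)) (Int.natCast_dvd.1 hdvd)
  have h3 : W.natAbs ≤ l ^ ((a + 1) * (a + 1)) := by
    have h5 := map_prod Int.natAbsHom (fun r => ∏ s ∈ Finset.Ioi r, wd (z r) (z s)) Finset.univ
    have h6 : W.natAbs = ∏ r, ∏ s ∈ Finset.Ioi r, (wd (z r) (z s)).natAbs := by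
      refine h5.trans (Finset.prod_congr rfl fun r _ => ?_)
      exact map_prod Int.natAbsHom (fun s => wd (z r) (z s)) (Finset.Ioi r)
    rw [h6]
    calc ∏ r, ∏ s ∈ Finset.Ioi r, (wd (z r) (z s)).natAbs ≤ ∏ r : Fin (a + 1), l ^ (a + 1) := by
          refine Finset.prod_le_prod' fun r _ => ?_
          calc ∏ s ∈ Finset.Ioi r, (wd (z r) (z s)).natAbs ≤ ∏ s ∈ Finset.Ioi r, l :=
                Finset.prod_le_prod' fun s _ => hcl _ (hzP r) _ (hzP s)
            _ = l ^ (Finset.Ioi r).card := by rw [Finset.prod_const]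
            _ ≤ l ^ (a + 1) := by
                refine Nat.pow_le_pow_right hl ?_
                have := Finset.card_le_univ (Finset.Ioi r)
                rwa [Fintype.card_fin] at this
      _ = _ := by rw [Finset.prod_const, Finset.card_univ, Fintype.card_fin, ← pow_mul]
  rw [Int.natAbs_mul, mul_comm] at h2
  have h4 := Nat.mul_le_mul_left N.natAbs h3
  omega

lemma bucket (a : ℕ) (c u : ℕ → ℤ) (N : ℤ) (hN : N ≠ 0)
    (hu : ∑ i ∈ Finset.range (a + 1), u i * c i = N) (d l : ℕ) (hl : 1 ≤ l)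
    (hd : N.natAbs * l ^ ((a + 1) * (a + 1)) < d) (B : ℕ) (hB : 1 ≤ B) (P : Finset (ℤ × ℤ))
    (hP : ∀ x ∈ P, (d : ℤ) ∣ bf a c x) (hne : ∀ x ∈ P, ∀ z ∈ P, x ≠ z → wd x z ≠ 0)
    (σ : ℤ × ℤ → ℝ) (hσ : ∀ x ∈ P, |σ x| ≤ 1)
    (hw : ∀ x ∈ P, ∀ z ∈ P, |(wd x z : ℝ)| ≤ (B : ℝ) ^ 2 * |σ x - σ z|) :
    (P.card : ℝ) ≤ a * (2 * ((B : ℝ) ^ 2 / l) + 2) := by
  classical
  set T : ℝ := (B : ℝ) ^ 2 / l with hT
  have hl0 : (0 : ℝ) < l := by exact_mod_cast hl
  have hT0 : 0 ≤ T := by positivity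
  have h1 := Finset.card_le_mul_card_image_of_maps_to (s := P) (f := fun x => ⌊σ x * T⌋)
    (t := Finset.Icc (⌊-T⌋) ⌊T⌋) (by
      intro x hx
      have h2 := abs_le.1 (hσ x hx)
      rw [Finset.mem_Icc]
      constructor
      · exact Int.floor_le_floor (by nlinarith)
      · exact Int.floor_le_floor (by nlinarith)) a (by
      intro j _
      refine few_close a c u N hN hu d l hl hd _ (fun x hx => hP x (Finset.mem_filter.1 hx).1)
        (fun x hx z hz => hne x (Finset.mem_filter.1 hx).1 z (Finset.mem_filter.1 hz).1) ?_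
      intro x hx z hz
      rw [Finset.mem_filter] at hx hz
      have f1 := Int.floor_eq_iff.1 hx.2
      have f2 := Int.floor_eq_iff.1 hz.2
      have f3 : |σ x * T - σ z * T| ≤ 1 := by
        rw [abs_le]
        constructor <;> linarith
      have f4 : |σ x - σ z| * T ≤ 1 := by
        rw [← sub_mul, abs_mul, abs_of_nonneg hT0] at f3
        exact f3
      have f5 := hw x hx.1 z hz.1
      have f6 : (B : ℝ) ^ 2 * |σ x - σ z| = l * (|σ x - σ z| * T) := by
        rw [hT]; field_simp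
      rw [f6] at f5
      have f7 : |(wd x z : ℝ)| ≤ l := f5.trans (by nlinarith)
      rw [← Int.cast_abs, Int.abs_eq_natAbs] at f7
      exact_mod_cast f7)
  have h2 : ((Finset.Icc (⌊-T⌋) ⌊T⌋).card : ℝ) ≤ 2 * T + 2 := by
    rw [Int.card_Icc]
    have g1 := Int.sub_one_lt_floor (-T)
    have g2 := Int.floor_le T
    have g3 : ((⌊T⌋ + 1 - ⌊-T⌋).toNat : ℝ) = ((⌊T⌋ + 1 - ⌊-T⌋ : ℤ) : ℝ) := by
      have : 0 ≤ ⌊T⌋ + 1 - ⌊-T⌋ := by
        have := Int.floor_le_floor (show -T ≤ T by linarith)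
        omega
      rw [← Int.cast_natCast, Int.toNat_of_nonneg this]
    rw [g3]
    push_cast
    linarith
  have h3 : (P.card : ℝ) ≤ a * (Finset.Icc (⌊-T⌋) ⌊T⌋).card := by exact_mod_cast h1
  exact h3.trans (mul_le_mul_of_nonneg_left h2 (Nat.cast_nonneg _))

lemma wd_eq_zero {x z : ℤ × ℤ} (hx : IsCoprime x.1 x.2) (hz : IsCoprime z.1 z.2)
    (h : wd x z = 0) : x = z ∨ x = -z := by
  unfold wd at h
  exact eq_or_neg hx hz (by linarith)

/-- **Points at which a binary form of bounded content is divisible by `d`.** -/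
theorem proj_card (a : ℕ) (c u : ℕ → ℤ) (N : ℤ) (hN : N ≠ 0)
    (hu : ∑ i ∈ Finset.range (a + 1), u i * c i = N) (d l : ℕ) (hl : 1 ≤ l)
    (hd : N.natAbs * l ^ ((a + 1) * (a + 1)) < d) (B : ℕ) (hB : 1 ≤ B) (P : Finset (ℤ × ℤ))
    (hP : ∀ x ∈ P, ht x ≤ B ∧ IsCoprime x.1 x.2 ∧ (d : ℤ) ∣ bf a c x) :
    (P.card : ℝ) ≤ 8 * a * ((B : ℝ) ^ 2 / l + 1) := by
  classical
  set P1 := P.filter fun x => x.2.natAbs ≤ x.1.natAbs ∧ 0 < x.1 with hP1
  set P2 := P.filter fun x => x.2.natAbs ≤ x.1.natAbs ∧ x.1 < 0 with hP2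
  set P3 := P.filter fun x => x.1.natAbs ≤ x.2.natAbs ∧ 0 < x.2 with hP3
  set P4 := P.filter fun x => x.1.natAbs ≤ x.2.natAbs ∧ x.2 < 0 with hP4
  have hcov : P ⊆ (P1 ∪ P2) ∪ (P3 ∪ P4) := by
    intro x hx
    have hpos := ht_pos (hP x hx).2.1
    unfold ht at hpos
    simp only [Finset.mem_union, hP1, hP2, hP3, hP4, Finset.mem_filter, hx, true_and]
    rcases le_total x.2.natAbs x.1.natAbs with h | h
    · rw [max_eq_left h] at hpos
      rcases lt_trichotomy x.1 0 with h1 | h1 | h1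
      · exact Or.inl (Or.inr ⟨h, h1⟩)
      · rw [h1] at hpos; simp at hpos
      · exact Or.inl (Or.inl ⟨h, h1⟩)
    · rw [max_eq_right h] at hpos
      rcases lt_trichotomy x.2 0 with h1 | h1 | h1
      · exact Or.inr (Or.inr ⟨h, h1⟩)
      · rw [h1] at hpos; simp at hpos
      · exact Or.inr (Or.inl ⟨h, h1⟩)
  have hB2 : ∀ x ∈ P, |(x.1 : ℝ)| ≤ B ∧ |(x.2 : ℝ)| ≤ B := by
    intro x hx
    have := ht_le.1 (hP x hx).1
    exact ⟨by exact_mod_cast this.1, by exact_mod_cast this.2⟩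
  have prodB : ∀ s t : ℝ, |s| ≤ B → |t| ≤ B → |s * t| ≤ (B : ℝ) ^ 2 := by
    intro s t hs ht'
    rw [abs_mul, sq]
    exact mul_le_mul hs ht' (abs_nonneg _) (Nat.cast_nonneg _)
  have case1 : ∀ Q : Finset (ℤ × ℤ), Q ⊆ P → (∀ x ∈ Q, x.2.natAbs ≤ x.1.natAbs ∧ x.1 ≠ 0) →
      (∀ x ∈ Q, ∀ z ∈ Q, x ≠ -z) → (Q.card : ℝ) ≤ a * (2 * ((B : ℝ) ^ 2 / l) + 2) := by
    intro Q hQP hQ hQs
    refine bucket a c u N hN hu d l hl hd B hB Q (fun x hx => (hP x (hQP hx)).2.2) ?_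
      (fun x => (x.2 : ℝ) / x.1) ?_ ?_
    · intro x hx z hz hne h0
      rcases wd_eq_zero (hP x (hQP hx)).2.1 (hP z (hQP hz)).2.1 h0 with h | h
      · exact hne h
      · exact hQs x hx z hz h
    · intro x hx
      obtain ⟨h1, h2⟩ := hQ x hx
      have h3 : (0 : ℝ) < |(x.1 : ℝ)| := abs_pos.2 (by exact_mod_cast h2)
      rw [abs_div, div_le_one h3, ← Int.cast_abs, ← Int.cast_abs, Int.abs_eq_natAbs,
        Int.abs_eq_natAbs]
      exact_mod_cast h1
    · intro x hx z hz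
      have h2 : (x.1 : ℝ) ≠ 0 := by exact_mod_cast (hQ x hx).2
      have h2' : (z.1 : ℝ) ≠ 0 := by exact_mod_cast (hQ z hz).2
      have e : ((wd x z : ℤ) : ℝ) = (x.1 * z.1) * ((x.2 : ℝ) / x.1 - z.2 / z.1) := by
        unfold wd
        push_cast
        field_simp
      rw [e, abs_mul]
      exact mul_le_mul_of_nonneg_right (prodB _ _ (hB2 x (hQP hx)).1 (hB2 z (hQP hz)).1)
        (abs_nonneg _)
  have case2 : ∀ Q : Finset (ℤ × ℤ), Q ⊆ P → (∀ x ∈ Q, x.1.natAbs ≤ x.2.natAbs ∧ x.2 ≠ 0) →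
      (∀ x ∈ Q, ∀ z ∈ Q, x ≠ -z) → (Q.card : ℝ) ≤ a * (2 * ((B : ℝ) ^ 2 / l) + 2) := by
    intro Q hQP hQ hQs
    refine bucket a c u N hN hu d l hl hd B hB Q (fun x hx => (hP x (hQP hx)).2.2) ?_
      (fun x => (x.1 : ℝ) / x.2) ?_ ?_
    · intro x hx z hz hne h0
      rcases wd_eq_zero (hP x (hQP hx)).2.1 (hP z (hQP hz)).2.1 h0 with h | h
      · exact hne h
      · exact hQs x hx z hz h
    · intro x hx
      obtain ⟨h1, h2⟩ := hQ x hx
      have h3 : (0 : ℝ) < |(x.2 : ℝ)| := abs_pos.2 (by exact_mod_cast h2)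
      rw [abs_div, div_le_one h3, ← Int.cast_abs, ← Int.cast_abs, Int.abs_eq_natAbs,
        Int.abs_eq_natAbs]
      exact_mod_cast h1
    · intro x hx z hz
      have h2 : (x.2 : ℝ) ≠ 0 := by exact_mod_cast (hQ x hx).2
      have h2' : (z.2 : ℝ) ≠ 0 := by exact_mod_cast (hQ z hz).2
      have e : ((wd x z : ℤ) : ℝ) = -((x.2 * z.2) * ((x.1 : ℝ) / x.2 - z.1 / z.2)) := by
        unfold wd
        push_cast
        field_simp
        ring
      rw [e, abs_neg, abs_mul]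
      exact mul_le_mul_of_nonneg_right (prodB _ _ (hB2 x (hQP hx)).2 (hB2 z (hQP hz)).2)
        (abs_nonneg _)
  have c1 := case1 P1 (Finset.filter_subset _ _) (fun x hx => by
    have := (Finset.mem_filter.1 hx).2
    exact ⟨this.1, this.2.ne'⟩) (fun x hx z hz h => by
      have h1 := (Finset.mem_filter.1 hx).2.2
      have h2 := (Finset.mem_filter.1 hz).2.2
      rw [h, Prod.fst_neg] at h1
      omega)
  have c2 := case1 P2 (Finset.filter_subset _ _) (fun x hx => by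
    have := (Finset.mem_filter.1 hx).2
    exact ⟨this.1, this.2.ne⟩) (fun x hx z hz h => by
      have h1 := (Finset.mem_filter.1 hx).2.2
      have h2 := (Finset.mem_filter.1 hz).2.2
      rw [h, Prod.fst_neg] at h1
      omega)
  have c3 := case2 P3 (Finset.filter_subset _ _) (fun x hx => by
    have := (Finset.mem_filter.1 hx).2
    exact ⟨this.1, this.2.ne'⟩) (fun x hx z hz h => by
      have h1 := (Finset.mem_filter.1 hx).2.2
      have h2 := (Finset.mem_filter.1 hz).2.2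
      rw [h, Prod.snd_neg] at h1
      omega)
  have c4 := case2 P4 (Finset.filter_subset _ _) (fun x hx => by
    have := (Finset.mem_filter.1 hx).2
    exact ⟨this.1, this.2.ne⟩) (fun x hx z hz h => by
      have h1 := (Finset.mem_filter.1 hx).2.2
      have h2 := (Finset.mem_filter.1 hz).2.2
      rw [h, Prod.snd_neg] at h1
      omega)
  have h1 : P.card ≤ (P1.card + P2.card) + (P3.card + P4.card) :=
    (Finset.card_le_card hcov).trans ((Finset.card_union_le _ _).trans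
      (Nat.add_le_add (Finset.card_union_le _ _) (Finset.card_union_le _ _)))
  have h2 : (P.card : ℝ) ≤ (P1.card + P2.card) + (P3.card + P4.card) := by exact_mod_cast h1
  linarith

end Pool.Agent.Helper19K9.Fb
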