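import Pool.Agent.Helper19K9.Fb.Small

/-!
The radical of the value is large in every fibre.
-/

set_option autoImplicit false
set_option linter.all false
set_option maxHeartbeats 4000000

namespace Pool.Agent.Helper19K9.Fb

open MvPolynomial Pool.Agent.TH910.Voj Pool.Agent.Helper19K9.Sq Pool.Agent.H813R3.Voj

lemma arith_core {n m : ℕ} (hn0 : n ≠ 0) (hm1 : 1 ≤ m) (V : ℤ) {L U : ℝ} (hL : 1 ≤ L)
    (hLU : L ^ 2 ≤ U)
    (hw : ∀ w : ℕ, w ∣ n → (∀ p : ℕ, p.Prime → p ∣ w → (p : ℤ) ∣ V) → (w : ℝ) ≤ L)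
    (hno : ∀ s : ℕ, Pw s → s ∣ n → IsCoprime (s : ℤ) V → (s : ℝ) < L ∨ U < s)
    (hnU : (n : ℝ) ^ 2 < U ^ (m + 1)) : (n : ℝ) ≤ L * (L * (rd n : ℝ) ^ m) := by
  classical
  set w := ∏ p ∈ n.primeFactors.filter (fun p : ℕ => (p : ℤ) ∣ V),
    p ^ n.factorization p with hwd
  set n' := ∏ p ∈ n.primeFactors.filter (fun p : ℕ => ¬ (p : ℤ) ∣ V),
    p ^ n.factorization p with hn'
  have hwn : w * n' = n := by
    rw [hwd, hn', Finset.prod_filter_mul_prod_filter_not]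
    exact Nat.prod_factorization_pow_eq_self hn0
  have hw0 : w ≠ 0 := by rintro h; rw [h, zero_mul] at hwn; exact hn0 hwn.symm
  have hn'0 : n' ≠ 0 := by rintro h; rw [h, mul_zero] at hwn; exact hn0 hwn.symm
  have hpw : ∀ p : ℕ, p.Prime → p ∣ w → (p : ℤ) ∣ V := by
    intro p hp hpd
    rw [hwd, hp.prime.dvd_finsetProd_iff] at hpd
    obtain ⟨q, hq, hpq⟩ := hpd
    rw [Finset.mem_filter] at hq
    rw [(Nat.prime_dvd_prime_iff_eq hp (Nat.prime_of_mem_primeFactors hq.1)).1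
      (hp.dvd_of_dvd_pow hpq)]
    exact hq.2
  have hpn' : ∀ p : ℕ, p.Prime → p ∣ n' → ¬ (p : ℤ) ∣ V := by
    intro p hp hpd
    rw [hn', hp.prime.dvd_finsetProd_iff] at hpd
    obtain ⟨q, hq, hpq⟩ := hpd
    rw [Finset.mem_filter] at hq
    rw [(Nat.prime_dvd_prime_iff_eq hp (Nat.prime_of_mem_primeFactors hq.1)).1
      (hp.dvd_of_dvd_pow hpq)]
    exact hq.2
  have hn'n : n' ∣ n := ⟨w, by rw [← hwn, mul_comm]⟩
  have hwB : (w : ℝ) ≤ L := hw w ⟨n', hwn.symm⟩ hpw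
  have hrd : rd n' ≤ rd n := rd_le_of_dvd hn0 (fun p _ hp => hp.trans hn'n) hn'0
  have hn'le : (n' : ℝ) ≤ n := by exact_mod_cast Nat.le_of_dvd (Nat.pos_of_ne_zero hn0) hn'n
  have hkey := rad_of_no_pw (n := n') (m := m) hn'0 hm1 hL hLU (by
    intro s hs hsn
    refine hno s hs (hsn.trans hn'n) ?_
    rw [Int.isCoprime_iff_gcd_eq_one]
    by_contra hne
    obtain ⟨p, hp, hpd⟩ := Nat.exists_prime_and_dvd hne
    have e1 : (p : ℤ) ∣ s := (Int.natCast_dvd_natCast.2 hpd).trans (Int.gcd_dvd_left _ _)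
    have e2 : (p : ℤ) ∣ V := (Int.natCast_dvd_natCast.2 hpd).trans (Int.gcd_dvd_right _ _)
    exact hpn' p hp ((Int.natCast_dvd_natCast.1 e1).trans hsn) e2)
    (lt_of_le_of_lt (pow_le_pow_left₀ (Nat.cast_nonneg _) hn'le _) hnU)
  calc (n : ℝ) = w * n' := by rw [← hwn, Nat.cast_mul]
    _ ≤ L * (L * (rd n : ℝ) ^ m) := by
        refine mul_le_mul hwB (hkey.trans ?_) (Nat.cast_nonneg _) (by linarith)
        refine mul_le_mul_of_nonneg_left ?_ (by linarith)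
        exact pow_le_pow_left₀ (Nat.cast_nonneg _) (by exact_mod_cast hrd) _

lemma bi_mul {F G : MvPolynomial (Fin 4) ℤ} {a b a' b' : ℕ} (hF : Bi F a b) (hG : Bi G a' b') :
    Bi (F * G) (a + a') (b + b') := ⟨hF.1.mul hG.1, hF.2.mul hG.2⟩

lemma bi_X1 : Bi (X 1 : MvPolynomial (Fin 4) ℤ) 1 0 :=
  ⟨isWeightedHomogeneous_X _ _ _, isWeightedHomogeneous_X _ _ _⟩

lemma bi_G {F : MvPolynomial (Fin 4) ℤ} {a b : ℕ} (h : Bi F (a + 1) b) :
    Bi (X 1 * pderiv 0 F) (1 + a) (0 + b) := bi_mul bi_X1 h.pderiv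

lemma val_G (F : MvPolynomial (Fin 4) ℤ) (x y : ℤ × ℤ) :
    val (X 1 * pderiv 0 F) x y = x.2 * val (pderiv 0 F) x y := by
  unfold val
  rw [map_mul, eval_X]
  rfl

theorem FS_rad {F : MvPolynomial (Fin 4) ℤ} {a b : ℕ} (h : Bi F (a + 1) b)
    (hirr : Irreducible (toQ F)) (h0 : pderiv 0 F ≠ 0) :
    ∃ R : ℤ × ℤ → ℤ, IsRes R ∧ ∀ (Λ : ℝ), 0 ≤ Λ → ∀ (m : ℕ), 1 ≤ m →
      ((a : ℝ) + 1 + Λ * b < 2 * (m + 1)) → ∀ ε : ℝ, 0 < ε →
      FS (fun y => IsCoprime y.1 y.2 ∧ R y ≠ 0) Λ (fun B y x =>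
        (rd (val F x y).natAbs : ℝ) ^ m < (ht y : ℝ) ^ b * (B : ℝ) ^ ((a : ℝ) + 1 - ε)) := by
  classical
  have hnd : ¬ toQ F ∣ toQ (X 1 * pderiv 0 F) := by
    refine not_dvd_aux (d := a + b) ?_ hirr h0
    rw [show a + b + 1 = a + 1 + b by omega]
    exact h.hom
  obtain ⟨R, hR, hRp⟩ := prime_elim h (bi_G h) hirr h0 hnd
  refine ⟨R, hR, fun Λ hΛ m hm1 hm ε hε => ?_⟩
  set g : ℝ := 4 * (m + 1) - 2 * ((a : ℝ) + 1 + Λ * b) with hg
  have hg0 : 0 < g := by rw [hg]; linarith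
  have hmR : (1 : ℝ) ≤ m := by exact_mod_cast hm1
  set c : ℝ := min (min (ε / 3) (g / (2 * (m + 1)))) 1 with hc
  have hc0 : 0 < c := by rw [hc]; positivity
  have hcε : 3 * c ≤ ε := by
    have := (min_le_left (min (ε / 3) (g / (2 * (m + 1)))) 1).trans (min_le_left _ _)
    rw [← hc] at this
    linarith
  have hcg : c * (m + 1) ≤ g / 2 := by
    have := (min_le_left (min (ε / 3) (g / (2 * (m + 1)))) 1).trans (min_le_right _ _)
    rw [← hc, le_div_iff₀ (by positivity)] at this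
    linarith
  have hc1 : c ≤ 1 := min_le_right _ _
  obtain ⟨cF, hcF1, hcF⟩ := val_le h
  have s1 := (FS_small h (by omega) hirr h0 Λ hc0 (by push_cast; linarith [Nat.cast_nonneg (α := ℝ) a])).anti
    (Y' := fun y => IsCoprime y.1 y.2 ∧ R y ≠ 0) (fun y hy => hy.1) le_rfl
  have s2 := FS_part h hirr h0 R hR Λ hΛ hc0 hc1
  have s3 := (FS_pw h Λ hc0 (by linarith)).anti
    (Y' := fun y => IsCoprime y.1 y.2 ∧ R y ≠ 0) (fun y hy => hy.1) le_rfl
  set B₀ : ℕ := ⌈((cF : ℝ) ^ 2 + 1) ^ (2 / g)⌉₊ with hB₀d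
  refine ((s1.or s2).or s3).of_eventually B₀ ?_
  rintro B y x hB₀ hB ⟨hyc, hyR⟩ hyB hx hco hrad
  by_contra hcon
  push Not at hcon
  obtain ⟨⟨h1, h2⟩, h3⟩ := hcon
  have hB1 : (1 : ℝ) ≤ B := by exact_mod_cast hB
  have hB0 : (0 : ℝ) < B := by linarith
  have hty : (1 : ℝ) ≤ ht y := by exact_mod_cast ht_pos hyc
  set n := (val F x y).natAbs with hn
  have hpos : (0 : ℝ) < (ht y : ℝ) ^ b * (B : ℝ) ^ (((a + 1 : ℕ) : ℝ) - c) := by positivity
  have hn0 : n ≠ 0 := by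
    intro h0
    rw [h0, Nat.cast_zero] at h1
    linarith
  have hF0 : val F x y ≠ 0 := by rwa [hn, Ne, Int.natAbs_eq_zero] at hn0
  have hnF : ∀ s : ℕ, s ∣ n → (s : ℤ) ∣ val F x y := fun s hs =>
    (Int.natCast_dvd_natCast.2 hs).trans (by rw [hn]; exact Int.natAbs_dvd.2 dvd_rfl)
  have hnub : (n : ℝ) ≤ cF * (B : ℝ) ^ ((a : ℝ) + 1 + Λ * b) := by
    have e1 : (n : ℝ) ≤ cF * (ht x : ℝ) ^ (a + 1) * (ht y : ℝ) ^ b := by exact_mod_cast hcF x y
    refine e1.trans ?_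
    rw [mul_assoc]
    refine mul_le_mul_of_nonneg_left ?_ (Nat.cast_nonneg _)
    rw [Real.rpow_add hB0, Real.rpow_mul hB0.le, Real.rpow_natCast]
    have e2 : (B : ℝ) ^ ((a : ℝ) + 1) = (B : ℝ) ^ (a + 1) := by
      rw [← Real.rpow_natCast]; push_cast; rfl
    rw [e2]
    refine mul_le_mul (pow_le_pow_left₀ (Nat.cast_nonneg _) (by exact_mod_cast hx) _)
      (pow_le_pow_left₀ (by positivity) hyB _) (by positivity) (by positivity)
  have hkey := arith_core (n := n) (m := m) hn0 hm1 (val (X 1 * pderiv 0 F) x y)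
    (L := (B : ℝ) ^ c) (U := (B : ℝ) ^ (4 - c))
    (Real.one_le_rpow hB1 hc0.le) (by
      rw [← Real.rpow_natCast, ← Real.rpow_mul hB0.le]
      refine Real.rpow_le_rpow_of_exponent_le hB1 ?_
      push_cast
      linarith) (by
      intro w hwn hwp
      by_contra hlt
      push Not at hlt
      refine absurd hlt (not_lt.2 (h2 hF0 w (hnF w hwn) ?_))
      intro p hp hpw
      exact hRp p hp x y hco hyc ((Int.natCast_dvd_natCast.2 hpw).trans (hnF w hwn)) (hwp p hp hpw))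
    (by
      intro s hs hsn hcop
      by_contra hcon
      push Not at hcon
      rw [val_G] at hcop
      exact h3 s hs hcon.1 hcon.2 (hnF s hsn) hcop) (by
      have e1 : (n : ℝ) ^ 2 ≤ (cF * (B : ℝ) ^ ((a : ℝ) + 1 + Λ * b)) ^ 2 :=
        pow_le_pow_left₀ (Nat.cast_nonneg _) hnub _
      refine lt_of_le_of_lt e1 ?_
      rw [← Real.rpow_natCast ((B : ℝ) ^ (4 - c)), ← Real.rpow_mul hB0.le, mul_pow,
        ← Real.rpow_natCast ((B : ℝ) ^ ((a : ℝ) + 1 + Λ * b)), ← Real.rpow_mul hB0.le]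
      have e2 : ((cF : ℝ)) ^ 2 < (B : ℝ) ^ (g / 2) := by
        have f1 : ((cF : ℝ) ^ 2 + 1) ^ (2 / g) ≤ B := Nat.ceil_le.1 hB₀
        have f2 : (((cF : ℝ) ^ 2 + 1) ^ (2 / g)) ^ (g / 2) ≤ (B : ℝ) ^ (g / 2) :=
          Real.rpow_le_rpow (by positivity) f1 (by positivity)
        rw [← Real.rpow_mul (by positivity), show 2 / g * (g / 2) = 1 by field_simp,
          Real.rpow_one] at f2
        linarith
      have e3 : (B : ℝ) ^ (g / 2) * (B : ℝ) ^ (((a : ℝ) + 1 + Λ * b) * (2 : ℕ)) ≤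
          (B : ℝ) ^ ((4 - c) * ((m + 1 : ℕ) : ℝ)) := by
        rw [← Real.rpow_add hB0]
        refine Real.rpow_le_rpow_of_exponent_le hB1 ?_
        push_cast
        have : g / 2 + ((a : ℝ) + 1 + Λ * b) * 2 = 4 * (m + 1) - g / 2 := by rw [hg]; ring
        rw [this]
        nlinarith
      refine lt_of_lt_of_le (mul_lt_mul_of_pos_right e2 (by positivity)) e3)
  -- conclusion
  have e2 : (ht y : ℝ) ^ b * (B : ℝ) ^ (((a + 1 : ℕ) : ℝ) - c) <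
      (B : ℝ) ^ c * ((B : ℝ) ^ c * (rd n : ℝ) ^ m) := lt_of_lt_of_le h1 hkey
  have e5 : (B : ℝ) ^ c * ((B : ℝ) ^ c * (rd n : ℝ) ^ m) ≤
      (ht y : ℝ) ^ b * (B : ℝ) ^ (((a + 1 : ℕ) : ℝ) - c) := by
    calc (B : ℝ) ^ c * ((B : ℝ) ^ c * (rd n : ℝ) ^ m) ≤
          (B : ℝ) ^ c * ((B : ℝ) ^ c * ((ht y : ℝ) ^ b * (B : ℝ) ^ ((a : ℝ) + 1 - ε))) :=
          mul_le_mul_of_nonneg_left (mul_le_mul_of_nonneg_left hrad.le (by positivity))
            (by positivity)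
      _ = (ht y : ℝ) ^ b * ((B : ℝ) ^ c * (B : ℝ) ^ c * (B : ℝ) ^ ((a : ℝ) + 1 - ε)) := by ring
      _ ≤ _ := by
          refine mul_le_mul_of_nonneg_left ?_ (by positivity)
          rw [← Real.rpow_add hB0, ← Real.rpow_add hB0]
          refine Real.rpow_le_rpow_of_exponent_le hB1 ?_
          push_cast
          linarith
  linarith

end Pool.Agent.Helper19K9.Fb
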