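import Pool.Agent.Helper19K9.Fb.Cnt

/-!
Small values and values with powerful divisors in the fibres.
-/

set_option autoImplicit false
set_option linter.all false
set_option maxHeartbeats 4000000

namespace Pool.Agent.Helper19K9.Fb

open MvPolynomial Pool.Agent.TH910.Voj Pool.Agent.Helper19K9.Sq Pool.Agent.H813R3.Voj

/-- A polynomial has few small values. -/
lemma small_card' (f : Polynomial ℤ) (k : ℕ) (hf : f.natDegree ≤ k) (hc : f.coeff k ≠ 0)
    (M T : ℕ) (hT : 1 ≤ T) (hMT : (k + 1) * M < (f.coeff k).natAbs * T ^ k) (B : ℕ) :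
    ∀ W : Finset ℤ, (∀ t ∈ W, t ∈ Finset.Icc (-(B : ℤ)) B ∧ (f.eval t).natAbs ≤ M) →
      W.card ≤ 2 * k * T := by
  classical
  intro W hW
  have hT0 : (0 : ℤ) < T := by exact_mod_cast hT
  -- separated points
  have key : ∀ V : Finset ℤ, V ⊆ W → (∀ s ∈ V, ∀ t ∈ V, s ≠ t → (T : ℤ) ≤ |s - t|) →
      V.card ≤ k := by
    intro V hVW hsep
    by_contra hcon
    obtain ⟨U, hUV, hU⟩ := Finset.exists_subset_card_eq (show k + 1 ≤ V.card by omega)
    have hdeg : ((f.map (Int.castRingHom ℝ)).degree : WithBot ℕ) = k := by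
      rw [Polynomial.degree_map_eq_of_injective (Int.castRingHom ℝ).injective_int,
        Polynomial.degree_eq_of_le_of_coeff_ne_zero
          (Polynomial.natDegree_le_iff_degree_le.1 hf) hc]
    have h1 := Lagrange.leadingCoeff_eq_sum (s := U) (v := fun t : ℤ => (t : ℝ))
      (Int.cast_injective.injOn) (P := f.map (Int.castRingHom ℝ)) (by rw [hU, hdeg]; push_cast; rfl)
    have h2 : (f.map (Int.castRingHom ℝ)).leadingCoeff = (f.coeff k : ℝ) := by
      rw [Polynomial.leadingCoeff, Polynomial.natDegree_eq_of_degree_eq_some hdeg,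
        Polynomial.coeff_map]
      rfl
    have h3 : ∀ i ∈ U, |(f.map (Int.castRingHom ℝ)).eval ((i : ℤ) : ℝ) /
        ∏ j ∈ U.erase i, ((i : ℝ) - j)| ≤ M / (T : ℝ) ^ k := by
      intro i hi
      rw [abs_div]
      have h4 : |(f.map (Int.castRingHom ℝ)).eval ((i : ℤ) : ℝ)| ≤ M := by
        have h5 : (f.map (Int.castRingHom ℝ)).eval ((i : ℤ) : ℝ) = ((f.eval i : ℤ) : ℝ) := by
          rw [Polynomial.eval_intCast_map]
          rfl
        rw [h5, ← Int.cast_abs, Int.abs_eq_natAbs]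
        exact_mod_cast (hW i (hVW (hUV hi))).2
      have h6 : (T : ℝ) ^ k ≤ |∏ j ∈ U.erase i, ((i : ℝ) - j)| := by
        rw [Finset.abs_prod]
        have h7 : (U.erase i).card = k := by rw [Finset.card_erase_of_mem hi, hU]; rfl
        rw [← h7, ← Finset.prod_const]
        refine Finset.prod_le_prod (fun _ _ => by positivity) fun j hj => ?_
        obtain ⟨hji, hjU⟩ := Finset.mem_erase.1 hj
        have h8 := hsep i (hUV hi) j (hUV hjU) hji.symm
        rw [← Int.cast_sub, ← Int.cast_abs]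
        exact_mod_cast h8
      have h9 : (0 : ℝ) < (T : ℝ) ^ k := by positivity
      exact div_le_div₀ (Nat.cast_nonneg _) h4 h9 h6
    have h4 : |(f.coeff k : ℝ)| ≤ (k + 1) * (M / (T : ℝ) ^ k) := by
      rw [← h2, h1]
      refine (Finset.abs_sum_le_sum_abs _ _).trans ((Finset.sum_le_sum h3).trans ?_)
      rw [Finset.sum_const, hU, nsmul_eq_mul]
      push_cast
      exact le_rfl
    have h6 : ((k + 1 : ℝ)) * M < |(f.coeff k : ℝ)| * (T : ℝ) ^ k := by
      rw [← Int.cast_abs, Int.abs_eq_natAbs]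
      exact_mod_cast hMT
    have h9 : (0 : ℝ) < (T : ℝ) ^ k := by positivity
    have h7 : (k + 1 : ℝ) * (M / (T : ℝ) ^ k) < |(f.coeff k : ℝ)| := by
      rw [← mul_div_assoc, div_lt_iff₀ h9]
      exact h6
    linarith
  -- the blocks
  set J := W.image (fun t => (t + B) / (T : ℤ)) with hJ
  have hJ1 : ∀ r : ℤ, (J.filter fun j => j % 2 = r).card ≤ k := by
    intro r
    have hex : ∀ j ∈ J.filter (fun j => j % 2 = r), ∃ t ∈ W, (t + B) / (T : ℤ) = j := by
      intro j hj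
      rw [Finset.mem_filter, hJ, Finset.mem_image] at hj
      exact hj.1
    choose! g hgW hg using hex
    have hinj : Set.InjOn g (J.filter fun j => j % 2 = r) := by
      intro j hj j' hj' h
      rw [← hg j hj, ← hg j' hj', h]
    rw [← Finset.card_image_of_injOn hinj]
    refine key _ (fun t ht => ?_) ?_
    · rw [Finset.mem_image] at ht
      obtain ⟨j, hj, rfl⟩ := ht
      exact hgW j hj
    · intro s hs t ht hst
      rw [Finset.mem_image] at hs ht
      obtain ⟨j, hj, rfl⟩ := hs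
      obtain ⟨j', hj', rfl⟩ := ht
      have hjj : j ≠ j' := fun h => hst (by rw [h])
      have e1 := hg j hj
      have e2 := hg j' hj'
      have p1 := (Finset.mem_filter.1 hj).2
      have p2 := (Finset.mem_filter.1 hj').2
      have f1 := Int.emod_add_mul_ediv (g j + B) T
      have f2 := Int.emod_add_mul_ediv (g j' + B) T
      have g1 := Int.emod_nonneg (g j + B) hT0.ne'
      have g2 := Int.emod_nonneg (g j' + B) hT0.ne'
      have g3 := Int.emod_lt_of_pos (g j + B) hT0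
      have g4 := Int.emod_lt_of_pos (g j' + B) hT0
      rw [e1] at f1
      rw [e2] at f2
      have h2 : 2 ≤ j - j' ∨ 2 ≤ j' - j := by omega
      rcases h2 with h2 | h2
      · have h3 : (T : ℤ) * 2 ≤ T * (j - j') := mul_le_mul_of_nonneg_left h2 hT0.le
        have h4 : (T : ℤ) * (j - j') = T * j - T * j' := by ring
        refine le_trans ?_ (le_abs_self _)
        linarith
      · have h3 : (T : ℤ) * 2 ≤ T * (j' - j) := mul_le_mul_of_nonneg_left h2 hT0.le
        have h4 : (T : ℤ) * (j' - j) = T * j' - T * j := by ring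
        refine le_trans ?_ (neg_le_abs _)
        linarith
  have hJc : J.card ≤ 2 * k := by
    have h1 : J ⊆ (J.filter fun j => j % 2 = 0) ∪ (J.filter fun j => j % 2 = 1) := by
      intro j hj
      rw [Finset.mem_union, Finset.mem_filter, Finset.mem_filter]
      rcases Int.emod_two_eq_zero_or_one j with h | h
      · exact Or.inl ⟨hj, h⟩
      · exact Or.inr ⟨hj, h⟩
    have h2 := (Finset.card_le_card h1).trans (Finset.card_union_le _ _)
    have h3 := hJ1 0
    have h4 := hJ1 1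
    omega
  have h1 := Finset.card_le_mul_card_image_of_maps_to (s := W)
    (f := fun t => (t + B) / (T : ℤ)) (t := J) (fun t ht => Finset.mem_image_of_mem _ ht) T (by
      intro j _
      have h2 : (W.filter fun t => (t + B) / (T : ℤ) = j) ⊆
          (Finset.Ico (j * T - B) (j * T - B + T)) := by
        intro t ht
        rw [Finset.mem_filter] at ht
        have f1 := Int.emod_add_mul_ediv (t + B) T
        have g1 := Int.emod_nonneg (t + B) hT0.ne'
        have g3 := Int.emod_lt_of_pos (t + B) hT0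
        rw [ht.2] at f1
        rw [Finset.mem_Ico]
        constructor
        · linarith
        · linarith
      refine (Finset.card_le_card h2).trans ?_
      rw [Int.card_Ico]
      omega)
  calc W.card ≤ T * J.card := h1
    _ ≤ T * (2 * k) := Nat.mul_le_mul_left _ hJc
    _ = 2 * k * T := by ring

/-- one of the values at `(t, 1)` is large -/
lemma exists_dir (a : ℕ) : ∃ K : ℕ, 1 ≤ K ∧ ∀ (c : ℕ → ℤ) (i : ℕ), i ≤ a → ∃ t : ℕ, t ≤ a ∧
    (c i).natAbs ≤ K * (∑ j ∈ Finset.range (a + 1), c j * (t : ℤ) ^ j).natAbs := by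
  classical
  set V : Matrix (Fin (a + 1)) (Fin (a + 1)) ℤ := Matrix.vandermonde fun t => ((t : ℕ) : ℤ) with hV
  have hdet : V.det ≠ 0 := by
    rw [hV, Matrix.det_vandermonde_ne_zero_iff]
    intro s t hst
    have hst' : ((s : ℕ) : ℤ) = ((t : ℕ) : ℤ) := hst
    exact Fin.ext (by exact_mod_cast hst')
  set A : ℕ := ∑ i, ∑ t, (V.adjugate i t).natAbs with hA
  refine ⟨A + 1, by omega, fun c i hi => ?_⟩
  by_contra hcon
  push Not at hcon
  have hmul : ∀ t : Fin (a + 1), (V.mulVec (fun j : Fin (a + 1) => c j)) t =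
      ∑ j ∈ Finset.range (a + 1), c j * (((t : ℕ) : ℤ)) ^ j := by
    intro t
    rw [← Fin.sum_univ_eq_sum_range (fun j => c j * (((t : ℕ) : ℤ)) ^ j) (a + 1)]
    show ∑ j : Fin (a + 1), V t j * c j = _
    refine Finset.sum_congr rfl fun j _ => ?_
    rw [hV, Matrix.vandermonde_apply, mul_comm]
  have h1 : V.adjugate.mulVec (V.mulVec (fun j : Fin (a + 1) => c j)) =
      V.det • fun j : Fin (a + 1) => c j := by
    rw [Matrix.mulVec_mulVec, Matrix.adjugate_mul, Matrix.smul_mulVec, Matrix.one_mulVec]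
  have h2 := congrFun h1 ⟨i, by omega⟩
  rw [Pi.smul_apply, smul_eq_mul] at h2
  have h3 : (c i).natAbs ≤ ∑ t, (V.adjugate ⟨i, by omega⟩ t).natAbs *
      (∑ j ∈ Finset.range (a + 1), c j * (((t : ℕ) : ℤ)) ^ j).natAbs := by
    calc (c i).natAbs ≤ (V.det * c i).natAbs := by
          rw [Int.natAbs_mul]
          exact Nat.le_mul_of_pos_left _ (Int.natAbs_pos.2 hdet)
      _ = (∑ t, V.adjugate ⟨i, by omega⟩ t * (V.mulVec (fun j : Fin (a + 1) => c j)) t).natAbs := by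
          rw [← h2]
          rfl
      _ ≤ _ := by
          refine (Int.natAbs_sum_le _ _).trans (Finset.sum_le_sum fun t _ => ?_)
          rw [Int.natAbs_mul, hmul]
  have h4 : ∑ t, (V.adjugate ⟨i, by omega⟩ t).natAbs ≤ A :=
    Finset.single_le_sum (f := fun i => ∑ t, (V.adjugate i t).natAbs) (fun _ _ => Nat.zero_le _)
      (Finset.mem_univ _)
  have h5 : (A + 1) * (c i).natAbs ≤ A * (c i).natAbs := by
    calc (A + 1) * (c i).natAbs ≤ (A + 1) * ∑ t, (V.adjugate ⟨i, by omega⟩ t).natAbs *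
          (∑ j ∈ Finset.range (a + 1), c j * (((t : ℕ) : ℤ)) ^ j).natAbs := Nat.mul_le_mul_left _ h3
      _ = ∑ t, (V.adjugate ⟨i, by omega⟩ t).natAbs * ((A + 1) *
          (∑ j ∈ Finset.range (a + 1), c j * (((t : ℕ) : ℤ)) ^ j).natAbs) := by
          rw [Finset.mul_sum]
          refine Finset.sum_congr rfl fun t _ => ?_
          ring
      _ ≤ ∑ t, (V.adjugate ⟨i, by omega⟩ t).natAbs * (c i).natAbs := by
          refine Finset.sum_le_sum fun t _ => Nat.mul_le_mul_left _ ?_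
          exact (hcon t (by omega)).le
      _ = (∑ t, (V.adjugate ⟨i, by omega⟩ t).natAbs) * (c i).natAbs := by rw [Finset.sum_mul]
      _ ≤ _ := Nat.mul_le_mul_right _ h4
  have h6 : 0 < (c i).natAbs := by
    have := hcon 0 (Nat.zero_le _)
    omega
  nlinarith

/-- the form on the line `k + t τ, τ` -/
noncomputable def lp (a : ℕ) (c : ℕ → ℤ) (k t : ℤ) : Polynomial ℤ :=
  ∑ i ∈ Finset.range (a + 1), Polynomial.C (c i) *
    ((Polynomial.C k + Polynomial.C t * Polynomial.X) ^ i * Polynomial.X ^ (a - i))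

lemma lp_eval (a : ℕ) (c : ℕ → ℤ) (k t τ : ℤ) :
    (lp a c k t).eval τ = bf a c (k + t * τ, τ) := by
  unfold lp bf
  rw [Polynomial.eval_finsetSum]
  refine Finset.sum_congr rfl fun i _ => ?_
  simp

lemma lp_deg (a : ℕ) (c : ℕ → ℤ) (k t : ℤ) : (lp a c k t).natDegree ≤ a := by
  unfold lp
  refine Polynomial.natDegree_sum_le_of_forall_le _ _ fun i hi => ?_
  rw [Finset.mem_range] at hi
  refine (Polynomial.natDegree_C_mul_le _ _).trans ((Polynomial.natDegree_mul_le).trans ?_)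
  have h1 : (Polynomial.C k + Polynomial.C t * Polynomial.X : Polynomial ℤ).natDegree ≤ 1 := by
    refine (Polynomial.natDegree_add_le _ _).trans (max_le ?_ ?_)
    · rw [Polynomial.natDegree_C]; exact Nat.zero_le _
    · exact (Polynomial.natDegree_C_mul_le _ _).trans Polynomial.natDegree_X_le
  have h2 := Polynomial.natDegree_pow_le_of_le i h1
  have h3 : (Polynomial.X ^ (a - i) : Polynomial ℤ).natDegree ≤ a - i :=
    Polynomial.natDegree_X_pow_le _
  omega

lemma lp_coeff (a : ℕ) (c : ℕ → ℤ) (k t : ℤ) :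
    (lp a c k t).coeff a = ∑ j ∈ Finset.range (a + 1), c j * t ^ j := by
  unfold lp
  rw [Polynomial.finsetSum_coeff]
  refine Finset.sum_congr rfl fun i hi => ?_
  rw [Finset.mem_range] at hi
  rw [Polynomial.coeff_C_mul]
  congr 1
  have h1 : (Polynomial.C k + Polynomial.C t * Polynomial.X : Polynomial ℤ).natDegree ≤ 1 := by
    refine (Polynomial.natDegree_add_le _ _).trans (max_le ?_ ?_)
    · rw [Polynomial.natDegree_C]; exact Nat.zero_le _
    · exact (Polynomial.natDegree_C_mul_le _ _).trans Polynomial.natDegree_X_le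
  have h2 := Polynomial.coeff_mul_X_pow ((Polynomial.C k + Polynomial.C t * Polynomial.X :
    Polynomial ℤ) ^ i) (a - i) i
  rw [show i + (a - i) = a by omega] at h2
  rw [h2]
  have h3 := Polynomial.coeff_pow_of_natDegree_le (m := i) h1
  rw [mul_one] at h3
  rw [h3, Polynomial.coeff_add, Polynomial.coeff_C_mul, Polynomial.coeff_X_one,
    Polynomial.coeff_C_ne_zero one_ne_zero, zero_add, mul_one]

/-- **Small values are rare in the fibres.** -/
theorem FS_small {F : MvPolynomial (Fin 4) ℤ} {a b : ℕ} (hF : Bi F a b) (ha : 1 ≤ a)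
    (hirr : Irreducible (toQ F)) (h0 : pderiv 0 F ≠ 0) (Λ : ℝ) {η : ℝ} (hη : 0 < η)
    (hηa : η ≤ a) :
    FS (fun y => IsCoprime y.1 y.2) Λ (fun B y x => ((val F x y).natAbs : ℝ) ≤
      (ht y : ℝ) ^ b * (B : ℝ) ^ ((a : ℝ) - η)) := by
  classical
  obtain ⟨M₀, hM₀, hlarge⟩ := form_large hF hirr h0
  obtain ⟨K, hK, hdir⟩ := exists_dir a
  have haR : (1 : ℝ) ≤ a := by exact_mod_cast ha
  have ha0 : (0 : ℝ) < a := by linarith
  set C₁ : ℕ := (a + 1) * (M₀ * K) + 1 with hC₁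
  refine ⟨η / a, by positivity, (2 * (1 + a) + 1) * (2 * a * (2 * C₁)), by positivity,
    fun B hB y hy hyB => ?_⟩
  have hB1 : (1 : ℝ) ≤ B := by exact_mod_cast hB
  have hBpos : (0 : ℝ) < B := by linarith
  have hty : 1 ≤ ht y := ht_pos hy
  set e : ℝ := 1 - η / a with he
  have he0 : 0 ≤ e := by
    rw [he, sub_nonneg, div_le_one ha0]
    exact hηa
  obtain ⟨q1, q2, q3⟩ := rpow_floor hB1 he0
  set u : ℕ := ⌊(B : ℝ) ^ e⌋₊ with hu
  have hlt : (B : ℝ) ^ e < u + 1 := Nat.lt_floor_add_one _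
  set T : ℕ := C₁ * (u + 1) with hT
  have hT1 : 1 ≤ T := Nat.mul_pos (by omega) (by omega)
  set c : ℕ → ℤ := fun i => (fy F y.1 y.2).coeff i with hc
  obtain ⟨i, hi, hlar⟩ := hlarge y hy
  obtain ⟨t, hta, hti⟩ := hdir c i hi
  set lc : ℤ := ∑ j ∈ Finset.range (a + 1), c j * (t : ℤ) ^ j with hlc
  have hlc1 : ht y ^ b ≤ M₀ * K * lc.natAbs := by
    calc ht y ^ b ≤ M₀ * (c i).natAbs := hlar
      _ ≤ M₀ * (K * lc.natAbs) := Nat.mul_le_mul_left _ hti
      _ = _ := by ring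
  have hlc0 : lc ≠ 0 := by
    rintro h
    rw [h] at hlc1
    have : 1 ≤ ht y ^ b := Nat.one_le_pow _ _ hty
    simp at hlc1
    omega
  set E : ℝ := (ht y : ℝ) ^ b * (B : ℝ) ^ ((a : ℝ) - η) with hE
  set M : ℕ := ⌊E⌋₊ with hM
  have hE0 : 0 ≤ E := by positivity
  have hMT : (a + 1) * M < lc.natAbs * T ^ a := by
    have h1 : (M : ℝ) ≤ E := Nat.floor_le hE0
    have h2 : (B : ℝ) ^ ((a : ℝ) - η) = ((B : ℝ) ^ e) ^ a := by
      rw [← Real.rpow_natCast, ← Real.rpow_mul hBpos.le, he]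
      congr 1
      field_simp
    have h3 : ((B : ℝ) ^ e) ^ a < ((u : ℝ) + 1) ^ a := pow_lt_pow_left₀ hlt (by positivity) (by omega)
    have hC1R : (1 : ℝ) ≤ C₁ := by
      have : 1 ≤ C₁ := by omega
      exact_mod_cast this
    have h4 : (C₁ : ℝ) ≤ (C₁ : ℝ) ^ a := le_self_pow₀ hC1R (by omega)
    have hlcR : (0 : ℝ) < (lc.natAbs : ℝ) := by exact_mod_cast Int.natAbs_pos.2 hlc0
    have h5 : (((a + 1) * M : ℕ) : ℝ) < ((lc.natAbs * T ^ a : ℕ) : ℝ) := by
      have h6 : ((ht y : ℝ)) ^ b ≤ M₀ * K * (lc.natAbs : ℝ) := by exact_mod_cast hlc1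
      rw [hT]
      push_cast
      calc ((a : ℝ) + 1) * M ≤ (a + 1) * ((ht y : ℝ) ^ b * ((B : ℝ) ^ e) ^ a) := by
            refine mul_le_mul_of_nonneg_left ?_ (by positivity)
            rw [← h2]; exact h1
        _ ≤ (a + 1) * ((M₀ * K * (lc.natAbs : ℝ)) * ((B : ℝ) ^ e) ^ a) := by
            refine mul_le_mul_of_nonneg_left ?_ (by positivity)
            exact mul_le_mul_of_nonneg_right h6 (by positivity)
        _ = ((a + 1) * (M₀ * K)) * (lc.natAbs * ((B : ℝ) ^ e) ^ a) := by ring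
        _ ≤ C₁ * (lc.natAbs * ((B : ℝ) ^ e) ^ a) := by
            refine mul_le_mul_of_nonneg_right ?_ (by positivity)
            rw [hC₁]
            push_cast
            linarith
        _ < C₁ * (lc.natAbs * ((u : ℝ) + 1) ^ a) := by
            refine mul_lt_mul_of_pos_left ?_ (by linarith)
            exact mul_lt_mul_of_pos_left h3 hlcR
        _ = C₁ * ((lc.natAbs : ℝ) * ((u : ℝ) + 1) ^ a) := rfl
        _ ≤ (C₁ : ℝ) ^ a * ((lc.natAbs : ℝ) * ((u : ℝ) + 1) ^ a) :=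
            mul_le_mul_of_nonneg_right h4 (by positivity)
        _ = (lc.natAbs : ℝ) * ((C₁ : ℝ) * ((u : ℝ) + 1)) ^ a := by rw [mul_pow]; ring
    exact_mod_cast h5
  set X := (bx B).filter fun x => ((val F x y).natAbs : ℝ) ≤ E with hX
  have hXc : (fset B fun x => ((val F x y).natAbs : ℝ) ≤ E).ncard ≤ X.card := by
    rw [← Set.ncard_coe_finset]
    refine Set.ncard_le_ncard ?_ (Finset.finite_toSet _)
    rintro x ⟨h1, h2, h3⟩
    rw [Finset.mem_coe, hX, Finset.mem_filter, mem_bx]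
    exact ⟨h1, h3⟩
  -- the fibres over the lines
  have h1 := Finset.card_le_mul_card_image_of_maps_to (s := X) (f := fun x : ℤ × ℤ => x.1 - (t : ℤ) * x.2)
    (t := Finset.Icc (-(((1 + a) * B : ℕ) : ℤ)) (((1 + a) * B : ℕ) : ℤ)) (by
      intro x hx
      rw [hX, Finset.mem_filter, mem_bx, ht_le] at hx
      rw [Finset.mem_Icc, ← abs_le]
      refine (abs_sub _ _).trans ?_
      rw [abs_mul, abs_of_nonneg (Int.natCast_nonneg t)]
      have h2 : ((t : ℕ) : ℤ) ≤ a := by exact_mod_cast hta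
      have h3 : (t : ℤ) * |x.2| ≤ a * B := mul_le_mul h2 hx.1.2 (abs_nonneg _) (Int.natCast_nonneg _)
      have h4 := hx.1.1
      push_cast
      linarith) (2 * a * T) (by
      intro k _
      have h2 : ((X.filter fun x : ℤ × ℤ => x.1 - (t : ℤ) * x.2 = k).image fun x => x.2).card ≤ 2 * a * T := by
        refine small_card' (lp a c k t) a (lp_deg _ _ _ _) (by rw [lp_coeff]; exact hlc0) M T hT1
          (by rw [lp_coeff]; exact hMT) B _ ?_
        intro τ hτ
        rw [Finset.mem_image] at hτ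
        obtain ⟨x, hx, rfl⟩ := hτ
        rw [Finset.mem_filter, hX, Finset.mem_filter, mem_bx, ht_le] at hx
        refine ⟨by rw [Finset.mem_Icc, ← abs_le]; exact hx.1.1.2, ?_⟩
        rw [lp_eval]
        have h3 : (k + t * x.2, x.2) = x := by
          rw [← hx.2]
          exact Prod.ext (by simp) rfl
        rw [h3, ← val_form hF]
        exact Nat.le_floor hx.1.2
      rwa [Finset.card_image_of_injOn] at h2
      intro x hx x' hx' hxx
      rw [Finset.mem_coe, Finset.mem_filter] at hx hx'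
      have h3 := hx.2.trans hx'.2.symm
      have h4 : x.2 = x'.2 := hxx
      rw [h4] at h3
      exact Prod.ext (by linarith) h4)
  have h2 : (X.card : ℝ) ≤ (2 * a * T : ℕ) * (2 * ((1 + a) * B : ℕ) + 1 : ℕ) := by
    rw [card_Icc_int] at h1
    exact_mod_cast h1
  have h3 : ((fset B fun x => ((val F x y).natAbs : ℝ) ≤ E).ncard : ℝ) ≤ X.card := by
    exact_mod_cast hXc
  refine h3.trans (h2.trans ?_)
  have h4 : ((2 * a * T : ℕ) : ℝ) ≤ 2 * a * (2 * C₁) * (B : ℝ) ^ e := by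
    rw [hT]
    push_cast
    have h5 : ((u : ℝ) + 1) ≤ 2 * (B : ℝ) ^ e := by
      have : (1 : ℝ) ≤ (B : ℝ) ^ e := Real.one_le_rpow hB1 he0
      linarith
    have h6 : (0 : ℝ) ≤ 2 * a * C₁ := by positivity
    calc (2 : ℝ) * a * (C₁ * (u + 1)) = 2 * a * C₁ * (u + 1) := by ring
      _ ≤ 2 * a * C₁ * (2 * (B : ℝ) ^ e) := mul_le_mul_of_nonneg_left h5 h6
      _ = _ := by ring
  have h5 : ((2 * ((1 + a) * B : ℕ) + 1 : ℕ) : ℝ) ≤ (2 * (1 + a) + 1) * B := by
    push_cast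
    nlinarith
  calc ((2 * a * T : ℕ) : ℝ) * ((2 * ((1 + a) * B : ℕ) + 1 : ℕ) : ℝ) ≤
        (2 * a * (2 * C₁) * (B : ℝ) ^ e) * ((2 * (1 + a) + 1) * B) :=
        mul_le_mul h4 h5 (Nat.cast_nonneg _) (by positivity)
    _ = (2 * (1 + a) + 1) * (2 * a * (2 * C₁)) * ((B : ℝ) ^ e * (B : ℝ) ^ (1 : ℝ)) := by
        rw [Real.rpow_one]; ring
    _ = _ := by
        rw [← Real.rpow_add hBpos]
        congr 2
        rw [he]
        ring

/-- **Values with a powerful divisor of medium size are rare in the fibres.** -/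
theorem FS_pw {F : MvPolynomial (Fin 4) ℤ} {a b : ℕ} (h : Bi F (a + 1) b) (Λ : ℝ) {c₁ : ℝ}
    (hc : 0 < c₁) (hc4 : c₁ ≤ 4) :
    FS (fun y => IsCoprime y.1 y.2) Λ (fun B y x => ∃ s : ℕ, Pw s ∧ (B : ℝ) ^ c₁ ≤ s ∧
      (s : ℝ) ≤ (B : ℝ) ^ (4 - c₁) ∧ (s : ℤ) ∣ val F x y ∧
      IsCoprime (s : ℤ) (x.2 * val (pderiv 0 F) x y)) := by
  classical
  set δ : ℝ := c₁ / 32 with hδ
  have hδ0 : 0 < δ := by positivity
  obtain ⟨C₁, hC₁, hω⟩ := pow_omega (a + 1) hδ0
  obtain ⟨C₂, hC₂, hsum⟩ := sum_pw hδ0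
  refine ⟨c₁ / 4, by positivity, C₁ * C₂ * 2, by positivity, fun B hB y hy hyB => ?_⟩
  have hB1 : (1 : ℝ) ≤ B := by exact_mod_cast hB
  have hB0 : (0 : ℝ) < B := by linarith
  set N : ℕ := ⌊(B : ℝ) ^ (4 - c₁)⌋₊ with hN
  obtain ⟨hN1, hN2, -⟩ := rpow_floor hB1 (show 0 ≤ 4 - c₁ by linarith)
  set T := (Finset.Icc 1 N).filter fun s => Pw s ∧ (B : ℝ) ^ c₁ ≤ s with hT
  let X : ℕ → Finset (ℤ × ℤ) := fun s => (bx B).filter fun x =>
    IsCoprime x.1 x.2 ∧ (s : ℤ) ∣ val F x y ∧ IsCoprime (s : ℤ) (x.2 * val (pderiv 0 F) x y)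
  have h1 := fset_card_le B (fun x => ∃ s : ℕ, Pw s ∧ (B : ℝ) ^ c₁ ≤ s ∧
      (s : ℝ) ≤ (B : ℝ) ^ (4 - c₁) ∧ (s : ℤ) ∣ val F x y ∧
      IsCoprime (s : ℤ) (x.2 * val (pderiv 0 F) x y)) T X (by
    rintro x hx hco ⟨s, hs, hs1, hs2, hs3, hs4⟩
    refine ⟨s, ?_, ?_⟩
    · rw [hT, Finset.mem_filter, Finset.mem_Icc]
      exact ⟨⟨Nat.pos_of_ne_zero hs.1, Nat.le_floor hs2⟩, hs, hs1⟩
    · rw [Finset.mem_filter, mem_bx]
      exact ⟨hx, hco, hs3, hs4⟩)
  refine h1.trans ?_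
  have h2 : ∀ s ∈ T, ((X s).card : ℝ) ≤ (C₁ * (B : ℝ) ^ (c₁ / 8)) *
      (2 + 20 * (B : ℝ) ^ 2 / s) := by
    intro s hs
    rw [hT, Finset.mem_filter, Finset.mem_Icc] at hs
    have h3 := count_sy h hs.1.1 hB y.1 y.2 (X s) (fun x hx => by
      rw [Finset.mem_filter, mem_bx, ht_le] at hx
      exact ⟨hx.1.1, hx.1.2, hx.2.1, hx.2.2.1, hx.2.2.2⟩)
    refine h3.trans ?_
    refine mul_le_mul_of_nonneg_right ?_ (by positivity)
    refine (hω s hs.1.1).trans (mul_le_mul_of_nonneg_left ?_ hC₁.le)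
    have h4 : (s : ℝ) ≤ (B : ℝ) ^ (4 : ℝ) := by
      have h5 : (s : ℝ) ≤ N := by exact_mod_cast hs.1.2
      refine h5.trans (hN2.trans (Real.rpow_le_rpow_of_exponent_le hB1 (by linarith)))
    calc (s : ℝ) ^ δ ≤ ((B : ℝ) ^ (4 : ℝ)) ^ δ :=
          Real.rpow_le_rpow (Nat.cast_nonneg _) h4 hδ0.le
      _ = (B : ℝ) ^ (c₁ / 8) := by
          rw [← Real.rpow_mul hB0.le]
          congr 1
          rw [hδ]; ring
  refine (Finset.sum_le_sum h2).trans ?_
  rw [← Finset.mul_sum]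
  have h3 := hsum N hN1 ((B : ℝ) ^ c₁) (by positivity) ((B : ℝ) ^ 2) (by positivity) T (by
    intro s hs
    rw [hT, Finset.mem_filter, Finset.mem_Icc] at hs
    exact ⟨hs.2.1, hs.2.2, hs.1.2⟩)
  have h4 : (N : ℝ) ^ δ ≤ (B : ℝ) ^ (c₁ / 8) := by
    calc (N : ℝ) ^ δ ≤ ((B : ℝ) ^ (4 : ℝ)) ^ δ :=
          Real.rpow_le_rpow (Nat.cast_nonneg _)
            (hN2.trans (Real.rpow_le_rpow_of_exponent_le hB1 (by linarith))) hδ0.le
      _ = (B : ℝ) ^ (c₁ / 8) := by
          rw [← Real.rpow_mul hB0.le]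
          congr 1
          rw [hδ]; ring
  have h5 : (N : ℝ) ^ (1 / 2 : ℝ) ≤ (B : ℝ) ^ (2 - c₁ / 2) := by
    calc (N : ℝ) ^ (1 / 2 : ℝ) ≤ ((B : ℝ) ^ (4 - c₁)) ^ (1 / 2 : ℝ) :=
          Real.rpow_le_rpow (Nat.cast_nonneg _) hN2 (by norm_num)
      _ = _ := by
          rw [← Real.rpow_mul hB0.le]
          congr 1
          ring
  have h6 : (B : ℝ) ^ 2 * ((B : ℝ) ^ c₁) ^ (-(1 / 2) : ℝ) = (B : ℝ) ^ (2 - c₁ / 2) := by
    rw [← Real.rpow_mul hB0.le, ← Real.rpow_natCast, ← Real.rpow_add hB0]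
    congr 1
    push_cast
    ring
  rw [h6] at h3
  have h7 : ∑ s ∈ T, (2 + 20 * (B : ℝ) ^ 2 / s) ≤
      C₂ * (B : ℝ) ^ (c₁ / 8) * (2 * (B : ℝ) ^ (2 - c₁ / 2)) := by
    refine h3.trans ?_
    refine mul_le_mul (mul_le_mul_of_nonneg_left h4 hC₂.le) (by linarith) (by positivity)
      (by positivity)
  calc (C₁ * (B : ℝ) ^ (c₁ / 8)) * ∑ s ∈ T, (2 + 20 * (B : ℝ) ^ 2 / s) ≤
        (C₁ * (B : ℝ) ^ (c₁ / 8)) *
          (C₂ * (B : ℝ) ^ (c₁ / 8) * (2 * (B : ℝ) ^ (2 - c₁ / 2))) :=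
        mul_le_mul_of_nonneg_left h7 (by positivity)
    _ = C₁ * C₂ * 2 * ((B : ℝ) ^ (c₁ / 8) * (B : ℝ) ^ (c₁ / 8) *
          (B : ℝ) ^ (2 - c₁ / 2)) := by
        ring
    _ = _ := by
        rw [← Real.rpow_add hB0, ← Real.rpow_add hB0]
        congr 2
        ring

end Pool.Agent.Helper19K9.Fb
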