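import Pool.Agent.Helper19K9.Fb.Main
import Pool.Agent.Helper19K9.Fb.Borel

/-!
Exchanging the two factors; the finiteness statement for almost all points.
-/

set_option autoImplicit false
set_option linter.all false
set_option maxHeartbeats 4000000

namespace Pool.Agent.Helper19K9.Fb

open MvPolynomial Pool.Agent.TH910.Voj Pool.Agent.Helper19K9.Sq Pool.Agent.H813R3.Voj MeasureTheory

/-- the exchange of the two pairs of variables -/
def sg : Fin 4 ≃ Fin 4 where
  toFun := ![2, 3, 0, 1]
  invFun := ![2, 3, 0, 1]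
  left_inv := by decide
  right_inv := by decide

noncomputable def swp (F : MvPolynomial (Fin 4) ℤ) : MvPolynomial (Fin 4) ℤ := rename sg F

lemma swp_val (F : MvPolynomial (Fin 4) ℤ) (x y : ℤ × ℤ) : val (swp F) x y = val F y x := by
  unfold val swp
  rw [eval_rename]
  congr 1
  congr 1
  funext i
  fin_cases i <;> rfl

lemma swp_bi {F : MvPolynomial (Fin 4) ℤ} {a b : ℕ} (h : Bi F a b) : Bi (swp F) b a := by
  have key : ∀ d : Fin 4 →₀ ℕ, coeff d (swp F) ≠ 0 → d 0 + d 1 = b ∧ d 2 + d 3 = a := by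
    intro d hd
    obtain ⟨u, hu, hc⟩ := coeff_rename_ne_zero _ _ _ hd
    obtain ⟨h1, h2⟩ := h.exps hc
    have e : ∀ i, d (sg i) = u i := fun i => by
      rw [← hu, Finsupp.mapDomain_apply sg.injective]
    have e0 : d 0 = u 2 := e 2
    have e1 : d 1 = u 3 := e 3
    have e2 : d 2 = u 0 := e 0
    have e3 : d 3 = u 1 := e 1
    omega
  constructor
  · intro d hd
    rw [Finsupp.weight_apply, Finsupp.sum_fintype _ _ (by simp)]
    simp [Fin.sum_univ_four]
    exact (key d hd).1
  · intro d hd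
    rw [Finsupp.weight_apply, Finsupp.sum_fintype _ _ (by simp)]
    simp [Fin.sum_univ_four]
    exact (key d hd).2

lemma swp_toQ (F : MvPolynomial (Fin 4) ℤ) : toQ (swp F) = renameEquiv ℚ sg (toQ F) := by
  unfold toQ swp
  rw [map_rename]
  rfl

lemma swp_irr {F : MvPolynomial (Fin 4) ℤ} (h : Irreducible (toQ F)) :
    Irreducible (toQ (swp F)) := by
  rw [swp_toQ]
  exact (MulEquiv.irreducible_iff (renameEquiv ℚ sg)).2 h

lemma swp_assoc {F G : MvPolynomial (Fin 4) ℤ} (h : ¬ Associated (toQ F) (toQ G)) :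
    ¬ Associated (toQ (swp F)) (toQ (swp G)) := by
  intro h1
  apply h
  rw [swp_toQ, swp_toQ] at h1
  have h2 := h1.map ((renameEquiv ℚ sg).symm : _ ≃ₐ[ℚ] _)
  simpa using h2

end Pool.Agent.Helper19K9.Fb
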